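import Pool.Agent.Lib.MP_a80c92_pr.Defs2
import Pool.Agent.Lib.MP_a80c92_pr.CPb

/-! # JOB F/Mom: moments of centred compound Poisson laws

PROOF. `c(z) = e^{θz}` is multiplicative and bounded `r`-a.e. (`|y| ≤ b`), so `lintegral_CP_ofReal`
gives `∫ e^{θz} d(CP r) = exp ∫ (e^{θy} - 1) dr`; shift by `m = ∫ y dr`:
`∫ e^{θY} d(ccp r) = exp ∫ (e^{θy} - 1 - θy) dr`. As `e^z - 1 - z ≤ z² e^{|z|}` for all real `z`, the
exponent is at most `V θ² e^{|θ| b}`. `e^{θ|y|} ≤ e^{θy} + e^{-θy}`: `ccp_exp_abs`.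
`ccp_mass`: Markov: `P(|Y| > A) = P(e^{|Y|} > 2K(1)) ≤ 1/2`, `A = log (2 K(1))`.
`charFun_ccp`: `charFun_CP` and the shift (`charFun_map_add_const` or directly). -/

open MeasureTheory Set Filter Topology ProbabilityTheory
open scoped ENNReal NNReal

namespace Pool.Agent.Lib.MP_a80c92_pr

theorem ccp_prob (r : Measure ℝ) [IsFiniteMeasure r] : IsProbabilityMeasure (ccp r) := by
  unfold ccp
  exact Measure.isProbabilityMeasure_map (measurable_id.sub_const _).aemeasurable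

private theorem Mom_exp (z : ℝ) : Real.exp z - 1 - z ≤ z ^ 2 * Real.exp |z| := by
  have h0 : 1 ≤ Real.exp |z| := Real.one_le_exp (abs_nonneg z)
  rcases le_or_gt |z| 1 with h | h
  · have h1 := (le_abs_self _).trans (Real.abs_exp_sub_one_sub_id_le h)
    have h2 : z ^ 2 * 1 ≤ z ^ 2 * Real.exp |z| := mul_le_mul_of_nonneg_left h0 (sq_nonneg z)
    linarith
  · have h3 : 1 ≤ z ^ 2 := by
      rw [← sq_abs]
      nlinarith
    rcases le_or_gt 0 z with hz | hz
    · rw [abs_of_nonneg hz]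
      have h4 := mul_le_mul_of_nonneg_right h3 (Real.exp_pos z).le
      linarith
    · have h5 : Real.exp z ≤ 1 := Real.exp_le_one_iff.2 hz.le
      rw [abs_of_neg hz] at h h0 ⊢
      have h6 : z ^ 2 * 1 ≤ z ^ 2 * Real.exp (-z) := mul_le_mul_of_nonneg_left h0 (sq_nonneg z)
      have h7 : -z ≤ z ^ 2 := by nlinarith
      linarith

private theorem Mom_bd {r : Measure ℝ} {b V : ℝ} (hr : BJ r b V) {f : ℝ → ℝ} (hf : Measurable f) {C : ℝ}
    (hC : ∀ y, |y| ≤ b → |f y| ≤ C) : Integrable f r := by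
  have := hr.fin
  refine Integrable.mono' (integrable_const C) hf.aestronglyMeasurable ?_
  exact hr.supp.mono fun y hy => by
    rw [Real.norm_eq_abs]
    exact hC y hy

private theorem Mom_id {r : Measure ℝ} {b V : ℝ} (hr : BJ r b V) : Integrable (fun y : ℝ => y) r :=
  Mom_bd hr measurable_id fun _ hy => hy

private theorem Mom_ab {b y θ : ℝ} (hy : |y| ≤ b) : |θ * y| ≤ |θ| * b := by
  rw [abs_mul]
  exact mul_le_mul_of_nonneg_left hy (abs_nonneg θ)

private theorem Mom_ei {r : Measure ℝ} {b V : ℝ} (hr : BJ r b V) (θ : ℝ) :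
    Integrable (fun y => Real.exp (θ * y)) r := by
  refine Mom_bd hr (by fun_prop) (C := Real.exp (|θ| * b)) fun y hy => ?_
  rw [abs_of_pos (Real.exp_pos _)]
  exact Real.exp_le_exp.2 ((le_abs_self _).trans (Mom_ab hy))

private theorem Mom_sq {r : Measure ℝ} {b V : ℝ} (hr : BJ r b V) : Integrable (fun y : ℝ => y ^ 2) r := by
  refine Mom_bd hr (by fun_prop) (C := b ^ 2) fun y hy => ?_
  rw [abs_pow]
  exact pow_le_pow_left₀ (abs_nonneg y) hy 2

/-- the exponent is bounded -/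
private theorem Mom_expo {r : Measure ℝ} {b V : ℝ} (hr : BJ r b V) (θ : ℝ) :
    ∫ y, (Real.exp (θ * y) - 1 - θ * y) ∂r ≤ V * θ ^ 2 * Real.exp (|θ| * b) := by
  have := hr.fin
  have h1 : ∫ y, (Real.exp (θ * y) - 1 - θ * y) ∂r ≤ ∫ y, (θ ^ 2 * Real.exp (|θ| * b)) * y ^ 2 ∂r := by
    refine integral_mono_ae (((Mom_ei hr θ).sub (integrable_const 1)).sub ((Mom_id hr).const_mul θ))
      ((Mom_sq hr).const_mul _) ?_
    refine hr.supp.mono fun y hy => ?_
    show Real.exp (θ * y) - 1 - θ * y ≤ (θ ^ 2 * Real.exp (|θ| * b)) * y ^ 2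
    have h2 := Mom_exp (θ * y)
    have h3 : Real.exp |θ * y| ≤ Real.exp (|θ| * b) := Real.exp_le_exp.2 (Mom_ab hy)
    have h4 := mul_le_mul_of_nonneg_left h3 (sq_nonneg (θ * y))
    have h5 : (θ * y) ^ 2 * Real.exp (|θ| * b) = (θ ^ 2 * Real.exp (|θ| * b)) * y ^ 2 := by ring
    linarith
  rw [integral_const_mul] at h1
  have h2 := mul_le_mul_of_nonneg_left hr.var (show 0 ≤ θ ^ 2 * Real.exp (|θ| * b) by positivity)
  linarith

theorem ccp_exp (r : Measure ℝ) (b V : ℝ) (hr : BJ r b V) (θ : ℝ) :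
    Integrable (fun y => Real.exp (θ * y)) (ccp r) ∧
      ∫ y, Real.exp (θ * y) ∂(ccp r) = Real.exp (∫ y, (Real.exp (θ * y) - 1 - θ * y) ∂r) := by
  have := hr.fin
  have hl := lintegral_CP_ofReal r (fun y => Real.exp (θ * y)) (by fun_prop) (fun y => (Real.exp_pos _).le)
    (by simp) (fun x y => by rw [← Real.exp_add, mul_add]) (Mom_ei hr θ)
  have hpos : ∀ y : ℝ, 0 ≤ Real.exp (θ * y) := fun y => (Real.exp_pos _).le
  have hm : AEStronglyMeasurable (fun y => Real.exp (θ * y)) (CP r) :=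
    Measurable.aestronglyMeasurable (by fun_prop)
  have hI : Integrable (fun y => Real.exp (θ * y)) (CP r) := by
    rw [← lintegral_ofReal_ne_top_iff_integrable hm (ae_of_all _ hpos), hl]
    exact ENNReal.ofReal_ne_top
  have hE : ∫ y, Real.exp (θ * y) ∂(CP r) = Real.exp (∫ y, (Real.exp (θ * y) - 1) ∂r) := by
    rw [integral_eq_lintegral_of_nonneg_ae (ae_of_all _ hpos) hm, hl, ENNReal.toReal_ofReal (Real.exp_pos _).le]
  have hg : Measurable fun z : ℝ => z - ∫ y, y ∂r := measurable_id.sub_const _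
  have hm2 : ∀ μ : Measure ℝ, AEStronglyMeasurable (fun y : ℝ => Real.exp (θ * y)) μ := fun μ =>
    Measurable.aestronglyMeasurable (by fun_prop)
  have he : ∀ z : ℝ, Real.exp (θ * (z - ∫ y, y ∂r)) = Real.exp (θ * z) * Real.exp (-(θ * ∫ y, y ∂r)) := by
    intro z
    rw [← Real.exp_add]
    congr 1
    ring
  unfold ccp
  constructor
  · rw [integrable_map_measure (hm2 _) hg.aemeasurable]
    refine (hI.mul_const (Real.exp (-(θ * ∫ y, y ∂r)))).congr (ae_of_all _ fun z => ?_)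
    exact (he z).symm
  · rw [integral_map hg.aemeasurable (hm2 _)]
    simp only [he]
    have hs : ∫ y, (Real.exp (θ * y) - 1 - θ * y) ∂r = (∫ y, (Real.exp (θ * y) - 1) ∂r) - ∫ y, θ * y ∂r :=
      integral_sub ((Mom_ei hr θ).sub (integrable_const 1)) ((Mom_id hr).const_mul θ)
    rw [integral_mul_const, hE, ← Real.exp_add, hs, integral_const_mul, ← sub_eq_add_neg]

theorem ccp_exp_abs (r : Measure ℝ) (b V : ℝ) (hr : BJ r b V) (θ : ℝ) (hθ : 0 ≤ θ) :
    Integrable (fun y => Real.exp (θ * |y|)) (ccp r) ∧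
      ∫ y, Real.exp (θ * |y|) ∂(ccp r) ≤ Kc b V θ := by
  have h1 := ccp_exp r b V hr θ
  have h2 := ccp_exp r b V hr (-θ)
  have hle : ∀ y : ℝ, Real.exp (θ * |y|) ≤ Real.exp (θ * y) + Real.exp (-θ * y) := by
    intro y
    rcases abs_cases y with ⟨h, _⟩ | ⟨h, _⟩
    · rw [h]
      linarith [Real.exp_pos (-θ * y)]
    · rw [h, mul_neg, ← neg_mul]
      linarith [Real.exp_pos (θ * y)]
  have hI : Integrable (fun y => Real.exp (θ * |y|)) (ccp r) := by
    refine Integrable.mono' (h1.1.add h2.1) (Measurable.aestronglyMeasurable (by fun_prop)) ?_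
    refine ae_of_all _ fun y => ?_
    rw [Real.norm_eq_abs, abs_of_pos (Real.exp_pos _)]
    exact hle y
  refine ⟨hI, ?_⟩
  have h3 : ∫ y, Real.exp (θ * |y|) ∂(ccp r) ≤ ∫ y, (Real.exp (θ * y) + Real.exp (-θ * y)) ∂(ccp r) :=
    integral_mono hI (h1.1.add h2.1) hle
  rw [integral_add h1.1 h2.1, h1.2, h2.2] at h3
  have h4 := Real.exp_le_exp.2 (Mom_expo hr θ)
  have h5 := Real.exp_le_exp.2 (Mom_expo hr (-θ))
  rw [neg_sq, abs_neg] at h5
  unfold Kc
  linarith

theorem ccp_mass (r : Measure ℝ) (b V : ℝ) (hr : BJ r b V) :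
    (1 / 2 : ℝ) ≤ (ccp r).real (Icc (-(Ac b V)) (Ac b V)) := by
  have := hr.fin
  have := ccp_prob r
  obtain ⟨hI, hK⟩ := ccp_exp_abs r b V hr 1 zero_le_one
  have hKp : 0 < Kc b V 1 := by
    unfold Kc
    positivity
  have hA : Real.exp (Ac b V) = 2 * Kc b V 1 := by
    unfold Ac
    rw [Real.exp_log (by positivity)]
  have hM := mul_meas_ge_le_integral_of_nonneg (μ := ccp r) (f := fun y => Real.exp (1 * |y|))
    (ae_of_all _ fun y => (Real.exp_pos _).le) hI (2 * Kc b V 1)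
  have hsub : (Icc (-(Ac b V)) (Ac b V))ᶜ ⊆ {y : ℝ | 2 * Kc b V 1 ≤ Real.exp (1 * |y|)} := by
    intro y hy
    rw [mem_compl_iff, mem_Icc, ← abs_le, not_le] at hy
    show 2 * Kc b V 1 ≤ Real.exp (1 * |y|)
    rw [← hA, one_mul]
    exact Real.exp_le_exp.2 hy.le
  have h1 : (ccp r).real (Icc (-(Ac b V)) (Ac b V))ᶜ ≤ 1 / 2 := by
    have h2 := measureReal_mono (μ := ccp r) hsub
    have h3 : 2 * Kc b V 1 * (ccp r).real {y : ℝ | 2 * Kc b V 1 ≤ Real.exp (1 * |y|)} ≤ Kc b V 1 := hM.trans hK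
    have h4 : (ccp r).real {y : ℝ | 2 * Kc b V 1 ≤ Real.exp (1 * |y|)} ≤ 1 / 2 := by
      by_contra hcon
      rw [not_le] at hcon
      have h5 := mul_lt_mul_of_pos_left hcon (show 0 < 2 * Kc b V 1 by positivity)
      linarith
    exact h2.trans h4
  rw [probReal_compl_eq_one_sub measurableSet_Icc] at h1
  linarith

theorem charFun_ccp (r : Measure ℝ) (b V : ℝ) (hr : BJ r b V) (t : ℝ) :
    charFun (ccp r) t =
      Complex.exp (∫ x : ℝ, (Complex.exp (t * x * Complex.I) - 1 - t * x * Complex.I) ∂r) := by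
  have := hr.fin
  have hg : Measurable fun z : ℝ => z - ∫ y, y ∂r := measurable_id.sub_const _
  have h1 := charFun_CP r t
  rw [charFun_apply_real] at h1 ⊢
  have he : ∀ z : ℝ, Complex.exp (t * ((z - ∫ y, y ∂r : ℝ) : ℂ) * Complex.I) =
      Complex.exp (t * z * Complex.I) * Complex.exp (-(((t * ∫ y, y ∂r : ℝ) : ℂ) * Complex.I)) := by
    intro z
    rw [← Complex.exp_add]
    congr 1
    push_cast
    ring
  have hI1 : Integrable (fun x : ℝ => Complex.exp (t * x * Complex.I) - 1) r := by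
    refine Integrable.sub ?_ (integrable_const 1)
    refine CPb_int r (by fun_prop) fun x => ?_
    have h : (t * x * Complex.I : ℂ) = ((t * x : ℝ) : ℂ) * Complex.I := by push_cast; ring
    rw [h, Complex.norm_exp_ofReal_mul_I]
  have hI2 : Integrable (fun x : ℝ => (t * x * Complex.I : ℂ)) r :=
    ((Mom_id hr).ofReal.const_mul (t : ℂ)).mul_const Complex.I
  have hi : ∫ x : ℝ, (t * x * Complex.I : ℂ) ∂r = ((t * ∫ y, y ∂r : ℝ) : ℂ) * Complex.I := by
    rw [integral_mul_const, integral_const_mul, integral_complex_ofReal]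
    push_cast
    rfl
  unfold ccp
  rw [integral_map hg.aemeasurable (Measurable.aestronglyMeasurable (by fun_prop))]
  simp only [he]
  rw [integral_mul_const, h1, ← Complex.exp_add, integral_sub hI1 hI2, hi, ← sub_eq_add_neg]

end Pool.Agent.Lib.MP_a80c92_pr
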