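import Pool.Agent.Lib.MP_a80c92_pr.F.G012
import Pool.Agent.Lib.MP_a80c92_pr.F.Mom

/-! # JOB F/Bnd1: the second moment in the central region

PROOF. `v ≥ v0c ≥ 1 + b ≥ 1`. `gx v x y ≤ e^{|x||y|/v} ≤ e^{(lam+1)|y|}`, `y² ≤ 2 e^{|y|}`, so
`g2 ≤ 2 E e^{(lam+2)|Y|} ≤ 2 Kc b V (lam+2)` (`ccp_exp_abs`). With `A = Ac b V ≥ 0`
(`Kc ≥ 2`): on `|Y| ≤ A`: `gx ≥ e^{-(lam+1)A - A²/2}` (`v ≥ 1`), so `g0 ≥ (1/2) e^{-(lam+1)A - A²/2}`
(`ccp_mass`). `v ≥ 4 Kc b V (lam+2) e^{(lam+1)A + A²/2}` gives `g2 ≤ v g0`. -/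

open MeasureTheory Set Filter Topology ProbabilityTheory
open scoped ENNReal NNReal

namespace Pool.Agent.Lib.MP_a80c92_pr

private theorem Bnd1_abs {v x y lam : ℝ} (hv1 : 1 ≤ v) (hx : |x| ≤ (lam + 1) * v) :
    |x * y / v| ≤ (lam + 1) * |y| := by
  have hv0 : 0 < v := by linarith
  rw [abs_div, abs_of_pos hv0, abs_mul, div_le_iff₀ hv0]
  have h := mul_le_mul_of_nonneg_right hx (abs_nonneg y)
  linarith

private theorem Bnd1_sq (y : ℝ) : y ^ 2 ≤ 2 * Real.exp |y| := by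
  have h := Real.quadratic_le_exp_of_nonneg (abs_nonneg y)
  have h1 := abs_nonneg y
  rw [sq_abs] at h
  linarith

private theorem Bnd1_up {v x y lam : ℝ} (hv1 : 1 ≤ v) (hx : |x| ≤ (lam + 1) * v) :
    y ^ 2 * gx v x y ≤ 2 * Real.exp ((lam + 2) * |y|) := by
  have hv0 : 0 < v := by linarith
  have h1 : gx v x y ≤ Real.exp ((lam + 1) * |y|) := by
    unfold gx
    apply Real.exp_le_exp.mpr
    have h2 := (abs_le.mp (Bnd1_abs (y := y) hv1 hx)).2
    have h3 : (x * y - y ^ 2 / 2) / v = x * y / v - y ^ 2 / 2 / v := by ring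
    have h4 : 0 ≤ y ^ 2 / 2 / v := by positivity
    rw [h3]
    linarith
  have h5 : (lam + 2) * |y| = |y| + (lam + 1) * |y| := by ring
  rw [h5, Real.exp_add, ← mul_assoc]
  exact mul_le_mul (Bnd1_sq y) h1 (Real.exp_pos _).le (mul_nonneg (by norm_num) (Real.exp_pos _).le)

private theorem Bnd1_low {v x y lam A : ℝ} (hlam : 0 ≤ lam) (hv1 : 1 ≤ v) (hx : |x| ≤ (lam + 1) * v)
    (hy : y ∈ Icc (-A) A) : Real.exp (-((lam + 1) * A + A ^ 2 / 2)) ≤ gx v x y := by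
  have hv0 : 0 < v := by linarith
  unfold gx
  apply Real.exp_le_exp.mpr
  have hyA : |y| ≤ A := abs_le.mpr hy
  have h2 := (abs_le.mp (Bnd1_abs (y := y) hv1 hx)).1
  have h3 : (x * y - y ^ 2 / 2) / v = x * y / v - y ^ 2 / 2 / v := by ring
  have h4 : y ^ 2 / 2 / v ≤ y ^ 2 / 2 := div_le_self (by positivity) hv1
  have h5 : y ^ 2 ≤ A ^ 2 := by
    rw [← sq_abs y]
    exact pow_le_pow_left₀ (abs_nonneg y) hyA 2
  have h6 : (lam + 1) * |y| ≤ (lam + 1) * A := mul_le_mul_of_nonneg_left hyA (by linarith)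
  rw [h3]
  linarith

theorem bnd_c (r : Measure ℝ) (b V : ℝ) (hr : BJ r b V) (hb : 0 ≤ b) (hV : 0 ≤ V) (lam : ℝ)
    (hlam : 0 ≤ lam) (v : ℝ) (hv : v0c b V lam ≤ v) (x : ℝ) (hx : |x| ≤ (lam + 1) * v) :
    g2 v (ccp r) x ≤ v * g0 v (ccp r) x := by
  have : IsFiniteMeasure r := hr.fin
  have : IsProbabilityMeasure (ccp r) := ccp_prob r
  have h1 : 1 + b ≤ v := by
    refine le_trans ?_ hv
    unfold v0c
    exact le_trans (le_max_left _ _) (le_max_left _ _)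
  have h2 : 4 * Kc b V (lam + 2) * Real.exp ((lam + 1) * Ac b V + Ac b V ^ 2 / 2) ≤ v := by
    refine le_trans ?_ hv
    unfold v0c
    exact le_max_right _ _
  have hv1 : 1 ≤ v := by linarith
  have hv0 : 0 < v := by linarith
  obtain ⟨h3, h4⟩ := ccp_exp_abs r b V hr (lam + 2) (by linarith)
  have hg2 : g2 v (ccp r) x ≤ 2 * Kc b V (lam + 2) := by
    unfold g2
    calc ∫ y, y ^ 2 * gx v x y ∂(ccp r) ≤ ∫ y, 2 * Real.exp ((lam + 2) * |y|) ∂(ccp r) := by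
          refine integral_mono (int_g2 v (ccp r) hv0 x) (h3.const_mul 2) ?_
          intro y
          exact Bnd1_up hv1 hx
      _ = 2 * ∫ y, Real.exp ((lam + 2) * |y|) ∂(ccp r) := integral_const_mul _ _
      _ ≤ 2 * Kc b V (lam + 2) := by linarith
  have hg0 : (1 / 2 : ℝ) * Real.exp (-((lam + 1) * Ac b V + Ac b V ^ 2 / 2)) ≤ g0 v (ccp r) x := by
    unfold g0
    have h5 := ccp_mass r b V hr
    have hint := int_g0 v (ccp r) hv0 x
    calc (1 / 2 : ℝ) * Real.exp (-((lam + 1) * Ac b V + Ac b V ^ 2 / 2))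
        ≤ (ccp r).real (Icc (-(Ac b V)) (Ac b V)) * Real.exp (-((lam + 1) * Ac b V + Ac b V ^ 2 / 2)) :=
          mul_le_mul_of_nonneg_right h5 (Real.exp_pos _).le
      _ = ∫ _y in Icc (-(Ac b V)) (Ac b V), Real.exp (-((lam + 1) * Ac b V + Ac b V ^ 2 / 2)) ∂(ccp r) := by
          rw [setIntegral_const, smul_eq_mul]
      _ ≤ ∫ y in Icc (-(Ac b V)) (Ac b V), gx v x y ∂(ccp r) := by
          refine setIntegral_mono_on (integrable_const _) hint.integrableOn measurableSet_Icc ?_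
          intro y hy
          exact Bnd1_low hlam hv1 hx hy
      _ ≤ ∫ y, gx v x y ∂(ccp r) := by
          refine setIntegral_le_integral hint ?_
          exact Filter.Eventually.of_forall fun y => (Real.exp_pos _).le
  have hK : 0 ≤ Kc b V (lam + 2) := by
    unfold Kc
    positivity
  have hfin : 2 * Kc b V (lam + 2) ≤ v * ((1 / 2 : ℝ) * Real.exp (-((lam + 1) * Ac b V + Ac b V ^ 2 / 2))) := by
    have h6 := mul_le_mul_of_nonneg_right h2
      (mul_nonneg (by norm_num : (0 : ℝ) ≤ 1 / 2) (Real.exp_pos (-((lam + 1) * Ac b V + Ac b V ^ 2 / 2))).le)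
    have h7 : 4 * Kc b V (lam + 2) * Real.exp ((lam + 1) * Ac b V + Ac b V ^ 2 / 2) *
        (1 / 2 * Real.exp (-((lam + 1) * Ac b V + Ac b V ^ 2 / 2))) = 2 * Kc b V (lam + 2) := by
      have h8 : Real.exp ((lam + 1) * Ac b V + Ac b V ^ 2 / 2) *
          Real.exp (-((lam + 1) * Ac b V + Ac b V ^ 2 / 2)) = 1 := by
        rw [← Real.exp_add, add_neg_cancel, Real.exp_zero]
      linear_combination (2 * Kc b V (lam + 2)) * h8
    rw [h7] at h6
    exact h6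
  exact hg2.trans (hfin.trans (mul_le_mul_of_nonneg_left hg0 hv0.le))

end Pool.Agent.Lib.MP_a80c92_pr
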