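import Pool.Agent.Lib.MP_a80c92_pr.Defs2
import Pool.Agent.Lib.MP_a80c92_pr.CPa

/-! # JOB F/Mck: Mecke formula on the line (Bochner integrals)

PROOF. By induction over `k`: `z` is integrable for `cpow r k` and for bounded measurable `F`:
`∫ z F z d(cpow r (k+1)) = (k+1) ∫∫ y F (z+y) dr(y) d(cpow r k)(z)`. (The same computation as
`cpc_cpow` in CPc.lean, complete there with `lintegral` on `ℕ`: `cpow r (k+1) = cpow r k ∗ r`,
`integral_conv`, split `(z+y) F (z+y) = z F (z+y) + y F (z+y)`, `integral_integral_swap`.) First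
absolute moments: `∫ |z| d(cpow r (k+1)) ≤ (k+1) |r|^k ∫ |y| dr`, so `z` is integrable for `CP r`
(`∑ (k+1) |r|^k/(k+1)! < ∞`; alternatively, if you prefer: `|z| ≤ ` the `lintegral` version for the
subadditive function `|z|`). Sum over `k` with `1/(k+1)!` (`integral_sum_measure` /
`hasSum_integral_measure`), the term `k = 0` (`dirac 0`) is zero; `CP r` again on the right.
`mecke_ccp`: `ccp r` is the image of `CP r` under `z ↦ z - m`, `m = ∫ y dr`:
`∫ z F z d(ccp r) = ∫ (z-m) F(z-m) d(CP r) = ∫ y ∫ F(z-m+y) d(CP r) dr - m ∫ F (z-m) d(CP r)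
= ∫ y ∫ (F(z+y) - F z) d(ccp r)(z) dr(y)`. -/

open MeasureTheory Set Filter Topology ProbabilityTheory
open scoped ENNReal NNReal

namespace Pool.Agent.Lib.MP_a80c92_pr

theorem mck_univ (r : Measure ℝ) [IsFiniteMeasure r] (k : ℕ) :
    cpow r k univ = (r univ) ^ k := by
  have h := lintegral_cpow r (fun _ => 1) measurable_const rfl (by simp) k
  simpa using h

theorem mck_abs (r : Measure ℝ) [IsFiniteMeasure r] (k : ℕ) :
    ∫⁻ z, ‖z‖ₑ ∂(cpow r k) ≤ (k : ℝ≥0∞) * (r univ) ^ (k - 1) * ∫⁻ y, ‖y‖ₑ ∂r := by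
  induction k with
  | zero => simp [cpow]
  | succ k ih =>
    rw [cpow, Measure.lintegral_conv (by fun_prop)]
    calc ∫⁻ x, ∫⁻ y, ‖x + y‖ₑ ∂r ∂(cpow r k)
        ≤ ∫⁻ x, ∫⁻ y, (‖x‖ₑ + ‖y‖ₑ) ∂r ∂(cpow r k) :=
          lintegral_mono fun x => lintegral_mono fun y => enorm_add_le x y
      _ = (r univ) * ∫⁻ x, ‖x‖ₑ ∂(cpow r k) + (r univ) ^ k * ∫⁻ y, ‖y‖ₑ ∂r := by
          have h1 : ∀ x : ℝ, ∫⁻ y, (‖x‖ₑ + ‖y‖ₑ) ∂r = ‖x‖ₑ * r univ + ∫⁻ y, ‖y‖ₑ ∂r := by
            intro x
            rw [lintegral_add_left measurable_const, lintegral_const]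
          simp only [h1]
          rw [lintegral_add_right _ measurable_const, lintegral_mul_const _ (by fun_prop),
            lintegral_const, mck_univ]
          ring
      _ ≤ (r univ) * ((k : ℝ≥0∞) * (r univ) ^ (k - 1) * ∫⁻ y, ‖y‖ₑ ∂r) +
            (r univ) ^ k * ∫⁻ y, ‖y‖ₑ ∂r := by gcongr
      _ = _ := by
          rcases k with _ | k
          · simp
          · simp only [Nat.add_sub_cancel]
            push_cast
            ring

theorem mck_int_cpow (r : Measure ℝ) [IsFiniteMeasure r] (hint : Integrable (fun y => y) r)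
    (k : ℕ) : Integrable (fun z => z) (cpow r k) := by
  refine ⟨aestronglyMeasurable_id, ?_⟩
  refine (mck_abs r k).trans_lt ?_
  refine ENNReal.mul_lt_top (ENNReal.mul_lt_top (ENNReal.natCast_lt_top k)
    (ENNReal.pow_lt_top (measure_lt_top r univ))) ?_
  exact hint.2

theorem mck_int_CP (r : Measure ℝ) [IsFiniteMeasure r] (hint : Integrable (fun y => y) r) :
    Integrable (fun z => z) (CP r) := by
  refine ⟨aestronglyMeasurable_id, ?_⟩
  have hM : ∫⁻ y, ‖y‖ₑ ∂r < ∞ := hint.2
  show ∫⁻ z, ‖z‖ₑ ∂(CP r) < ∞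
  unfold CP
  rw [lintegral_smul_measure, lintegral_sum_measure]
  refine ENNReal.mul_lt_top ENNReal.ofReal_lt_top ?_
  have hr : r univ = ENNReal.ofReal (r.real univ) := by
    rw [Measure.real, ENNReal.ofReal_toReal (measure_ne_top r univ)]
  have h1 : ∑' n : ℕ, ((n.factorial : ℝ≥0∞)⁻¹) * (r univ) ^ n < ∞ := by
    rw [hr, cpa_tsum _ measureReal_nonneg]
    exact ENNReal.ofReal_lt_top
  rw [tsum_eq_zero_add' (ENNReal.summable)]
  have h0 : ∫⁻ z, ‖z‖ₑ ∂(((Nat.factorial 0 : ℝ≥0∞)⁻¹) • cpow r 0) = 0 := by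
    rw [lintegral_smul_measure, cpow, lintegral_dirac' _ (by fun_prop)]
    simp
  rw [h0, zero_add]
  refine lt_of_le_of_lt ?_ (ENNReal.mul_lt_top h1 hM)
  rw [← ENNReal.tsum_mul_right]
  refine ENNReal.tsum_le_tsum fun k => ?_
  rw [lintegral_smul_measure, smul_eq_mul]
  calc (((k + 1).factorial : ℝ≥0∞)⁻¹) * ∫⁻ z, ‖z‖ₑ ∂(cpow r (k + 1))
      ≤ (((k + 1).factorial : ℝ≥0∞)⁻¹) *
          (((k + 1 : ℕ) : ℝ≥0∞) * (r univ) ^ (k + 1 - 1) * ∫⁻ y, ‖y‖ₑ ∂r) := by
        gcongr
        exact mck_abs r (k + 1)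
    _ = _ := by
        rw [Nat.factorial_succ, Nat.cast_mul, ENNReal.mul_inv (Or.inl (by positivity))
          (Or.inl (ENNReal.natCast_ne_top _)), Nat.add_sub_cancel]
        have hc : (((k + 1 : ℕ) : ℝ≥0∞)⁻¹) * ((k + 1 : ℕ) : ℝ≥0∞) = 1 :=
          ENNReal.inv_mul_cancel (by positivity) (ENNReal.natCast_ne_top _)
        calc _ = ((((k + 1 : ℕ) : ℝ≥0∞)⁻¹) * ((k + 1 : ℕ) : ℝ≥0∞)) *
              (((k.factorial : ℝ≥0∞)⁻¹) * (r univ) ^ k * ∫⁻ y, ‖y‖ₑ ∂r) := by ring
          _ = _ := by rw [hc, one_mul]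

theorem mck_prodL (μ r : Measure ℝ) [IsFiniteMeasure μ] [IsFiniteMeasure r]
    (hμ : Integrable (fun y => y) μ) (F : ℝ → ℝ) (hF : Measurable F) (C : ℝ)
    (hb : ∀ x, |F x| ≤ C) :
    Integrable (fun p : ℝ × ℝ => p.1 * F (p.1 + p.2)) (μ.prod r) := by
  have h1 : Integrable (fun p : ℝ × ℝ => p.1) (μ.prod r) := hμ.comp_fst r
  exact h1.mul_bdd (hF.comp (measurable_fst.add measurable_snd)).aestronglyMeasurable (Filter.Eventually.of_forall fun p => by
    simpa using hb (p.1 + p.2))

theorem mck_prodR (μ r : Measure ℝ) [IsFiniteMeasure μ] [IsFiniteMeasure r]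
    (hr : Integrable (fun y => y) r) (F : ℝ → ℝ) (hF : Measurable F) (C : ℝ)
    (hb : ∀ x, |F x| ≤ C) :
    Integrable (fun p : ℝ × ℝ => p.2 * F (p.1 + p.2)) (μ.prod r) := by
  have h1 : Integrable (fun p : ℝ × ℝ => p.2) (μ.prod r) := hr.comp_snd μ
  exact h1.mul_bdd (hF.comp (measurable_fst.add measurable_snd)).aestronglyMeasurable (Filter.Eventually.of_forall fun p => by
    simpa using hb (p.1 + p.2))

theorem mck_bint (μ : Measure ℝ) [IsFiniteMeasure μ] (hμ : Integrable (fun y => y) μ)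
    (F : ℝ → ℝ) (hF : Measurable F) (C : ℝ) (hb : ∀ x, |F x| ≤ C) :
    Integrable (fun z => z * F z) μ :=
  hμ.mul_bdd hF.aestronglyMeasurable (Filter.Eventually.of_forall fun p => by
    simpa using hb p)

theorem mck_Gm (r : Measure ℝ) [IsFiniteMeasure r] (F : ℝ → ℝ) (hF : Measurable F) :
    Measurable (fun w => ∫ z, z * F (w + z) ∂r) := by
  have h : Measurable (fun p : ℝ × ℝ => p.2 * F (p.1 + p.2)) := by fun_prop
  exact (h.stronglyMeasurable.integral_prod_right' (ν := r)).measurable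

theorem mck_Gb (r : Measure ℝ) [IsFiniteMeasure r] (hint : Integrable (fun y => y) r)
    (F : ℝ → ℝ) (C : ℝ) (hb : ∀ x, |F x| ≤ C) (w : ℝ) :
    |∫ z, z * F (w + z) ∂r| ≤ ∫ z, |z| * C ∂r := by
  have h := norm_integral_le_of_norm_le (μ := r) (f := fun z => z * F (w + z))
    (g := fun z => |z| * C) (hint.abs.mul_const C) (Filter.Eventually.of_forall fun z => by
      simp only [Real.norm_eq_abs, abs_mul]
      exact mul_le_mul_of_nonneg_left (hb _) (abs_nonneg _))
  simpa using h

theorem mck_cpow (r : Measure ℝ) [IsFiniteMeasure r] (hint : Integrable (fun y => y) r)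
    (k : ℕ) (F : ℝ → ℝ) (hF : Measurable F) (C : ℝ) (hb : ∀ x, |F x| ≤ C) :
    ∫ z, z * F z ∂(cpow r (k + 1)) =
      ((k + 1 : ℕ) : ℝ) * ∫ x, ∫ y, y * F (x + y) ∂r ∂(cpow r k) := by
  induction k generalizing F with
  | zero =>
    have e1 : cpow r (0 + 1) = r := by
      show Measure.dirac 0 ∗ r = r
      rw [Measure.dirac_zero_conv]
    have e0 : cpow r 0 = Measure.dirac 0 := rfl
    rw [e1, e0, integral_dirac]
    simp
  | succ k ih =>
    have hI := mck_int_cpow r hint (k + 1)
    have hI2 := mck_int_cpow r hint (k + 1 + 1)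
    have hbi := mck_bint (cpow r (k + 1 + 1)) hI2 F hF C hb
    have e2 : cpow r (k + 1 + 1) = cpow r (k + 1) ∗ r := rfl
    have e1 : cpow r (k + 1) = cpow r k ∗ r := rfl
    rw [e2] at hbi ⊢
    rw [integral_conv hbi]
    have hL := mck_prodL (cpow r (k + 1)) r hI F hF C hb
    have hR := mck_prodR (cpow r (k + 1)) r hint F hF C hb
    have h1 : ∀ x : ℝ, ∫ y, (x + y) * F (x + y) ∂r =
        ∫ y, x * F (x + y) ∂r + ∫ y, y * F (x + y) ∂r := by
      intro x
      have hx1 : Integrable (fun y => x * F (x + y)) r := by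
        have : Integrable (fun _ : ℝ => x) r := integrable_const x
        exact this.mul_bdd (hF.comp (measurable_const.add measurable_id)).aestronglyMeasurable (Filter.Eventually.of_forall fun p => by
          simpa using hb (x + p))
      have hx2 : Integrable (fun y => y * F (x + y)) r :=
        hint.mul_bdd (hF.comp (measurable_const.add measurable_id)).aestronglyMeasurable (Filter.Eventually.of_forall fun p => by
          simpa using hb (x + p))
      rw [← integral_add hx1 hx2]
      refine integral_congr_ae (Filter.Eventually.of_forall fun y => ?_)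
      ring
    simp only [h1]
    rw [integral_add hL.integral_prod_left hR.integral_prod_left]
    have hsw : ∫ x, ∫ y, x * F (x + y) ∂r ∂(cpow r (k + 1)) =
        ∫ y, ∫ x, x * F (x + y) ∂(cpow r (k + 1)) ∂r :=
      integral_integral_swap (f := fun x y => x * F (x + y)) hL
    rw [hsw]
    have h2 : ∀ y : ℝ, ∫ x, x * F (x + y) ∂(cpow r (k + 1)) =
        ((k + 1 : ℕ) : ℝ) * ∫ x, (fun w => ∫ z, z * F (w + z) ∂r) (x + y) ∂(cpow r k) := by
      intro y
      rw [ih (fun x => F (x + y)) (by fun_prop) (fun x => hb _)]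
      congr 1
      refine integral_congr_ae (Filter.Eventually.of_forall fun x => ?_)
      refine integral_congr_ae (Filter.Eventually.of_forall fun z => ?_)
      show z * F (x + z + y) = z * F (x + y + z)
      rw [add_right_comm]
    simp only [h2]
    rw [integral_const_mul]
    have hGm := mck_Gm r F hF
    have hGb := mck_Gb r hint F C hb
    have hG : Integrable (fun p : ℝ × ℝ => ∫ z, z * F (p.1 + p.2 + z) ∂r)
        ((cpow r k).prod r) := by
      have h3 : Integrable (fun _ : ℝ × ℝ => (1 : ℝ)) ((cpow r k).prod r) := integrable_const 1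
      have h4 := h3.mul_bdd (g := fun p : ℝ × ℝ => ∫ z, z * F (p.1 + p.2 + z) ∂r)
        (hGm.comp (measurable_fst.add measurable_snd)).aestronglyMeasurable
        (Filter.Eventually.of_forall fun p => by
          simpa using hGb (p.1 + p.2))
      simpa using h4
    have hG' : Integrable (fun w => ∫ z, z * F (w + z) ∂r) (cpow r k ∗ r) := by
      have h3 : Integrable (fun _ : ℝ => (1 : ℝ)) (cpow r k ∗ r) := integrable_const 1
      have h4 := h3.mul_bdd (g := fun w : ℝ => ∫ z, z * F (w + z) ∂r)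
        hGm.aestronglyMeasurable
        (Filter.Eventually.of_forall fun p => by
          simpa using hGb p)
      simpa using h4
    have hsw2 : ∫ y, ∫ x, (∫ z, z * F (x + y + z) ∂r) ∂(cpow r k) ∂r =
        ∫ x, ∫ y, (∫ z, z * F (x + y + z) ∂r) ∂r ∂(cpow r k) :=
      (integral_integral_swap (f := fun x y => ∫ z, z * F (x + y + z) ∂r) hG).symm
    rw [hsw2, e1, integral_conv hG']
    push_cast
    ring

theorem mecke_real (r : Measure ℝ) [IsFiniteMeasure r] (hint : Integrable (fun y => y) r)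
    (F : ℝ → ℝ) (hF : Measurable F) (C : ℝ) (hb : ∀ x, |F x| ≤ C) :
    Integrable (fun z => z) (CP r) ∧
      ∫ z, z * F z ∂(CP r) = ∫ y, y * (∫ z, F (z + y) ∂(CP r)) ∂r := by
  have hI := mck_int_CP r hint
  refine ⟨hI, ?_⟩
  have hR := mck_prodR (CP r) r hint F hF C hb
  have hsw : ∫ x, ∫ y, y * F (x + y) ∂r ∂(CP r) = ∫ y, ∫ x, y * F (x + y) ∂(CP r) ∂r :=
    integral_integral_swap (f := fun x y => y * F (x + y)) hR
  have e1 : ∫ y, y * (∫ z, F (z + y) ∂(CP r)) ∂r = ∫ x, ∫ y, y * F (x + y) ∂r ∂(CP r) := by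
    rw [hsw]
    refine integral_congr_ae (Filter.Eventually.of_forall fun y => ?_)
    exact (integral_const_mul y _).symm
  rw [e1]
  have hbi := mck_bint (CP r) hI F hF C hb
  have hGi : Integrable (fun x => ∫ y, y * F (x + y) ∂r) (CP r) := hR.integral_prod_left
  have c0 : ENNReal.ofReal (Real.exp (-(r.real univ))) ≠ 0 := by
    simpa using Real.exp_pos _
  have c1 : ENNReal.ofReal (Real.exp (-(r.real univ))) ≠ ∞ := ENNReal.ofReal_ne_top
  unfold CP at hbi hGi ⊢
  rw [integrable_smul_measure c0 c1] at hbi hGi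
  rw [integral_smul_measure, integral_smul_measure]
  congr 1
  have s1 := hasSum_integral_measure hbi
  have s2 := hasSum_integral_measure hGi
  have s1' := (hasSum_nat_add_iff' 1).2 s1
  rw [Finset.sum_range_one, integral_smul_measure] at s1'
  have h0 : ∫ z, z * F z ∂(cpow r 0) = 0 := by
    rw [cpow, integral_dirac]
    simp
  rw [h0, smul_zero, sub_zero] at s1'
  have h3 : (fun n : ℕ => ∫ z, z * F z ∂(((n + 1).factorial : ℝ≥0∞)⁻¹ • cpow r (n + 1))) =
      fun n : ℕ => ∫ x, ∫ y, y * F (x + y) ∂r ∂((n.factorial : ℝ≥0∞)⁻¹ • cpow r n) := by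
    funext n
    rw [integral_smul_measure, integral_smul_measure, mck_cpow r hint n F hF C hb, smul_eq_mul,
      smul_eq_mul, ENNReal.toReal_inv, ENNReal.toReal_inv, ENNReal.toReal_natCast,
      ENNReal.toReal_natCast, Nat.factorial_succ]
    have hn : ((n + 1 : ℕ) : ℝ) ≠ 0 := by positivity
    have hn2 : ((n.factorial : ℕ) : ℝ) ≠ 0 := by positivity
    push_cast at hn ⊢
    field_simp
  rw [h3] at s1'
  exact s1'.unique s2

theorem mecke_ccp (r : Measure ℝ) [IsFiniteMeasure r] (hint : Integrable (fun y => y) r)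
    (F : ℝ → ℝ) (hF : Measurable F) (C : ℝ) (hb : ∀ x, |F x| ≤ C) :
    ∫ z, z * F z ∂(ccp r) = ∫ y, y * (∫ z, (F (z + y) - F z) ∂(ccp r)) ∂r := by
  set m : ℝ := ∫ y, y ∂r with hm
  have hF1 : Measurable (fun z => F (z - m)) := hF.comp (measurable_id.sub_const m)
  obtain ⟨hI, h1⟩ := mecke_real r hint (fun z => F (z - m)) hF1 C (fun x => hb _)
  have hmm : Measurable (fun z : ℝ => z - m) := measurable_id.sub_const m
  have hFi : ∀ a : ℝ, Integrable (fun z => F (z + a)) (CP r) := by
    intro a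
    have h3 : Integrable (fun _ : ℝ => (1 : ℝ)) (CP r) := integrable_const 1
    have h4 := h3.mul_bdd (g := fun w : ℝ => F (w + a)) (c := C)
      (hF.comp (measurable_id.add_const a)).aestronglyMeasurable
      (Filter.Eventually.of_forall fun p => by simpa using hb (p + a))
    simpa using h4
  have e1 : ∫ z, z * F z ∂(ccp r) = ∫ z, (z - m) * F (z - m) ∂(CP r) := by
    unfold ccp
    rw [integral_map hmm.aemeasurable]
    exact (measurable_id.mul hF).aestronglyMeasurable
  have e2 : ∀ y : ℝ, ∫ z, (F (z + y) - F z) ∂(ccp r) =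
      ∫ z, F (z + y - m) ∂(CP r) - ∫ z, F (z - m) ∂(CP r) := by
    intro y
    unfold ccp
    rw [integral_map hmm.aemeasurable]
    · have i1 := hFi (y - m)
      have i2 := hFi (-m)
      have i1' : Integrable (fun z => F (z + y - m)) (CP r) := by
        refine i1.congr (Filter.Eventually.of_forall fun z => ?_)
        show F (z + (y - m)) = F (z + y - m)
        congr 1; ring
      have i2' : Integrable (fun z => F (z - m)) (CP r) := by
        refine i2.congr (Filter.Eventually.of_forall fun z => ?_)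
        show F (z + -m) = F (z - m)
        congr 1
      rw [← integral_sub i1' i2']
      refine integral_congr_ae (Filter.Eventually.of_forall fun z => ?_)
      show F (z - m + y) - F (z - m) = F (z + y - m) - F (z - m)
      congr 2; ring
    · exact ((hF.comp (measurable_id.add_const y)).sub hF).aestronglyMeasurable
  have i3 : Integrable (fun z => F (z - m)) (CP r) := by
    refine (hFi (-m)).congr (Filter.Eventually.of_forall fun z => ?_)
    show F (z + -m) = F (z - m)
    congr 1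
  have i4 : Integrable (fun z => z * F (z - m)) (CP r) :=
    hI.mul_bdd hF1.aestronglyMeasurable (Filter.Eventually.of_forall fun p => by
      simpa using hb (p - m))
  have e3 : ∫ z, (z - m) * F (z - m) ∂(CP r) =
      ∫ z, z * F (z - m) ∂(CP r) - m * ∫ z, F (z - m) ∂(CP r) := by
    rw [← integral_const_mul, ← integral_sub i4 (i3.const_mul m)]
    refine integral_congr_ae (Filter.Eventually.of_forall fun z => ?_)
    show (z - m) * F (z - m) = z * F (z - m) - m * F (z - m)
    ring
  rw [e1, e3, h1]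
  simp only [e2]
  have i5 : Integrable (fun y => y * ∫ z, F (z + y - m) ∂(CP r)) r := by
    have hR := mck_prodR (CP r) r hint (fun z => F (z - m)) hF1 C (fun x => hb _)
    have := hR.integral_prod_right
    refine this.congr (Filter.Eventually.of_forall fun y => ?_)
    exact integral_const_mul y _
  have i6 : Integrable (fun y => y * ∫ z, F (z - m) ∂(CP r)) r := hint.mul_const _
  rw [hm, ← integral_mul_const, ← integral_sub i5 i6]
  refine integral_congr_ae (Filter.Eventually.of_forall fun y => ?_)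
  show y * _ - y * _ = y * (_ - _)
  ring

end Pool.Agent.Lib.MP_a80c92_pr
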