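import Pool.Agent.Lib.MP_a80c92_pr.Defs2

/-! # JOB F/Ptw: pointwise inequality for the Mecke formula

PROOF. `w = wu u`: `0 ≤ w ≤ 1`, `w z = 0` for `z ≤ u`, nondecreasing, Lipschitz with constant `1/u`
(`u ≥ 1`), `w z ≤ max (z-u) 0 / u`, `z * w z = max (z-u) 0`. And
`gx v x (Y+y) = gx v x Y * e^{((x-Y)y - y²/2)/v}`.
Case `y ≥ 0`. If `Y + y ≤ u`, both `w` vanish, left side `0`. Else `x - Y < x - u + y = lam v + 1 + y`,
so the exponent is at most `lam y + (1+b) y/v ≤ (lam+1) y`, and
`w(Y+y) e^{(lam+1)y} - w(Y) ≤ y/u + w(Y+y) (e^{(lam+1)y} - 1)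
 ≤ y/u + ((max (Y-u) 0 + b)/u) (lam+1) y e^{(lam+1)b}` (`e^z - 1 ≤ z e^z`).
Case `y = -z < 0`: the left side is `z gx(Y) (w(Y) - w(Y-z) e^{(-(x-Y)z - z²/2)/v})`. If `Y ≤ u` it is
`≤ 0`. If `Y > u`: `x - Y < lam v + 1`, the exponent is at least `-(lam+1) z - z/2 ≥ -(lam+2) z`
(`1 ≤ v`, `z ≤ b ≤ v`), `e^{-(lam+2)z} ≥ 1 - (lam+2) z`, so
`w(Y) - w(Y-z) e^{..} ≤ z/u + (lam+2) z w(Y) ≤ z/u + (lam+2) z max (Y-u) 0/u`. In both cases the
result follows with `c2c b lam = (lam+2) e^{(lam+1) b}`. -/

open MeasureTheory Set Filter Topology ProbabilityTheory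
open scoped ENNReal NNReal

namespace Pool.Agent.Lib.MP_a80c92_pr

theorem wu_mem (u y : ℝ) (hu : 1 ≤ u) : 0 ≤ wu u y ∧ wu u y ≤ 1 := by
  have h0 : 0 < u := by linarith
  have h1 : u ≤ max y u := le_max_right _ _
  have h2 : 0 < max y u := lt_of_lt_of_le h0 h1
  unfold wu
  constructor
  · have h3 : u / max y u ≤ 1 := by
      rw [div_le_one h2]
      exact h1
    linarith
  · have h3 : 0 ≤ u / max y u := div_nonneg h0.le h2.le
    linarith

theorem wu_mul (u y : ℝ) (hu : 1 ≤ u) : y * wu u y = max (y - u) 0 := by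
  have h0 : 0 < u := by linarith
  unfold wu
  rcases le_total y u with h | h
  · rw [max_eq_right h, div_self h0.ne', max_eq_right (by linarith : y - u ≤ 0)]
    ring
  · have hy : y ≠ 0 := by
      have : 0 < y := by linarith
      exact this.ne'
    rw [max_eq_left h, max_eq_left (by linarith : 0 ≤ y - u)]
    field_simp

theorem wu_meas (u : ℝ) : Measurable (wu u) := by
  unfold wu
  exact measurable_const.sub (measurable_const.div (measurable_id.max measurable_const))

private theorem Ptw_zero {u z : ℝ} (hu : 1 ≤ u) (h : z ≤ u) : wu u z = 0 := by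
  have h0 : 0 < u := by linarith
  unfold wu
  rw [max_eq_right h, div_self h0.ne', sub_self]

private theorem Ptw_lip {u z t : ℝ} (hu : 1 ≤ u) (ht : 0 ≤ t) : wu u (z + t) - wu u z ≤ t / u := by
  have h0 : 0 < u := by linarith
  have ha : u ≤ max z u := le_max_right _ _
  have ha' : u ≤ max (z + t) u := le_max_right _ _
  have hp : 0 < max z u := lt_of_lt_of_le h0 ha
  have hp' : 0 < max (z + t) u := lt_of_lt_of_le h0 ha'
  have hd : max (z + t) u ≤ max z u + t := by
    apply max_le
    · have := le_max_left z u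
      linarith
    · linarith
  have hm : max z u ≤ max (z + t) u := max_le_max (by linarith) le_rfl
  unfold wu
  have e1 : 1 - u / max (z + t) u - (1 - u / max z u) =
      (u * (max (z + t) u - max z u)) / (max z u * max (z + t) u) := by
    field_simp
    ring
  rw [e1, div_le_div_iff₀ (mul_pos hp hp') h0]
  have h1 : u * u ≤ max z u * max (z + t) u := mul_le_mul ha ha' h0.le hp.le
  have h2 : max (z + t) u - max z u ≤ t := by linarith
  have h3 : 0 ≤ max (z + t) u - max z u := by linarith
  calc u * (max (z + t) u - max z u) * u = (max (z + t) u - max z u) * (u * u) := by ring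
    _ ≤ t * (max z u * max (z + t) u) := mul_le_mul h2 h1 (mul_nonneg h0.le h0.le) ht

private theorem Ptw_mono {u z t : ℝ} (hu : 1 ≤ u) (ht : 0 ≤ t) : wu u z ≤ wu u (z + t) := by
  have h0 : 0 < u := by linarith
  have ha : u ≤ max z u := le_max_right _ _
  have hp : 0 < max z u := lt_of_lt_of_le h0 ha
  have hm : max z u ≤ max (z + t) u := max_le_max (by linarith) le_rfl
  unfold wu
  have : u / max (z + t) u ≤ u / max z u := div_le_div_of_nonneg_left h0.le hp hm
  linarith

private theorem Ptw_le {u z : ℝ} (hu : 1 ≤ u) : wu u z ≤ max (z - u) 0 / u := by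
  have h0 : 0 < u := by linarith
  rcases le_total z u with h | h
  · rw [Ptw_zero hu h]
    exact div_nonneg (le_max_right _ _) h0.le
  · have hz : 0 < z := by linarith
    unfold wu
    rw [max_eq_left h, max_eq_left (by linarith : 0 ≤ z - u)]
    have e1 : 1 - u / z = (z - u) / z := by
      field_simp
    rw [e1]
    exact div_le_div_of_nonneg_left (by linarith) h0 h

private theorem Ptw_gx (v x Y y : ℝ) :
    gx v x (Y + y) = gx v x Y * Real.exp (((x - Y) * y - y ^ 2 / 2) / v) := by
  unfold gx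
  rw [← Real.exp_add]
  congr 1
  ring

private theorem Ptw_core (v u lam b x Y y : ℝ) (hv : 1 + b ≤ v) (hb : 0 ≤ b) (hlam : 0 ≤ lam) (hu : 1 ≤ u)
    (hx : x = u + lam * v + 1) (hy : |y| ≤ b) :
    y * (wu u (Y + y) * Real.exp (((x - Y) * y - y ^ 2 / 2) / v) - wu u Y) ≤
      y ^ 2 / u * (1 + c2c b lam * (max (Y - u) 0 + b)) := by
  have h0 : 0 < u := by linarith
  have hv0 : 0 < v := by linarith
  have hv1 : 1 ≤ v := by linarith
  have hM : 0 ≤ max (Y - u) 0 := le_max_right _ _
  have hE1 : 1 ≤ Real.exp ((lam + 1) * b) := Real.one_le_exp (mul_nonneg (by linarith) hb)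
  have hc0 : 0 ≤ c2c b lam := by
    unfold c2c
    exact mul_nonneg (by linarith) (by linarith)
  have hc1 : lam + 2 ≤ c2c b lam := by
    unfold c2c
    nlinarith
  have hc2 : (lam + 1) * Real.exp ((lam + 1) * b) ≤ c2c b lam := by
    unfold c2c
    nlinarith
  have hRn : 0 ≤ y ^ 2 / u * (1 + c2c b lam * (max (Y - u) 0 + b)) := by
    have h1 : 0 ≤ c2c b lam * (max (Y - u) 0 + b) := mul_nonneg hc0 (by linarith)
    have h2 : 0 ≤ y ^ 2 / u := div_nonneg (sq_nonneg y) h0.le
    exact mul_nonneg h2 (by linarith)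
  rcases le_or_gt 0 y with hy0 | hy0
  · rw [abs_of_nonneg hy0] at hy
    rcases le_or_gt (Y + y) u with hc | hc
    · rw [Ptw_zero hu hc, Ptw_zero hu (by linarith : Y ≤ u)]
      have : y * (0 * Real.exp (((x - Y) * y - y ^ 2 / 2) / v) - 0) = 0 := by ring
      rw [this]
      exact hRn
    · have hexp : ((x - Y) * y - y ^ 2 / 2) / v ≤ (lam + 1) * y := by
        rw [div_le_iff₀ hv0]
        have h1 : x - Y ≤ lam * v + 1 + y := by
          rw [hx]
          linarith
        have h2 : (x - Y) * y ≤ (lam * v + 1 + y) * y := mul_le_mul_of_nonneg_right h1 hy0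
        have h3 : (1 + y) * y ≤ v * y := mul_le_mul_of_nonneg_right (by linarith) hy0
        have h4 : 0 ≤ y ^ 2 / 2 := by positivity
        nlinarith
      have hE : Real.exp (((x - Y) * y - y ^ 2 / 2) / v) ≤ Real.exp ((lam + 1) * y) := Real.exp_le_exp.mpr hexp
      have hw0 : 0 ≤ wu u (Y + y) := (wu_mem u (Y + y) hu).1
      have hlip := Ptw_lip (z := Y) hu hy0
      have hwle : wu u (Y + y) ≤ (max (Y - u) 0 + b) / u := by
        refine (Ptw_le hu).trans ?_
        apply div_le_div_of_nonneg_right _ h0.le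
        apply max_le
        · have := le_max_left (Y - u) 0
          linarith
        · linarith
      have hz : 0 ≤ (lam + 1) * y := mul_nonneg (by linarith) hy0
      have hexp2 : Real.exp ((lam + 1) * y) - 1 ≤ (lam + 1) * y * Real.exp ((lam + 1) * b) := by
        have h1 : 1 - (lam + 1) * y ≤ Real.exp (-((lam + 1) * y)) := by
          have := Real.add_one_le_exp (-((lam + 1) * y))
          linarith
        have h2 : (1 - (lam + 1) * y) * Real.exp ((lam + 1) * y) ≤ 1 := by
          have h3 := mul_le_mul_of_nonneg_right h1 (Real.exp_pos ((lam + 1) * y)).le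
          rw [← Real.exp_add, neg_add_cancel, Real.exp_zero] at h3
          exact h3
        have h4 : Real.exp ((lam + 1) * y) ≤ Real.exp ((lam + 1) * b) :=
          Real.exp_le_exp.mpr (mul_le_mul_of_nonneg_left hy (by linarith))
        have h5 : (lam + 1) * y * Real.exp ((lam + 1) * y) ≤ (lam + 1) * y * Real.exp ((lam + 1) * b) :=
          mul_le_mul_of_nonneg_left h4 hz
        linarith
      have hexp0 : 0 ≤ Real.exp ((lam + 1) * y) - 1 := by
        have := Real.one_le_exp hz
        linarith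
      have hA : wu u (Y + y) * Real.exp (((x - Y) * y - y ^ 2 / 2) / v) - wu u Y ≤
          y / u + (max (Y - u) 0 + b) / u * ((lam + 1) * y * Real.exp ((lam + 1) * b)) := by
        have h1 : wu u (Y + y) * Real.exp (((x - Y) * y - y ^ 2 / 2) / v) ≤
            wu u (Y + y) * Real.exp ((lam + 1) * y) := mul_le_mul_of_nonneg_left hE hw0
        have h2 : wu u (Y + y) * (Real.exp ((lam + 1) * y) - 1) ≤
            (max (Y - u) 0 + b) / u * ((lam + 1) * y * Real.exp ((lam + 1) * b)) :=
          mul_le_mul hwle hexp2 hexp0 (div_nonneg (by linarith) h0.le)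
        linarith
      have hB : y / u + (max (Y - u) 0 + b) / u * ((lam + 1) * y * Real.exp ((lam + 1) * b)) ≤
          y / u * (1 + c2c b lam * (max (Y - u) 0 + b)) := by
        have e1 : y / u + (max (Y - u) 0 + b) / u * ((lam + 1) * y * Real.exp ((lam + 1) * b)) =
            y / u * (1 + ((lam + 1) * Real.exp ((lam + 1) * b)) * (max (Y - u) 0 + b)) := by
          ring
        rw [e1]
        have h1 : ((lam + 1) * Real.exp ((lam + 1) * b)) * (max (Y - u) 0 + b) ≤
            c2c b lam * (max (Y - u) 0 + b) := mul_le_mul_of_nonneg_right hc2 (by linarith)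
        have h2 : 0 ≤ y / u := div_nonneg hy0 h0.le
        exact mul_le_mul_of_nonneg_left (by linarith) h2
      have hC := mul_le_mul_of_nonneg_left (hA.trans hB) hy0
      have e2 : y * (y / u * (1 + c2c b lam * (max (Y - u) 0 + b))) =
          y ^ 2 / u * (1 + c2c b lam * (max (Y - u) 0 + b)) := by ring
      rw [e2] at hC
      exact hC
  · rw [abs_of_neg hy0] at hy
    obtain ⟨z, hz⟩ : ∃ z, z = -y := ⟨-y, rfl⟩
    have hyz : y = -z := by linarith
    have hz0 : 0 < z := by linarith
    have hzb : z ≤ b := by linarith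
    subst hyz
    have hw0 : 0 ≤ wu u (Y + -z) := (wu_mem u (Y + -z) hu).1
    have hEp := Real.exp_pos (((x - Y) * -z - (-z) ^ 2 / 2) / v)
    rcases le_or_gt Y u with hc | hc
    · rw [Ptw_zero hu hc]
      refine le_trans ?_ hRn
      have h1 : 0 ≤ wu u (Y + -z) * Real.exp (((x - Y) * -z - (-z) ^ 2 / 2) / v) := mul_nonneg hw0 hEp.le
      nlinarith
    · have hexp : -((lam + 2) * z) ≤ ((x - Y) * -z - (-z) ^ 2 / 2) / v := by
        rw [le_div_iff₀ hv0]
        have h1 : x - Y ≤ lam * v + 1 := by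
          rw [hx]
          linarith
        have h2 : (x - Y) * z ≤ (lam * v + 1) * z := mul_le_mul_of_nonneg_right h1 hz0.le
        have h3 : z * 1 ≤ z * v := mul_le_mul_of_nonneg_left hv1 hz0.le
        have h4 : z * z ≤ z * v := mul_le_mul_of_nonneg_left (by linarith) hz0.le
        nlinarith
      have hE : 1 - (lam + 2) * z ≤ Real.exp (((x - Y) * -z - (-z) ^ 2 / 2) / v) := by
        have h1 := Real.add_one_le_exp (-((lam + 2) * z))
        have h2 := Real.exp_le_exp.mpr hexp
        linarith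
      have hlip := Ptw_lip (z := Y + -z) hu hz0.le
      have hmono := Ptw_mono (z := Y + -z) hu hz0.le
      have e0 : Y + -z + z = Y := by ring
      rw [e0] at hlip hmono
      have hwle : wu u Y ≤ max (Y - u) 0 / u := Ptw_le hu
      have hA : wu u Y - wu u (Y + -z) * Real.exp (((x - Y) * -z - (-z) ^ 2 / 2) / v) ≤
          z / u + (lam + 2) * z * (max (Y - u) 0 / u) := by
        have h1 := mul_le_mul_of_nonneg_left hE hw0
        have h2 : (lam + 2) * z * wu u (Y + -z) ≤ (lam + 2) * z * (max (Y - u) 0 / u) :=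
          mul_le_mul_of_nonneg_left (hmono.trans hwle) (mul_nonneg (by linarith) hz0.le)
        nlinarith
      have hB : z / u + (lam + 2) * z * (max (Y - u) 0 / u) ≤
          z / u * (1 + c2c b lam * (max (Y - u) 0 + b)) := by
        have e1 : z / u + (lam + 2) * z * (max (Y - u) 0 / u) =
            z / u * (1 + (lam + 2) * max (Y - u) 0) := by
          ring
        rw [e1]
        have h1 : (lam + 2) * max (Y - u) 0 ≤ c2c b lam * (max (Y - u) 0 + b) :=
          mul_le_mul hc1 (by linarith) hM hc0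
        exact mul_le_mul_of_nonneg_left (by linarith) (div_nonneg hz0.le h0.le)
      have hC := mul_le_mul_of_nonneg_left (hA.trans hB) hz0.le
      have e2 : z * (z / u * (1 + c2c b lam * (max (Y - u) 0 + b))) =
          (-z) ^ 2 / u * (1 + c2c b lam * (max (Y - u) 0 + b)) := by ring
      rw [e2] at hC
      refine le_trans (le_of_eq ?_) hC
      ring

theorem ptw (v u lam b x Y y : ℝ) (hv : 1 + b ≤ v) (hb : 0 ≤ b) (hlam : 0 ≤ lam) (hu : 1 ≤ u)
    (hx : x = u + lam * v + 1) (hy : |y| ≤ b) :
    y * (wu u (Y + y) * gx v x (Y + y) - wu u Y * gx v x Y) ≤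
      y ^ 2 / u * (gx v x Y * (1 + c2c b lam * (max (Y - u) 0 + b))) := by
  have hG : 0 ≤ gx v x Y := (Real.exp_pos _).le
  have h := mul_le_mul_of_nonneg_left (Ptw_core v u lam b x Y y hv hb hlam hu hx hy) hG
  rw [Ptw_gx]
  calc y * (wu u (Y + y) * (gx v x Y * Real.exp (((x - Y) * y - y ^ 2 / 2) / v)) - wu u Y * gx v x Y)
      = gx v x Y * (y * (wu u (Y + y) * Real.exp (((x - Y) * y - y ^ 2 / 2) / v) - wu u Y)) := by ring
    _ ≤ gx v x Y * (y ^ 2 / u * (1 + c2c b lam * (max (Y - u) 0 + b))) := h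
    _ = y ^ 2 / u * (gx v x Y * (1 + c2c b lam * (max (Y - u) 0 + b))) := by ring

end Pool.Agent.Lib.MP_a80c92_pr
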