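import Pool.Agent.Lib.MP_a80c92_pr.F.G012
import Pool.Agent.Lib.MP_a80c92_pr.F.Mom
import Pool.Agent.Lib.MP_a80c92_pr.F.Mck
import Pool.Agent.Lib.MP_a80c92_pr.F.Ptw

/-! # JOB F/Bnd2: the first moment to the right

PROOF. Put `u = x - lam v - 1 ≥ u0c ≥ 1`, `P = ccp r`, `F z = wu u z * gx v x z` (bounded by
`e^{x²/(2v)}`, measurable), `β = ∫ max (z-u) 0 * gx v x z dP` (integrable: `int_g0`, `int_g1`). By
`wu_mul` and `mecke_ccp`: `β = ∫ z F z dP = ∫ y ∫ (F(z+y) - F z) dP dr(y)
≤ ∫ (y²/u) ∫ gx (1 + c2 (max (z-u) 0 + b)) dP dr(y) = ((∫ y² dr)/u) ((1 + c2 b) g0 + c2 β)`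
(`ptw`, valid for `r`-a.e. `y`; integrate over `z` first). Since `∫ y² dr ≤ V` and
`u ≥ 2V(1 + c2 b + c2) + 1`: `β ≤ g0/2 + β/2`, so `β ≤ g0`. Finally
`g1 = ∫ z gx ≤ ∫ (u + max (z-u) 0) gx = u g0 + β ≤ (u+1) g0 = (x - lam v) g0`.
(`Integrable (fun y => y) r` since `|y| ≤ b` a.e. and `r` is finite.) -/

open MeasureTheory Set Filter Topology ProbabilityTheory
open scoped ENNReal NNReal

namespace Pool.Agent.Lib.MP_a80c92_pr

theorem bnd_b (r : Measure ℝ) (b V : ℝ) (hr : BJ r b V) (hb : 0 ≤ b) (hV : 0 ≤ V) (lam : ℝ)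
    (hlam : 0 ≤ lam) (v : ℝ) (hv : v0c b V lam ≤ v) (x : ℝ)
    (hx : lam * v + 1 + u0c b V lam ≤ x) :
    g1 v (ccp r) x ≤ (x - lam * v) * g0 v (ccp r) x := by
  have hfin : IsFiniteMeasure r := hr.fin
  have hprob : IsProbabilityMeasure (ccp r) := ccp_prob r
  generalize hP : ccp r = P at hprob ⊢
  have hc2 : 0 ≤ c2c b lam := by
    unfold c2c
    positivity
  obtain ⟨c, hc⟩ : ∃ c, c = c2c b lam := ⟨_, rfl⟩
  rw [← hc] at hc2
  have hu0 : u0c b V lam = 2 * V * (1 + c * b + c) + 1 := by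
    unfold u0c
    rw [hc]
  have hv1 : 1 + b ≤ v := ((le_max_left _ _).trans (le_max_left _ _)).trans hv
  have hv0 : 0 < v := by linarith
  obtain ⟨u, hu⟩ : ∃ u, u = x - lam * v - 1 := ⟨_, rfl⟩
  have hxu : x = u + lam * v + 1 := by
    rw [hu]
    ring
  have huge : 2 * V * (1 + c * b + c) + 1 ≤ u := by
    rw [← hu0, hu]
    linarith
  have hVc : 0 ≤ V * (1 + c * b + c) := by positivity
  have hu1 : 1 ≤ u := by linarith
  have hup : 0 < u := by linarith
  obtain ⟨F, hFd⟩ : ∃ F : ℝ → ℝ, ∀ z, F z = wu u z * gx v x z := ⟨_, fun _ => rfl⟩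
  have hgm : Measurable (gx v x) := by
    unfold gx
    fun_prop
  have hF : Measurable F := by
    have h1 : F = fun z => wu u z * gx v x z := funext hFd
    rw [h1]
    exact (wu_meas u).mul hgm
  obtain ⟨C, hC⟩ : ∃ C, C = Real.exp (x ^ 2 / (2 * v)) := ⟨_, rfl⟩
  have hFb : ∀ z, |F z| ≤ C := by
    intro z
    have h1 := wu_mem u z hu1
    have h2 := gx_pos v x z
    have h3 := gx_le v hv0 x z
    rw [hFd, abs_of_nonneg (mul_nonneg h1.1 h2.le), hC]
    calc wu u z * gx v x z ≤ 1 * gx v x z := mul_le_mul_of_nonneg_right h1.2 h2.le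
      _ ≤ _ := by rw [one_mul]; exact h3
  have hint : Integrable (fun y => y) r :=
    Integrable.of_bound measurable_id.aestronglyMeasurable b hr.supp
  have hint2 : Integrable (fun y => y ^ 2) r := by
    refine Integrable.of_bound (measurable_id.pow_const 2).aestronglyMeasurable (b ^ 2) (hr.supp.mono fun y hy => ?_)
    rw [Real.norm_eq_abs, abs_pow]
    exact pow_le_pow_left₀ (abs_nonneg y) hy 2
  have hI0 : Integrable (fun z => gx v x z) P := int_g0 v P hv0 x
  have hI1 : Integrable (fun z => z * gx v x z) P := int_g1 v P hv0 x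
  have hIm : Integrable (fun z => max (z - u) 0 * gx v x z) P := by
    have h1 := (hI1.sub (hI0.const_mul u)).pos_part
    refine h1.congr (Filter.Eventually.of_forall fun z => ?_)
    change max (z * gx v x z - u * gx v x z) 0 = max (z - u) 0 * gx v x z
    rw [max_mul_of_nonneg _ _ (gx_pos v x z).le, zero_mul, sub_mul]
  have hg0 : 0 < g0 v P x := g0_pos v P hv0 x
  obtain ⟨β, hβ⟩ : ∃ β, β = ∫ z, max (z - u) 0 * gx v x z ∂P := ⟨_, rfl⟩
  have hβ0 : 0 ≤ β := by
    rw [hβ]
    exact integral_nonneg fun z => mul_nonneg (le_max_right _ _) (gx_pos v x z).le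
  have hβF : β = ∫ z, z * F z ∂P := by
    rw [hβ]
    refine integral_congr_ae (Filter.Eventually.of_forall fun z => ?_)
    change max (z - u) 0 * gx v x z = z * F z
    rw [hFd, ← mul_assoc, wu_mul u z hu1]
  have hmecke := mecke_ccp r hint F hF C hFb
  rw [hP, ← hβF] at hmecke
  obtain ⟨D, hD⟩ : ∃ D, D = ∫ z, gx v x z * (1 + c * (max (z - u) 0 + b)) ∂P := ⟨_, rfl⟩
  have hID : Integrable (fun z => gx v x z * (1 + c * (max (z - u) 0 + b))) P := by
    refine ((hI0.const_mul (1 + c * b)).add (hIm.const_mul c)).congr (Filter.Eventually.of_forall fun z => ?_)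
    change (1 + c * b) * gx v x z + c * (max (z - u) 0 * gx v x z) = gx v x z * (1 + c * (max (z - u) 0 + b))
    ring
  have hDv : D = (1 + c * b) * g0 v P x + c * β := by
    rw [hD, hβ, g0, ← integral_const_mul, ← integral_const_mul,
      ← integral_add (hI0.const_mul (1 + c * b)) (hIm.const_mul c)]
    refine integral_congr_ae (Filter.Eventually.of_forall fun z => ?_)
    change gx v x z * (1 + c * (max (z - u) 0 + b)) = (1 + c * b) * gx v x z + c * (max (z - u) 0 * gx v x z)
    ring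
  have hD0 : 0 ≤ D := by
    rw [hDv]
    have h1 : 0 ≤ c * β := mul_nonneg hc2 hβ0
    have h2 : 0 ≤ c * b := mul_nonneg hc2 hb
    have h3 : 0 ≤ (1 + c * b) * g0 v P x := mul_nonneg (by linarith) hg0.le
    linarith
  have hinner : ∀ y : ℝ, |y| ≤ b → y * (∫ z, (F (z + y) - F z) ∂P) ≤ y ^ 2 * (D / u) := by
    intro y hy
    have hIF : Integrable (fun z => F (z + y) - F z) P := by
      refine Integrable.of_bound (((hF.comp (measurable_id.add_const y)).sub hF).aestronglyMeasurable) (C + C)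
        (Filter.Eventually.of_forall fun z => ?_)
      rw [Real.norm_eq_abs]
      exact (abs_sub _ _).trans (add_le_add (hFb _) (hFb _))
    have h2 : y ^ 2 * (D / u) = ∫ z, y ^ 2 / u * (gx v x z * (1 + c * (max (z - u) 0 + b))) ∂P := by
      rw [integral_const_mul, ← hD]
      ring
    rw [h2, ← integral_const_mul]
    refine integral_mono (hIF.const_mul y) (hID.const_mul (y ^ 2 / u)) fun z => ?_
    change y * (F (z + y) - F z) ≤ y ^ 2 / u * (gx v x z * (1 + c * (max (z - u) 0 + b)))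
    rw [hFd, hFd, hc]
    exact ptw v u lam b x z y hv1 hb hlam hu1 hxu hy
  have hβD : β ≤ V * (D / u) := by
    rw [hmecke]
    have hDu : 0 ≤ D / u := div_nonneg hD0 hup.le
    by_cases hI : Integrable (fun y => y * (∫ z, (F (z + y) - F z) ∂P)) r
    · calc ∫ y, y * (∫ z, (F (z + y) - F z) ∂P) ∂r ≤ ∫ y, y ^ 2 * (D / u) ∂r :=
            integral_mono_ae hI (hint2.mul_const _) (hr.supp.mono fun y hy => hinner y hy)
        _ = (∫ y, y ^ 2 ∂r) * (D / u) := integral_mul_const _ _
        _ ≤ V * (D / u) := mul_le_mul_of_nonneg_right hr.var hDu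
    · rw [integral_undef hI]
      exact mul_nonneg hV hDu
  have hβg : β ≤ g0 v P x := by
    have h1 : β * u ≤ V * D := by
      have h2 := mul_le_mul_of_nonneg_right hβD hup.le
      have h3 : V * (D / u) * u = V * D := by
        field_simp
      rw [h3] at h2
      exact h2
    rw [hDv] at h1
    have h4 : V * (1 + c * b) ≤ u / 2 := by
      have h5 : 0 ≤ V * c := mul_nonneg hV hc2
      nlinarith
    have h5 : V * c ≤ u / 2 := by
      have h6 : 0 ≤ V * (1 + c * b) := mul_nonneg hV (by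
        have := mul_nonneg hc2 hb
        linarith)
      nlinarith
    have h6 := mul_le_mul_of_nonneg_right h4 hg0.le
    have h7 := mul_le_mul_of_nonneg_right h5 hβ0
    have h8 : u / 2 * β ≤ u / 2 * g0 v P x := by nlinarith
    exact le_of_mul_le_mul_left h8 (by linarith)
  have hg1 : g1 v P x ≤ u * g0 v P x + β := by
    rw [g1, g0, hβ, ← integral_const_mul, ← integral_add (hI0.const_mul u) hIm]
    refine integral_mono hI1 ((hI0.const_mul u).add hIm) fun z => ?_
    change z * gx v x z ≤ u * gx v x z + max (z - u) 0 * gx v x z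
    rw [← add_mul]
    refine mul_le_mul_of_nonneg_right ?_ (gx_pos v x z).le
    have := le_max_left (z - u) 0
    linarith
  have hfin2 : (x - lam * v) * g0 v P x = u * g0 v P x + g0 v P x := by
    rw [hxu]
    ring
  rw [hfin2]
  linarith

end Pool.Agent.Lib.MP_a80c92_pr
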