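import Pool.Agent.Lib.MP_a80c92_pr.Defs2

/-! # JOB F/ClA: steep functions: decay, the function `HH`

PROOF. `steep_left`: on `(-∞, -s]`: `(h e^{-lam x})' = (l - lam) h e^{-lam x} ≥ 0`, so
`h x ≤ h(-s) e^{lam (x + s)}`. `steep_right` the same. Hence `h` is integrable and bounded, and
`p x = e^{lamR x} h x` is integrable on `(-∞, x]`, tends to `0` at `-∞`.
`HH_deriv`: fundamental theorem of calculus (`intervalIntegral.integral_Iic_sub_Iic`,
`integral_hasDerivAt_right`). `HH_pos`: positive continuous integrand.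
`HH_left`: if `l ≥ lamL` on `(-∞, x1]` then for `x ≤ x1`: `p' = (lamR + l) p ≥ (lamR + lamL) p`,
so `(lamR + lamL) HH x ≤ ∫_{-∞}^x p' = p x` (`integral_Iic_of_hasDerivAt_of_tendsto`; or
differentiate `p - (lamR + lamL) HH`, which is nondecreasing on `(-∞, x1]` and tends to `0` at
`-∞`). `cvR_bdd`: `cvR lamR h x = lamR ∫_{y ≤ x} e^{-lamR (x-y)} h y dy ≤ lamR ∫ h`. -/

open MeasureTheory Set Filter Topology ProbabilityTheory
open scoped ENNReal NNReal

namespace Pool.Agent.Lib.MP_a80c92_pr

private theorem ClA_cont {h l : ℝ → ℝ} {s lam : ℝ} (hS : Steep h l s lam) : Continuous h :=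
  continuous_iff_continuousAt.2 fun x => (hS.der x).continuousAt

private theorem ClA_expder (a x : ℝ) : HasDerivAt (fun y => Real.exp (a * y)) (a * Real.exp (a * x)) x := by
  have h1 := ((hasDerivAt_id x).const_mul a).exp
  refine h1.congr_deriv ?_
  change Real.exp (a * x) * (a * 1) = _
  ring

private theorem ClA_pder {h l : ℝ → ℝ} {s lam : ℝ} (hS : Steep h l s lam) (a x : ℝ) :
    HasDerivAt (fun y => Real.exp (a * y) * h y) ((a + l x) * (Real.exp (a * x) * h x)) x := by
  refine ((ClA_expder a x).mul (hS.der x)).congr_deriv ?_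
  ring

variable (h l : ℝ → ℝ) (s lam : ℝ) (hS : Steep h l s lam) (hs : 0 < s) (hlam : 0 < lam)
include hS hs hlam

theorem steep_left (x : ℝ) (hx : x ≤ -s) : h x ≤ h (-s) * Real.exp (lam * (x + s)) := by
  have hm : MonotoneOn (fun y => Real.exp (-lam * y) * h y) (Iic (-s)) := by
    refine monotoneOn_of_deriv_nonneg (convex_Iic _) ?_ ?_ ?_
    · exact fun y _ => (ClA_pder hS (-lam) y).continuousAt.continuousWithinAt
    · exact fun y _ => (ClA_pder hS (-lam) y).differentiableAt.differentiableWithinAt
    · intro y hy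
      rw [interior_Iic] at hy
      rw [(ClA_pder hS (-lam) y).deriv]
      have h1 := hS.left y (le_of_lt hy)
      have h2 := mul_pos (Real.exp_pos (-lam * y)) (hS.pos y)
      exact mul_nonneg (by linarith) h2.le
  have h1 : Real.exp (-lam * x) * h x ≤ Real.exp (-lam * -s) * h (-s) := hm hx (mem_Iic.2 le_rfl) hx
  have h2 := mul_le_mul_of_nonneg_left h1 (Real.exp_pos (lam * x)).le
  have h3 : Real.exp (lam * x) * (Real.exp (-lam * x) * h x) = h x := by
    rw [← mul_assoc, ← Real.exp_add]
    have : lam * x + -lam * x = 0 := by ring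
    rw [this, Real.exp_zero, one_mul]
  have h4 : Real.exp (lam * x) * (Real.exp (-lam * -s) * h (-s)) = h (-s) * Real.exp (lam * (x + s)) := by
    rw [← mul_assoc, ← Real.exp_add]
    have : lam * x + -lam * -s = lam * (x + s) := by ring
    rw [this, mul_comm]
  rw [h3, h4] at h2
  exact h2

theorem steep_right (x : ℝ) (hx : s ≤ x) : h x ≤ h s * Real.exp (-(lam * (x - s))) := by
  have hm : AntitoneOn (fun y => Real.exp (lam * y) * h y) (Ici s) := by
    refine antitoneOn_of_deriv_nonpos (convex_Ici _) ?_ ?_ ?_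
    · exact fun y _ => (ClA_pder hS lam y).continuousAt.continuousWithinAt
    · exact fun y _ => (ClA_pder hS lam y).differentiableAt.differentiableWithinAt
    · intro y hy
      rw [interior_Ici] at hy
      rw [(ClA_pder hS lam y).deriv]
      have h1 := hS.right y (le_of_lt hy)
      have h2 := mul_pos (Real.exp_pos (lam * y)) (hS.pos y)
      exact mul_nonpos_of_nonpos_of_nonneg (by linarith) h2.le
  have h1 : Real.exp (lam * x) * h x ≤ Real.exp (lam * s) * h s := hm (mem_Ici.2 le_rfl) hx hx
  have h2 := mul_le_mul_of_nonneg_left h1 (Real.exp_pos (-(lam * x))).le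
  have h3 : Real.exp (-(lam * x)) * (Real.exp (lam * x) * h x) = h x := by
    rw [← mul_assoc, ← Real.exp_add]
    have : -(lam * x) + lam * x = 0 := by ring
    rw [this, Real.exp_zero, one_mul]
  have h4 : Real.exp (-(lam * x)) * (Real.exp (lam * s) * h s) = h s * Real.exp (-(lam * (x - s))) := by
    rw [← mul_assoc, ← Real.exp_add]
    have : -(lam * x) + lam * s = -(lam * (x - s)) := by ring
    rw [this, mul_comm]
  rw [h3, h4] at h2
  exact h2

theorem steep_int : Integrable h := by
  have hc := ClA_cont hS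
  have h1 : IntegrableOn h (Iic (-s)) := by
    have h2 : IntegrableOn (fun x => h (-s) * Real.exp (lam * (x + s))) (Iic (-s)) := by
      have h3 := ((integrableOn_exp_mul_Iic hlam (-s)).const_mul (h (-s) * Real.exp (lam * s)))
      refine h3.congr (Filter.Eventually.of_forall fun x => ?_)
      change h (-s) * Real.exp (lam * s) * Real.exp (lam * x) = h (-s) * Real.exp (lam * (x + s))
      rw [mul_assoc, ← Real.exp_add]
      congr 2
      ring
    refine Integrable.mono' h2 hc.aestronglyMeasurable ?_
    refine (ae_restrict_iff' measurableSet_Iic).2 (Filter.Eventually.of_forall fun x hx => ?_)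
    rw [Real.norm_of_nonneg (hS.pos x).le]
    exact steep_left h l s lam hS hs hlam x hx
  have h2 : IntegrableOn h (Ioi s) := by
    have h2 : IntegrableOn (fun x => h s * Real.exp (-(lam * (x - s)))) (Ioi s) := by
      have h3 := ((integrableOn_exp_mul_Ioi (neg_lt_zero.2 hlam) s).const_mul (h s * Real.exp (lam * s)))
      refine h3.congr (Filter.Eventually.of_forall fun x => ?_)
      change h s * Real.exp (lam * s) * Real.exp (-lam * x) = h s * Real.exp (-(lam * (x - s)))
      rw [mul_assoc, ← Real.exp_add]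
      congr 2
      ring
    refine Integrable.mono' h2 hc.aestronglyMeasurable ?_
    refine (ae_restrict_iff' measurableSet_Ioi).2 (Filter.Eventually.of_forall fun x hx => ?_)
    rw [Real.norm_of_nonneg (hS.pos x).le]
    exact steep_right h l s lam hS hs hlam x (le_of_lt hx)
  have h3 : IntegrableOn h (Icc (-s) s) := hc.continuousOn.integrableOn_compact isCompact_Icc
  have h4 : (univ : Set ℝ) = (Iic (-s) ∪ Icc (-s) s) ∪ Ioi s := by
    rw [Iic_union_Icc_eq_Iic (by linarith), Iic_union_Ioi]
  rw [← integrableOn_univ, h4]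
  exact (h1.union h3).union h2

private theorem ClA_p_int {lamR : ℝ} (hR : 0 < lamR) (x : ℝ) :
    IntegrableOn (fun y => Real.exp (lamR * y) * h y) (Iic x) := by
  have hc := ClA_cont hS
  have h1 := ((steep_int h l s lam hS hs hlam).const_mul (Real.exp (lamR * x))).integrableOn (s := Iic x)
  refine Integrable.mono' h1 ((by fun_prop : Continuous fun y => Real.exp (lamR * y) * h y).aestronglyMeasurable) ?_
  refine (ae_restrict_iff' measurableSet_Iic).2 (Filter.Eventually.of_forall fun y hy => ?_)
  rw [Real.norm_of_nonneg (mul_nonneg (Real.exp_pos _).le (hS.pos y).le)]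
  exact mul_le_mul_of_nonneg_right (Real.exp_le_exp.2 (mul_le_mul_of_nonneg_left hy hR.le)) (hS.pos y).le

private theorem ClA_HH_le {lamR : ℝ} (hR : 0 < lamR) (x : ℝ) : HH lamR h x ≤ Real.exp (lamR * x) * ∫ y, h y := by
  have hi := steep_int h l s lam hS hs hlam
  have h1 : HH lamR h x ≤ ∫ y in Iic x, Real.exp (lamR * x) * h y := by
    refine setIntegral_mono_on (ClA_p_int h l s lam hS hs hlam hR x) (hi.const_mul _).integrableOn measurableSet_Iic
      fun y hy => ?_
    exact mul_le_mul_of_nonneg_right (Real.exp_le_exp.2 (mul_le_mul_of_nonneg_left hy hR.le)) (hS.pos y).le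
  refine h1.trans ?_
  rw [integral_const_mul]
  exact mul_le_mul_of_nonneg_left (setIntegral_le_integral hi (Filter.Eventually.of_forall fun y => (hS.pos y).le))
    (Real.exp_pos _).le

theorem HH_deriv (lamR : ℝ) (hR : 0 < lamR) (x : ℝ) :
    HasDerivAt (HH lamR h) (Real.exp (lamR * x) * h x) x := by
  have hc := ClA_cont hS
  have hpc : Continuous fun y => Real.exp (lamR * y) * h y := by fun_prop
  have h1 : HH lamR h = fun z => (∫ y in Iic (0 : ℝ), Real.exp (lamR * y) * h y) +
      ∫ y in (0 : ℝ)..z, Real.exp (lamR * y) * h y := by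
    funext z
    rw [← intervalIntegral.integral_Iic_sub_Iic (ClA_p_int h l s lam hS hs hlam hR 0)
      (ClA_p_int h l s lam hS hs hlam hR z)]
    unfold HH
    ring
  rw [h1]
  exact (intervalIntegral.integral_hasDerivAt_right (hpc.intervalIntegrable _ _)
    (hpc.stronglyMeasurableAtFilter _ _) hpc.continuousAt).const_add _

theorem HH_pos (lamR : ℝ) (hR : 0 < lamR) (x : ℝ) : 0 < HH lamR h x := by
  have hpos : ∀ y, 0 < Real.exp (lamR * y) * h y := fun y => mul_pos (Real.exp_pos _) (hS.pos y)
  unfold HH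
  rw [integral_pos_iff_support_of_nonneg (fun y => (hpos y).le) (ClA_p_int h l s lam hS hs hlam hR x)]
  have h1 : Function.support (fun y => Real.exp (lamR * y) * h y) = univ := by
    ext y
    simp only [Function.mem_support, mem_univ, iff_true]
    exact (hpos y).ne'
  rw [h1, Measure.restrict_apply_univ, Real.volume_Iic]
  exact ENNReal.zero_lt_top

theorem HH_left (lamR lamL : ℝ) (hR : 0 < lamR) (hL : 0 < lamL) (x1 : ℝ)
    (h1 : ∀ y, y ≤ x1 → lamL ≤ l y) (x : ℝ) (hx : x ≤ x1) :
    (lamR + lamL) * HH lamR h x ≤ Real.exp (lamR * x) * h x := by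
  have hd : ∀ y, HasDerivAt (fun y => Real.exp (lamR * y) * h y - (lamR + lamL) * HH lamR h y)
      ((l y - lamL) * (Real.exp (lamR * y) * h y)) y := by
    intro y
    refine ((ClA_pder hS lamR y).sub ((HH_deriv h l s lam hS hs hlam lamR hR y).const_mul (lamR + lamL))).congr_deriv ?_
    ring
  have hm : MonotoneOn (fun y => Real.exp (lamR * y) * h y - (lamR + lamL) * HH lamR h y) (Iic x1) := by
    refine monotoneOn_of_deriv_nonneg (convex_Iic _) ?_ ?_ ?_
    · exact fun y _ => (hd y).continuousAt.continuousWithinAt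
    · exact fun y _ => (hd y).differentiableAt.differentiableWithinAt
    · intro y hy
      rw [interior_Iic] at hy
      rw [(hd y).deriv]
      have h2 := h1 y (le_of_lt hy)
      exact mul_nonneg (by linarith) (mul_nonneg (Real.exp_pos _).le (hS.pos y).le)
  have hlow : ∀ y, y ≤ x → -((lamR + lamL) * (Real.exp (lamR * y) * ∫ z, h z)) ≤
      Real.exp (lamR * x) * h x - (lamR + lamL) * HH lamR h x := by
    intro y hy
    have h2 : Real.exp (lamR * y) * h y - (lamR + lamL) * HH lamR h y ≤
        Real.exp (lamR * x) * h x - (lamR + lamL) * HH lamR h x := hm (hy.trans hx) hx hy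
    have h3 := mul_le_mul_of_nonneg_left (ClA_HH_le h l s lam hS hs hlam hR y) (by linarith : 0 ≤ lamR + lamL)
    have h4 := mul_nonneg (Real.exp_pos (lamR * y)).le (hS.pos y).le
    linarith
  have hlim : Tendsto (fun y => -((lamR + lamL) * (Real.exp (lamR * y) * ∫ z, h z))) atBot (𝓝 0) := by
    have h2 : Tendsto (fun y => Real.exp (lamR * y)) atBot (𝓝 0) :=
      Real.tendsto_exp_atBot.comp ((tendsto_const_mul_atBot_of_pos hR).2 tendsto_id)
    have h3 := ((h2.mul_const (∫ z, h z)).const_mul (lamR + lamL)).neg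
    rw [zero_mul, mul_zero, neg_zero] at h3
    exact h3
  have h5 := le_of_tendsto (b := Real.exp (lamR * x) * h x - (lamR + lamL) * HH lamR h x) hlim
    ((eventually_le_atBot x).mono hlow)
  linarith

theorem cvR_bdd (lamR : ℝ) (hR : 0 < lamR) : ∃ C : ℝ, ∀ x, cvR lamR h x ≤ C := by
  refine ⟨lamR * ∫ z, h z, fun x => ?_⟩
  unfold cvR
  have h1 := mul_le_mul_of_nonneg_left (ClA_HH_le h l s lam hS hs hlam hR x)
    (mul_nonneg hR.le (Real.exp_pos (-(lamR * x))).le)
  refine h1.trans (le_of_eq ?_)
  have h2 : Real.exp (-(lamR * x)) * Real.exp (lamR * x) = 1 := by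
    rw [← Real.exp_add, neg_add_cancel, Real.exp_zero]
  calc lamR * Real.exp (-(lamR * x)) * (Real.exp (lamR * x) * ∫ y, h y) =
        lamR * (Real.exp (-(lamR * x)) * Real.exp (lamR * x)) * ∫ y, h y := by ring
    _ = lamR * ∫ y, h y := by rw [h2, mul_one]

end Pool.Agent.Lib.MP_a80c92_pr
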