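import Pool.Agent.Lib.MP_a80c92_pr.F.ClA

/-! # JOB F/ClB: convolution with the right exponential law

PROOF. Choice of `x1`: `l (-s) ≥ lam ≥ lamL > 0`, `l s ≤ -lam < lamL`; by continuity there is
`x1 ∈ [-s, s]` with `l x1 = lamL` (`intermediate_value_Icc'`); since `l` is nonincreasing on `[-s, s]`
and `≥ lam` on the left of `-s`, `l ≥ lamL` on `(-∞, x1]`. Let `p x = e^{lamR x} h x`, `H = HH lamR h`,
`l1 x = -lamR + p x / H x`. `cvR = lamR e^{-lamR x} H`, so `cvR' = (-lamR + p/H) cvR`. On `(-∞, x1]`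
`HH_left` gives `p/H ≥ lamR + lamL`, `l1 ≥ lamL`. On `[x1, ∞)`: `(p/H)' = p ((lamR + l) H - p)/H²`,
need `E x := p x - (lamR + l x) H x ≥ 0`. For `x ≥ s`: `lamR + l x ≤ lamR - lam ≤ 0`. For
`x ∈ [x1, s]`: for `y ∈ [x1, x]`, `l y ≥ l x`, so `(p - (lamR + l x) H)' (y) = (l y - l x) p y ≥ 0`
(derivative in `y` with `l x` fixed), hence `E x ≥ p x1 - (lamR + l x) H x1
≥ p x1 - (lamR + lamL) H x1 ≥ 0` (`l x ≤ l x1 = lamL`, `HH_left`). So `l1` is nonincreasing on
`[x1, ∞)` (`antitoneOn_of_deriv_nonpos`). -/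

open MeasureTheory Set Filter Topology ProbabilityTheory
open scoped ENNReal NNReal

namespace Pool.Agent.Lib.MP_a80c92_pr

theorem claim1 (h l : ℝ → ℝ) (s lam lamR lamL : ℝ) (hS : Steep h l s lam) (hs : 0 < s)
    (hlam : 0 < lam) (hR : 0 < lamR) (hRl : lamR ≤ lam) (hL : 0 < lamL) (hLl : lamL ≤ lam) :
    ∃ (x1 : ℝ) (l1 : ℝ → ℝ), Continuous l1 ∧ (∀ x, 0 < cvR lamR h x) ∧
      (∀ x, HasDerivAt (cvR lamR h) (l1 x * cvR lamR h x) x) ∧
      (∀ x, x ≤ x1 → lamL ≤ l1 x) ∧ AntitoneOn l1 (Ici x1) := by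
  have hss : -s ≤ s := by linarith
  obtain ⟨x1, hx1, hlx1⟩ := intermediate_value_Icc' hss hS.cont.continuousOn
    (show lamL ∈ Icc (l s) (l (-s)) from
      ⟨by have := hS.right s le_rfl; linarith, by have := hS.left (-s) le_rfl; linarith⟩)
  have hleft : ∀ y, y ≤ x1 → lamL ≤ l y := by
    intro y hy
    by_cases h1 : y ≤ -s
    · exact hLl.trans (hS.left y h1)
    · have h2 := hS.anti ⟨(not_le.1 h1).le, hy.trans hx1.2⟩ hx1 hy
      rw [hlx1] at h2
      exact h2
  obtain ⟨p, hp⟩ : ∃ p : ℝ → ℝ, p = fun x => Real.exp (lamR * x) * h x := ⟨_, rfl⟩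
  obtain ⟨H, hH⟩ : ∃ H : ℝ → ℝ, H = HH lamR h := ⟨_, rfl⟩
  have hHd : ∀ x, HasDerivAt H (p x) x := by
    intro x
    rw [hH, hp]
    exact HH_deriv h l s lam hS hs hlam lamR hR x
  have hHp : ∀ x, 0 < H x := by
    intro x
    rw [hH]
    exact HH_pos h l s lam hS hs hlam lamR hR x
  have hpp : ∀ x, 0 < p x := by
    intro x
    rw [hp]
    exact mul_pos (Real.exp_pos _) (hS.pos x)
  have hpd : ∀ x, HasDerivAt p ((lamR + l x) * p x) x := by
    intro x
    rw [hp]
    have h1 : HasDerivAt (fun x => Real.exp (lamR * x)) (Real.exp (lamR * x) * (lamR * 1)) x :=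
      ((hasDerivAt_id x).const_mul lamR).exp
    have h2 := h1.mul (hS.der x)
    have h3 : Real.exp (lamR * x) * (lamR * 1) * h x + Real.exp (lamR * x) * (l x * h x) =
        (lamR + l x) * (Real.exp (lamR * x) * h x) := by ring
    rw [h3] at h2
    exact h2
  have hHc : Continuous H := continuous_iff_continuousAt.2 fun x => (hHd x).continuousAt
  have hpc : Continuous p := continuous_iff_continuousAt.2 fun x => (hpd x).continuousAt
  have hcv : cvR lamR h = fun x => lamR * Real.exp (-(lamR * x)) * H x := by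
    rw [hH]
    rfl
  have hE : ∀ x, x1 ≤ x → (lamR + l x) * H x ≤ p x := by
    intro x hx
    by_cases h1 : s ≤ x
    · have h2 := hS.right x h1
      have h3 : (lamR + l x) * H x ≤ 0 := mul_nonpos_of_nonpos_of_nonneg (by linarith) (hHp x).le
      exact h3.trans (hpp x).le
    · have hxs : x ≤ s := (not_le.1 h1).le
      have hd : ∀ y, HasDerivAt (fun y => p y - (lamR + l x) * H y) ((l y - l x) * p y) y := by
        intro y
        have h2 := (hpd y).sub ((hHd y).const_mul (lamR + l x))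
        have h3 : (lamR + l y) * p y - (lamR + l x) * p y = (l y - l x) * p y := by ring
        rw [h3] at h2
        exact h2
      have hmono : MonotoneOn (fun y => p y - (lamR + l x) * H y) (Icc x1 x) := by
        refine monotoneOn_of_deriv_nonneg (convex_Icc x1 x)
          (fun y _ => (hd y).continuousAt.continuousWithinAt)
          (fun y _ => (hd y).differentiableAt.differentiableWithinAt) ?_
        intro y hy
        rw [interior_Icc] at hy
        rw [(hd y).deriv]
        have h4 : l x ≤ l y := hS.anti ⟨hx1.1.trans hy.1.le, hy.2.le.trans hxs⟩ ⟨hx1.1.trans hx, hxs⟩ hy.2.le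
        exact mul_nonneg (by linarith) (hpp y).le
      have h5 := hmono (left_mem_Icc.2 hx) (right_mem_Icc.2 hx) hx
      simp only at h5
      have h6 : l x ≤ lamL := by
        rw [← hlx1]
        exact hS.anti hx1 ⟨hx1.1.trans hx, hxs⟩ hx
      have h7 : (lamR + lamL) * H x1 ≤ p x1 := by
        rw [hH, hp]
        exact HH_left h l s lam hS hs hlam lamR lamL hR hL x1 hleft x1 le_rfl
      have h8 : (lamR + l x) * H x1 ≤ (lamR + lamL) * H x1 :=
        mul_le_mul_of_nonneg_right (by linarith) (hHp x1).le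
      linarith
  have hl1d : ∀ x, HasDerivAt (fun x => -lamR + p x / H x)
      ((((lamR + l x) * p x) * H x - p x * p x) / H x ^ 2) x := by
    intro x
    exact ((hpd x).div (hHd x) (hHp x).ne').const_add (-lamR)
  refine ⟨x1, fun x => -lamR + p x / H x, ?_, ?_, ?_, ?_, ?_⟩
  · exact continuous_const.add (hpc.div hHc fun x => (hHp x).ne')
  · intro x
    rw [hcv]
    exact mul_pos (mul_pos hR (Real.exp_pos _)) (hHp x)
  · intro x
    rw [hcv]
    have h1 : HasDerivAt (fun x => Real.exp (-(lamR * x))) (Real.exp (-(lamR * x)) * (-(lamR * 1))) x :=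
      (((hasDerivAt_id x).const_mul lamR).neg).exp
    have h2 := (h1.const_mul lamR).mul (hHd x)
    have h3 : lamR * (Real.exp (-(lamR * x)) * (-(lamR * 1))) * H x + lamR * Real.exp (-(lamR * x)) * p x =
        (-lamR + p x / H x) * (lamR * Real.exp (-(lamR * x)) * H x) := by
      have h4 := (hHp x).ne'
      field_simp
    rw [h3] at h2
    exact h2
  · intro x hx
    have h7 : (lamR + lamL) * H x ≤ p x := by
      rw [hH, hp]
      exact HH_left h l s lam hS hs hlam lamR lamL hR hL x1 hleft x hx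
    have h8 : lamR + lamL ≤ p x / H x := by
      rw [le_div_iff₀ (hHp x)]
      exact h7
    simp only
    linarith
  · refine antitoneOn_of_deriv_nonpos (convex_Ici x1)
      (fun y _ => (hl1d y).continuousAt.continuousWithinAt)
      (fun y _ => (hl1d y).differentiableAt.differentiableWithinAt) ?_
    intro y hy
    rw [interior_Ici] at hy
    rw [(hl1d y).deriv]
    have h4 := hE y (le_of_lt hy)
    have h5 : ((lamR + l y) * p y) * H y - p y * p y = p y * ((lamR + l y) * H y - p y) := by ring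
    rw [h5]
    exact div_nonpos_of_nonpos_of_nonneg (mul_nonpos_of_nonneg_of_nonpos (hpp y).le (by linarith)) (sq_nonneg _)

end Pool.Agent.Lib.MP_a80c92_pr
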