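import Pool.Agent.Lib.MP_a80c92_pr.Defs2

/-! # JOB F/ClC: convolution with the left exponential law; log-concavity

PROOF of `claim2`. `q x = e^{-lamL x} f x`, `K = KK lamL f` (`q ≤ C e^{-lamL x}` is integrable on
`(x, ∞)`), `K' = -q`, `K > 0`, `cvL = lamL e^{lamL x} K`, `l2 = lamL - q/K`. `l2` antitone iff `q/K`
monotone: `(q/K)' = q ((l - lamL) K + q)/K²`. On `(-∞, x1]`: `l ≥ lamL`. On `[x1, ∞)`: for `y ≥ x`
`l y ≤ l x`, `q' = (l - lamL) q`; the function `y ↦ q y + (l x - lamL) K y` has derivative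
`(l y - lamL) q y - (l x - lamL) q y = (l y - l x) q y ≤ 0` and tends to `0` at `+∞`, so it is `≥ 0` at
`y = x`. So `q/K` is monotone on `(-∞, x1]` and on `[x1, ∞)`, hence on `ℝ`
(`monotone_of_deriv_nonneg` on all of `ℝ`).
`posLC_of_antitone`: `log f` has derivative `l`; for `x < y`, `t > 0`: the function
`τ ↦ log f (x+τ) - log f (y+τ)` has derivative `l (x+τ) - l (y+τ) ≥ 0`, so
`log f (x+t) - log f (y+t) ≥ log f x - log f y`; exponentiate. -/

open MeasureTheory Set Filter Topology ProbabilityTheory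
open scoped ENNReal NNReal

namespace Pool.Agent.Lib.MP_a80c92_pr

theorem ClC_q_deriv (f l : ℝ → ℝ) (lamL : ℝ) (hder : ∀ x, HasDerivAt f (l x * f x) x) (x : ℝ) :
    HasDerivAt (fun x => Real.exp (-(lamL * x)) * f x) ((l x - lamL) * (Real.exp (-(lamL * x)) * f x)) x := by
  have h1 : HasDerivAt (fun x : ℝ => Real.exp (-(lamL * x))) (Real.exp (-(lamL * x)) * (-(lamL * 1))) x :=
    (((hasDerivAt_id x).const_mul lamL).neg).exp
  have h2 := h1.mul (hder x)
  refine h2.congr_deriv ?_
  ring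

theorem ClC_int (f : ℝ → ℝ) (lamL C : ℝ) (hL : 0 < lamL) (hpos : ∀ x, 0 < f x) (hc : Continuous f)
    (hb : ∀ x, f x ≤ C) (a : ℝ) : IntegrableOn (fun x => Real.exp (-(lamL * x)) * f x) (Ioi a) := by
  have h1 : IntegrableOn (fun x => C * Real.exp (-lamL * x)) (Ioi a) :=
    (exp_neg_integrableOn_Ioi a hL).const_mul C
  refine Integrable.mono' h1 (Continuous.aestronglyMeasurable (by fun_prop)) ?_
  refine Eventually.of_forall fun x => ?_
  rw [Real.norm_of_nonneg (mul_nonneg (Real.exp_pos _).le (hpos x).le), neg_mul, mul_comm C]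
  exact mul_le_mul_of_nonneg_left (hb x) (Real.exp_pos _).le

theorem ClC_K (f : ℝ → ℝ) (lamL C : ℝ) (hL : 0 < lamL) (hpos : ∀ x, 0 < f x) (hc : Continuous f)
    (hb : ∀ x, f x ≤ C) (a x : ℝ) :
    KK lamL f x = KK lamL f a - ∫ y in a..x, Real.exp (-(lamL * y)) * f y := by
  have h1 := intervalIntegral.integral_Ioi_sub_Ioi' (ClC_int f lamL C hL hpos hc hb a)
    (ClC_int f lamL C hL hpos hc hb x)
  unfold KK
  rw [← h1]
  ring

theorem ClC_K_deriv (f : ℝ → ℝ) (lamL C : ℝ) (hL : 0 < lamL) (hpos : ∀ x, 0 < f x) (hc : Continuous f)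
    (hb : ∀ x, f x ≤ C) (x : ℝ) : HasDerivAt (KK lamL f) (-(Real.exp (-(lamL * x)) * f x)) x := by
  have h1 : KK lamL f = fun x => KK lamL f 0 - ∫ y in (0 : ℝ)..x, Real.exp (-(lamL * y)) * f y := by
    funext x
    exact ClC_K f lamL C hL hpos hc hb 0 x
  have hq : Continuous fun y => Real.exp (-(lamL * y)) * f y := by fun_prop
  rw [h1]
  have h2 := intervalIntegral.integral_hasDerivAt_right (hq.intervalIntegrable 0 x)
    (hq.stronglyMeasurableAtFilter _ _) hq.continuousAt
  exact h2.const_sub _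

theorem ClC_K_nonneg (f : ℝ → ℝ) (lamL : ℝ) (hpos : ∀ x, 0 < f x) (x : ℝ) : 0 ≤ KK lamL f x := by
  unfold KK
  exact setIntegral_nonneg measurableSet_Ioi fun y _ => mul_nonneg (Real.exp_pos _).le (hpos y).le

theorem ClC_K_pos (f : ℝ → ℝ) (lamL C : ℝ) (hL : 0 < lamL) (hpos : ∀ x, 0 < f x) (hc : Continuous f)
    (hb : ∀ x, f x ≤ C) (x : ℝ) : 0 < KK lamL f x := by
  have h1 := ClC_K f lamL C hL hpos hc hb x (x + 1)
  have hq : Continuous fun y => Real.exp (-(lamL * y)) * f y := by fun_prop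
  have h2 : 0 < ∫ y in x..(x + 1), Real.exp (-(lamL * y)) * f y :=
    intervalIntegral.intervalIntegral_pos_of_pos (hq.intervalIntegrable _ _)
      (fun y => mul_pos (Real.exp_pos _) (hpos y)) (by linarith)
  have h3 := ClC_K_nonneg f lamL hpos (x + 1)
  linarith

theorem ClC_exp_tendsto (lamL : ℝ) (hL : 0 < lamL) : Tendsto (fun x : ℝ => Real.exp (-(lamL * x))) atTop (𝓝 0) := by
  have h1 : Tendsto (fun x : ℝ => lamL * x) atTop atTop := tendsto_id.const_mul_atTop hL
  exact Real.tendsto_exp_neg_atTop_nhds_zero.comp h1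

theorem ClC_q_tendsto (f : ℝ → ℝ) (lamL C : ℝ) (hL : 0 < lamL) (hpos : ∀ x, 0 < f x)
    (hb : ∀ x, f x ≤ C) : Tendsto (fun x : ℝ => Real.exp (-(lamL * x)) * f x) atTop (𝓝 0) := by
  have h1 : Tendsto (fun x : ℝ => Real.exp (-(lamL * x)) * C) atTop (𝓝 0) := by
    have h2 := (ClC_exp_tendsto lamL hL).mul_const C
    rwa [zero_mul] at h2
  refine squeeze_zero (fun x => mul_nonneg (Real.exp_pos _).le (hpos x).le) (fun x => ?_) h1
  exact mul_le_mul_of_nonneg_left (hb x) (Real.exp_pos _).le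

theorem ClC_K_tendsto (f : ℝ → ℝ) (lamL C : ℝ) (hL : 0 < lamL) (hpos : ∀ x, 0 < f x) (hc : Continuous f)
    (hb : ∀ x, f x ≤ C) : Tendsto (KK lamL f) atTop (𝓝 0) := by
  have h1 : Tendsto (fun x : ℝ => C / lamL * Real.exp (-(lamL * x))) atTop (𝓝 0) := by
    have h2 := (ClC_exp_tendsto lamL hL).const_mul (C / lamL)
    rwa [mul_zero] at h2
  refine squeeze_zero (ClC_K_nonneg f lamL hpos) (fun x => ?_) h1
  have h3 : IntegrableOn (fun x => C * Real.exp (-lamL * x)) (Ioi x) :=
    (exp_neg_integrableOn_Ioi x hL).const_mul C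
  have h4 : KK lamL f x ≤ ∫ y in Ioi x, C * Real.exp (-lamL * y) := by
    unfold KK
    refine setIntegral_mono (ClC_int f lamL C hL hpos hc hb x) h3 fun y => ?_
    rw [neg_mul, mul_comm C]
    exact mul_le_mul_of_nonneg_left (hb y) (Real.exp_pos _).le
  refine h4.trans (le_of_eq ?_)
  rw [integral_const_mul, integral_exp_mul_Ioi (neg_lt_zero.2 hL), neg_mul]
  field_simp

theorem claim2 (f l : ℝ → ℝ) (x1 lamL C : ℝ) (hL : 0 < lamL) (hpos : ∀ x, 0 < f x)
    (hder : ∀ x, HasDerivAt f (l x * f x) x) (hcont : Continuous l) (hb : ∀ x, f x ≤ C)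
    (h1 : ∀ x, x ≤ x1 → lamL ≤ l x) (h2 : AntitoneOn l (Ici x1)) :
    ∃ l2 : ℝ → ℝ, Continuous l2 ∧ Antitone l2 ∧ (∀ x, 0 < cvL lamL f x) ∧
      ∀ x, HasDerivAt (cvL lamL f) (l2 x * cvL lamL f x) x := by
  have hc : Continuous f := continuous_iff_continuousAt.2 fun x => (hder x).continuousAt
  obtain ⟨q, hq⟩ : ∃ q : ℝ → ℝ, q = fun x => Real.exp (-(lamL * x)) * f x := ⟨_, rfl⟩
  have hqd : ∀ x, HasDerivAt q ((l x - lamL) * q x) x := fun x => by
    rw [hq]
    exact ClC_q_deriv f l lamL hder x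
  have hqp : ∀ x, 0 < q x := fun x => by
    rw [hq]
    exact mul_pos (Real.exp_pos _) (hpos x)
  have hqt : Tendsto q atTop (𝓝 0) := by
    rw [hq]
    exact ClC_q_tendsto f lamL C hL hpos hb
  have hKd : ∀ x, HasDerivAt (KK lamL f) (-(q x)) x := fun x => by
    rw [hq]
    exact ClC_K_deriv f lamL C hL hpos hc hb x
  have hKp := ClC_K_pos f lamL C hL hpos hc hb
  have hKt := ClC_K_tendsto f lamL C hL hpos hc hb
  obtain ⟨K, hK⟩ : ∃ K, K = KK lamL f := ⟨_, rfl⟩
  rw [← hK] at hKd hKp hKt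
  have hE : ∀ x, 0 ≤ q x + (l x - lamL) * K x := by
    intro x
    rcases le_total x x1 with h | h
    · exact add_nonneg (hqp x).le (mul_nonneg (sub_nonneg.2 (h1 x h)) (hKp x).le)
    · have hd : ∀ y, HasDerivAt (fun y => q y + (l x - lamL) * K y) ((l y - l x) * q y) y := by
        intro y
        refine ((hqd y).add ((hKd y).const_mul (l x - lamL))).congr_deriv ?_
        ring
      have hanti : AntitoneOn (fun y => q y + (l x - lamL) * K y) (Ici x) := by
        refine antitoneOn_of_deriv_nonpos (convex_Ici x) (fun y _ => (hd y).continuousAt.continuousWithinAt)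
          (fun y _ => (hd y).differentiableAt.differentiableWithinAt) fun y hy => ?_
        rw [interior_Ici] at hy
        rw [(hd y).deriv]
        have h3 := h2 (show x ∈ Ici x1 from h) (show y ∈ Ici x1 from h.trans (le_of_lt hy)) (le_of_lt hy)
        exact mul_nonpos_of_nonpos_of_nonneg (sub_nonpos.2 h3) (hqp y).le
      have hlim : Tendsto (fun y => q y + (l x - lamL) * K y) atTop (𝓝 0) := by
        have h4 := hqt.add (hKt.const_mul (l x - lamL))
        rwa [mul_zero, add_zero] at h4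
      refine le_of_tendsto hlim ?_
      filter_upwards [eventually_ge_atTop x] with y hy
      exact hanti (show x ∈ Ici x from (le_refl x)) hy hy
  have hRd : ∀ x, HasDerivAt (fun x => q x / K x) (q x * (q x + (l x - lamL) * K x) / K x ^ 2) x := by
    intro x
    refine ((hqd x).div (hKd x) (hKp x).ne').congr_deriv ?_
    ring
  have hmono : Monotone fun x => q x / K x := by
    refine monotone_of_deriv_nonneg (fun x => (hRd x).differentiableAt) fun x => ?_
    rw [(hRd x).deriv]
    exact div_nonneg (mul_nonneg (hqp x).le (hE x)) (sq_nonneg _)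
  refine ⟨fun x => lamL - q x / K x, ?_, ?_, ?_, ?_⟩
  · exact continuous_const.sub (continuous_iff_continuousAt.2 fun x => (hRd x).continuousAt)
  · intro x y hxy
    exact sub_le_sub_left (hmono hxy) lamL
  · intro x
    unfold cvL
    rw [← hK]
    exact mul_pos (mul_pos hL (Real.exp_pos _)) (hKp x)
  · intro x
    have h3 : HasDerivAt (fun x : ℝ => lamL * Real.exp (lamL * x)) (lamL * (Real.exp (lamL * x) * (lamL * 1))) x :=
      (((hasDerivAt_id x).const_mul lamL).exp).const_mul lamL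
    have h4 : cvL lamL f = fun x => lamL * Real.exp (lamL * x) * K x := by
      funext x
      unfold cvL
      rw [← hK]
    rw [h4]
    refine (h3.mul (hKd x)).congr_deriv ?_
    have h5 := (hKp x).ne'
    field_simp
    ring

theorem posLC_of_antitone (f l : ℝ → ℝ) (hpos : ∀ x, 0 < f x)
    (hder : ∀ x, HasDerivAt f (l x * f x) x) (hanti : Antitone l) (hint : Integrable f) :
    PosLC f := by
  have hc : Continuous f := continuous_iff_continuousAt.2 fun x => (hder x).continuousAt
  refine ⟨hc, hpos, fun x y t hxy ht => ?_, hint⟩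
  have hlog : ∀ z, HasDerivAt (fun z => Real.log (f z)) (l z) z := by
    intro z
    refine ((hder z).log (hpos z).ne').congr_deriv ?_
    rw [mul_div_assoc, div_self (hpos z).ne', mul_one]
  have hg : ∀ τ, HasDerivAt (fun τ => Real.log (f (x + τ)) - Real.log (f (y + τ))) (l (x + τ) - l (y + τ)) τ := by
    intro τ
    have h1 : HasDerivAt (fun τ => Real.log (f (x + τ))) (l (x + τ)) τ := by
      have h3 := (hlog (x + τ)).comp τ ((hasDerivAt_id τ).const_add x)
      refine h3.congr_deriv ?_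
      rw [mul_one]
    have h2 : HasDerivAt (fun τ => Real.log (f (y + τ))) (l (y + τ)) τ := by
      have h3 := (hlog (y + τ)).comp τ ((hasDerivAt_id τ).const_add y)
      refine h3.congr_deriv ?_
      rw [mul_one]
    exact h1.sub h2
  have hmono : Monotone fun τ => Real.log (f (x + τ)) - Real.log (f (y + τ)) := by
    refine monotone_of_deriv_nonneg (fun τ => (hg τ).differentiableAt) fun τ => ?_
    rw [(hg τ).deriv]
    exact sub_nonneg.2 (hanti (by linarith))
  have h1 := hmono ht.le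
  simp only [add_zero] at h1
  have h2 : Real.log (f x * f (y + t)) ≤ Real.log (f (x + t) * f y) := by
    rw [Real.log_mul (hpos x).ne' (hpos _).ne', Real.log_mul (hpos _).ne' (hpos y).ne']
    linarith
  exact (Real.log_le_log_iff (mul_pos (hpos _) (hpos _)) (mul_pos (hpos _) (hpos _))).1 h2

end Pool.Agent.Lib.MP_a80c92_pr
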