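import Pool.Agent.Lib.MP_a80c92_pr.LimA
import Pool.Agent.Lib.MP_a80c92_pr.LimD

/-! # JOB F/Clos: weak limits of (strongly) unimodal laws

PROOF of `unimodal_of_limit`. `tendsto_dfn_of_charFun` gives `dfn (Hs n) x → dfn H x` at every `x` with
`H {x} = 0`. Let `a n` be a mode of `Hs n`. Take an ultrafilter `U ≤ atTop`; the images of
`(a n : EReal)` converge along `U` to some `A` in `EReal` (see LimE.lean, complete, which does exactly
this). For `x < y < z < A`, eventually `z < a n` and convexity of `dfn (Hs n)` on `Iio (a n)` gives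
`(z - x) F_n y ≤ (z - y) F_n x + (y - x) F_n z` (from `ConvexOn.2` with weights, or
`slope_mono_adjacent`); pass to the limit along `U`. The same with concavity for `A < x`. Conclude with
`convexOn_of_cont`, `concaveOn_of_cont`, `no_convex`, `no_concave` (LimD.lean) as in LimE.lean.
`su_of_limit`: for unimodal `G`: `charFun (μs n ∗ G) t = charFun (μs n) t * charFun G t`. -/

open MeasureTheory Set Filter Topology ProbabilityTheory
open scoped ENNReal NNReal

namespace Pool.Agent.Lib.MP_a80c92_pr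

private theorem Clos_cx {s : Set ℝ} {f : ℝ → ℝ} (h : ConvexOn ℝ s f) {x y z : ℝ} (hx : x ∈ s) (hz : z ∈ s)
    (hxy : x < y) (hyz : y < z) : (z - x) * f y ≤ (z - y) * f x + (y - x) * f z := by
  have hzx : 0 < z - x := by linarith
  have ha : 0 ≤ (z - y) / (z - x) := div_nonneg (by linarith) hzx.le
  have hb : 0 ≤ (y - x) / (z - x) := div_nonneg (by linarith) hzx.le
  have hab : (z - y) / (z - x) + (y - x) / (z - x) = 1 := by
    rw [← add_div, div_eq_one_iff_eq hzx.ne']
    ring
  have h1 := h.2 hx hz ha hb hab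
  have h2 : ((z - y) / (z - x)) • x + ((y - x) / (z - x)) • z = y := by
    rw [smul_eq_mul, smul_eq_mul]
    field_simp
    ring
  rw [h2, smul_eq_mul, smul_eq_mul] at h1
  have h3 := mul_le_mul_of_nonneg_left h1 hzx.le
  have h4 : (z - x) * ((z - y) / (z - x) * f x + (y - x) / (z - x) * f z) =
      (z - y) * f x + (y - x) * f z := by
    field_simp
  rw [h4] at h3
  exact h3

private theorem Clos_cv {s : Set ℝ} {f : ℝ → ℝ} (h : ConcaveOn ℝ s f) {x y z : ℝ} (hx : x ∈ s) (hz : z ∈ s)
    (hxy : x < y) (hyz : y < z) : (z - y) * f x + (y - x) * f z ≤ (z - x) * f y := by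
  have h1 := Clos_cx h.neg hx hz hxy hyz
  simp only [Pi.neg_apply] at h1
  linarith

theorem unimodal_of_limit (Hs : ℕ → Measure ℝ) (H : Measure ℝ)
    [∀ n, IsProbabilityMeasure (Hs n)] [IsProbabilityMeasure H] (hu : ∀ n, Unimodal (Hs n))
    (h : ∀ t : ℝ, Tendsto (fun n => charFun (Hs n) t) atTop (𝓝 (charFun H t))) :
    Unimodal H := by
  have hH' : ∀ x, H {x} = 0 → Tendsto (fun n => dfn (Hs n) x) atTop (𝓝 (dfn H x)) := fun x hx =>
    tendsto_dfn_of_charFun Hs H h x hx
  choose a ha using hu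
  have hU : ((Ultrafilter.of atTop : Ultrafilter ℕ) : Filter ℕ) ≤ atTop := Ultrafilter.of_le atTop
  generalize (Ultrafilter.of atTop : Ultrafilter ℕ) = U at hU
  obtain ⟨A, -, hA⟩ := isCompact_univ.ultrafilter_le_nhds
    (U.map (fun n => ((a n : ℝ) : EReal))) (by simp)
  have hT : Tendsto (fun n => ((a n : ℝ) : EReal)) (U : Filter ℕ) (𝓝 A) := hA
  have hup : ∀ z : ℝ, (z : EReal) < A → ∀ᶠ n in (U : Filter ℕ), z < a n := by
    intro z hz
    have := hT.eventually (lt_mem_nhds hz)
    exact this.mono (fun n hn => EReal.coe_lt_coe_iff.1 hn)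
  have hdn : ∀ z : ℝ, A < (z : EReal) → ∀ᶠ n in (U : Filter ℕ), a n < z := by
    intro z hz
    have := hT.eventually (gt_mem_nhds hz)
    exact this.mono (fun n hn => EReal.coe_lt_coe_iff.1 hn)
  have hcx : ∀ x y z : ℝ, x < y → y < z → (z : EReal) < A → H {x} = 0 → H {y} = 0 → H {z} = 0 →
      (z - x) * dfn H y ≤ (z - y) * dfn H x + (y - x) * dfn H z := by
    intro x y z hxy hyz hz hx0 hy0 hz0
    refine le_of_tendsto_of_tendsto (((hH' y hy0).mono_left hU).const_mul (z - x))
      ((((hH' x hx0).mono_left hU).const_mul (z - y)).add (((hH' z hz0).mono_left hU).const_mul (y - x))) ?_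
    filter_upwards [hup z hz] with n hn
    exact Clos_cx (ha n).1 (show x ∈ Iio (a n) from (hxy.trans hyz).trans hn) (show z ∈ Iio (a n) from hn) hxy hyz
  have hcv : ∀ x y z : ℝ, A < (x : EReal) → x < y → y < z → H {x} = 0 → H {y} = 0 → H {z} = 0 →
      (z - y) * dfn H x + (y - x) * dfn H z ≤ (z - x) * dfn H y := by
    intro x y z hx hxy hyz hx0 hy0 hz0
    refine le_of_tendsto_of_tendsto
      ((((hH' x hx0).mono_left hU).const_mul (z - y)).add (((hH' z hz0).mono_left hU).const_mul (y - x)))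
      (((hH' y hy0).mono_left hU).const_mul (z - x)) ?_
    filter_upwards [hdn x hx] with n hn
    exact Clos_cv (ha n).2 (show x ∈ Ioi (a n) from hn) (show z ∈ Ioi (a n) from hn.trans (hxy.trans hyz)) hxy hyz
  induction A using EReal.rec with
  | bot =>
    exact (no_concave H (fun x y z hxy hyz => hcv x y z (EReal.bot_lt_coe x) hxy hyz)).elim
  | top =>
    exact (no_convex H (fun x y z hxy hyz => hcx x y z hxy hyz (EReal.coe_lt_top z))).elim
  | coe r =>
    exact ⟨r, convexOn_of_cont H r (fun x y z hxy hyz hz =>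
        hcx x y z hxy hyz (EReal.coe_lt_coe_iff.2 hz)),
      concaveOn_of_cont H r (fun x y z hx hxy hyz =>
        hcv x y z (EReal.coe_lt_coe_iff.2 hx) hxy hyz)⟩

theorem su_of_limit (μs : ℕ → Measure ℝ) (μ : Measure ℝ)
    [∀ n, IsProbabilityMeasure (μs n)] [IsProbabilityMeasure μ]
    (hu : ∀ n, StronglyUnimodal (μs n))
    (h : ∀ t : ℝ, Tendsto (fun n => charFun (μs n) t) atTop (𝓝 (charFun μ t))) :
    StronglyUnimodal μ := by
  intro G hG hGu
  refine unimodal_of_limit (fun n => μs n ∗ G) (μ ∗ G) (fun n => hu n G hG hGu) ?_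
  intro t
  simp only [charFun_conv]
  exact (h t).mul_const _

end Pool.Agent.Lib.MP_a80c92_pr
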