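import Pool.Agent.Lib.MP_a80c92_pr.DUa
import Pool.Agent.Lib.MP_a80c92_pr.Defs2

/-! # JOB F/DUz: positive log-concave laws on `ℤ` preserve discrete unimodality

PROOF. Copy the proof of `SDU_of_LC` in DUa.lean (complete there), it becomes simpler. `q i =
Q.real {i}` (`i : ℤ`), `g k = G.real {k}`, mode `a`, `H n = (Q ∗ G).real {n} = ∑' i : ℤ, q i * g (n - i)`
(as `conv_apply_int`), `D n = H n - H (n-1) = ∑' i, q i * d (n - i)`, `d k = g k - g (k-1)`,
`d k ≥ 0` for `k ≤ a`, `≤ 0` for `k > a`. Reindex: `D (n+1) = ∑' i, q (i+1) d (n-i)`. With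
`r = q (n-a+1)/q (n-a)`: for `i ≥ n-a` (`n-i ≤ a`, `d ≥ 0`) `q (i+1) ≤ r q i`, for `i < n-a`
(`d ≤ 0`) `q (i+1) ≥ r q i`. So `D (n+1) ≤ r D n` for ALL `n : ℤ`, hence `D n ≤ 0` implies
`D (n+1) ≤ 0`. Some `n` has `D n ≤ 0` (otherwise `H` is increasing on `ℤ`, not summable); some `n` has
`D n > 0` (otherwise `H` is nonincreasing on `ℤ`, and being summable it is `0`, but its sum is 1). So
`{n | D n ≤ 0} = [n1, ∞)`, mode `n1 - 1` (`dua_mono`, `dua_anti`, `dua_summable` in DUa.lean). -/

open MeasureTheory Set Filter Topology ProbabilityTheory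
open scoped ENNReal NNReal

namespace Pool.Agent.Lib.MP_a80c92_pr

private theorem DUz_conv_apply (Q : Measure ℤ) [IsProbabilityMeasure Q] (G : Measure ℤ)
    [IsProbabilityMeasure G] (n : ℤ) :
    (Q ∗ G).real {n} = ∑' i : ℤ, Q.real {i} * G.real {n - i} := by
  have h1 : (Q ∗ G) {n} = ∑' i : ℤ, Q {i} * G {n - i} := by
    have h := Measure.lintegral_conv (μ := Q) (ν := G)
      (f := Set.indicator {n} 1) (measurable_of_countable _)
    rw [lintegral_indicator_one (measurableSet_singleton n)] at h
    rw [h, lintegral_countable']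
    refine tsum_congr fun i => ?_
    rw [mul_comm]
    congr 1
    have h2 : (fun y : ℤ => Set.indicator {n} (1 : ℤ → ℝ≥0∞) (i + y)) =
        Set.indicator {n - i} 1 := by
      funext y
      by_cases hy : y = n - i
      · subst hy; simp
      · have : i + y ≠ n := by omega
        rw [Set.indicator_of_notMem (by simpa using this),
          Set.indicator_of_notMem (by simpa using hy)]
    rw [h2, lintegral_indicator_one (measurableSet_singleton _)]
  unfold Measure.real
  rw [h1, ENNReal.tsum_toReal_eq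
    (fun i => ENNReal.mul_ne_top (measure_ne_top _ _) (measure_ne_top _ _))]
  simp [ENNReal.toReal_mul]

private theorem DUz_ratio (q : ℤ → ℝ) (hpos : ∀ n, 0 < q n)
    (hlc : ∀ n, q (n + 1) * q (n - 1) ≤ q n ^ 2)
    (i j : ℤ) (hij : i ≤ j) : q (j + 1) * q i ≤ q (i + 1) * q j := by
  have key : ∀ k : ℕ, q (i + k + 1) * q i ≤ q (i + 1) * q (i + k) := by
    intro k
    induction k with
    | zero => simp
    | succ k ih =>
      push_cast
      have h1 := hlc (i + k + 1)
      have e1 : i + (k : ℤ) + 1 - 1 = i + k := by ring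
      rw [e1] at h1
      have e2 : i + ((k : ℤ) + 1) = i + k + 1 := by ring
      rw [e2]
      have h2 : q (i + k + 1 + 1) * q (i + k) * q i ≤ q (i + k + 1) ^ 2 * q i :=
        mul_le_mul_of_nonneg_right h1 (hpos i).le
      have h3 : q (i + k + 1) * (q (i + k + 1) * q i) ≤ q (i + k + 1) * (q (i + 1) * q (i + k)) :=
        mul_le_mul_of_nonneg_left ih (hpos _).le
      have h4 : (q (i + k + 1 + 1) * q i) * q (i + k) ≤ (q (i + 1) * q (i + k + 1)) * q (i + k) := by
        nlinarith
      exact le_of_mul_le_mul_right h4 (hpos (i + k))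
  obtain ⟨k, hk⟩ : ∃ k : ℕ, (k : ℤ) = j - i := ⟨(j - i).toNat, Int.toNat_of_nonneg (by omega)⟩
  have h := key k
  have e : i + (k : ℤ) = j := by omega
  rw [e] at h
  exact h

theorem SDU_of_LCZ (Q : Measure ℤ) [IsProbabilityMeasure Q] (h : LCZ Q) : SDU Q := by
  intro G hG hGu
  obtain ⟨a, hmono, hanti⟩ := hGu
  obtain ⟨hpos, hlc⟩ := h
  set q : ℤ → ℝ := fun i => Q.real {i} with hq
  set g : ℤ → ℝ := fun k => G.real {k} with hg
  set H : ℤ → ℝ := fun n => (Q ∗ G).real {n} with hH
  have hqs : Summable q := dua_summable Q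
  have hg1 : ∀ k, |g k| ≤ 1 := fun k => by
    simp only [hg]
    rw [abs_of_nonneg measureReal_nonneg]; exact measureReal_le_one
  have hsum : ∀ n : ℤ, Summable (fun i : ℤ => q i * g (n - i)) := fun n => by
    refine Summable.of_norm_bounded hqs fun i => ?_
    rw [Real.norm_eq_abs, abs_mul, abs_of_pos (hpos i)]
    exact mul_le_of_le_one_right (hpos i).le (hg1 _)
  have hHf : ∀ n, H n = ∑' i : ℤ, q i * g (n - i) := fun n => DUz_conv_apply Q G n
  let d : ℤ → ℝ := fun k => g k - g (k - 1)
  have hdpos : ∀ k, k ≤ a → 0 ≤ d k := fun k hk => by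
    have : g (k - 1) ≤ g k := hmono (show k - 1 ≤ a by omega) (show k ≤ a from hk) (by omega)
    simp only [d]; linarith
  have hdneg : ∀ k, a < k → d k ≤ 0 := fun k hk => by
    have : g k ≤ g (k - 1) := hanti (show a ≤ k - 1 by omega) (show a ≤ k by omega) (by omega)
    simp only [d]; linarith
  let D : ℤ → ℝ := fun n => H n - H (n - 1)
  have hDs : ∀ n : ℤ, Summable (fun i : ℤ => q i * d (n - i)) := fun n => by
    have h1 := (hsum n).sub (hsum (n - 1))
    refine h1.congr fun i => ?_
    simp only [d]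
    have e : n - 1 - i = n - i - 1 := by ring
    rw [e]; ring
  have hDf : ∀ n : ℤ, D n = ∑' i : ℤ, q i * d (n - i) := fun n => by
    simp only [D]
    rw [hHf, hHf, ← (hsum n).tsum_sub (hsum (n - 1))]
    refine tsum_congr fun i => ?_
    simp only [d]
    have e : n - 1 - i = n - i - 1 := by ring
    rw [e]; ring
  have step2 : ∀ n, D n ≤ 0 → D (n + 1) ≤ 0 := by
    intro n hD
    have hr : 0 < q (n - a + 1) / q (n - a) := div_pos (hpos _) (hpos _)
    have hterm : ∀ i : ℤ, q (i + 1) * d (n - i) ≤
        q (n - a + 1) / q (n - a) * (q i * d (n - i)) := by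
      intro i
      rcases le_or_gt (n - a) i with hi | hi
      · have hd := hdpos (n - i) (by omega)
        have h1 := DUz_ratio q hpos hlc (n - a) i hi
        have h2 : q (i + 1) ≤ q (n - a + 1) / q (n - a) * q i := by
          rw [div_mul_eq_mul_div, le_div_iff₀ (hpos _)]; exact h1
        calc q (i + 1) * d (n - i) ≤ (q (n - a + 1) / q (n - a) * q i) * d (n - i) :=
              mul_le_mul_of_nonneg_right h2 hd
          _ = _ := by ring
      · have hd := hdneg (n - i) (by omega)
        have h1 := DUz_ratio q hpos hlc i (n - a) hi.le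
        have h2 : q (n - a + 1) / q (n - a) * q i ≤ q (i + 1) := by
          rw [div_mul_eq_mul_div, div_le_iff₀ (hpos _)]; exact h1
        calc q (i + 1) * d (n - i) ≤ (q (n - a + 1) / q (n - a) * q i) * d (n - i) :=
              mul_le_mul_of_nonpos_right h2 hd
          _ = _ := by ring
    have hs1 : Summable (fun i : ℤ => q (i + 1) * d (n - i)) := by
      have := (Equiv.addRight (1 : ℤ)).summable_iff.2 (hDs (n + 1))
      refine this.congr fun i => ?_
      simp only [Function.comp, Equiv.coe_addRight]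
      congr 2
      ring
    have e1 : D (n + 1) = ∑' i : ℤ, q (i + 1) * d (n - i) := by
      rw [hDf, ← (Equiv.addRight (1 : ℤ)).tsum_eq]
      refine tsum_congr fun i => ?_
      simp only [Equiv.coe_addRight]
      congr 2
      ring
    have h3 : ∑' i : ℤ, q (i + 1) * d (n - i) ≤
        ∑' i : ℤ, q (n - a + 1) / q (n - a) * (q i * d (n - i)) :=
      hs1.tsum_le_tsum hterm ((hDs n).mul_left _)
    rw [tsum_mul_left, ← hDf] at h3
    have h4 : q (n - a + 1) / q (n - a) * D n ≤ 0 := mul_nonpos_of_nonneg_of_nonpos hr.le hD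
    rw [e1]; linarith
  have hge : ∀ (n : ℤ) (_ : D n ≤ 0) (m : ℕ), D (n + m) ≤ 0 := by
    intro n hn m
    induction m with
    | zero => simpa using hn
    | succ m ih =>
      have := step2 (n + m) ih
      push_cast
      rw [← add_assoc]; exact this
  have hH0 : ∀ n, 0 ≤ H n := fun n => measureReal_nonneg
  have hHs : Summable H := dua_summable _
  have hH1 : ∑' n, H n = 1 := by
    have h : ∑' i : ℤ, (Q ∗ G) {i} = 1 := by
      have h := lintegral_countable' (μ := Q ∗ G) (fun _ : ℤ => (1 : ℝ≥0∞))
      simp only [lintegral_const, measure_univ, mul_one, one_mul] at h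
      exact h.symm
    have h2 : (∑' i : ℤ, (Q ∗ G) {i}).toReal = ∑' i : ℤ, ((Q ∗ G) {i}).toReal :=
      ENNReal.tsum_toReal_eq (fun i => measure_ne_top _ _)
    rw [h, ENNReal.toReal_one] at h2
    exact h2.symm
  -- some `n` has `0 < H n`
  obtain ⟨p, hp⟩ : ∃ p, 0 < H p := by
    by_contra hcon
    push_neg at hcon
    have : ∀ n, H n = 0 := fun n => le_antisymm (hcon n) (hH0 n)
    have h0 : ∑' n, H n = 0 := by simp [this]
    rw [h0] at hH1
    exact zero_ne_one hH1
  -- some `n` has `D n ≤ 0`
  have step3 : ∃ k : ℕ, D (p + k) ≤ 0 := by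
    by_contra hcon
    push_neg at hcon
    have hinc : ∀ k : ℕ, H p ≤ H (p + k) := by
      intro k
      induction k with
      | zero => simp
      | succ k ih =>
        have := hcon (k + 1)
        simp only [D] at this
        push_cast at this ⊢
        have e : p + ((k : ℤ) + 1) - 1 = p + k := by ring
        rw [e] at this
        linarith
    have hs : Summable (fun k : ℕ => H (p + k)) :=
      hHs.comp_injective (i := fun k : ℕ => p + (k : ℤ)) (fun x y hxy => by simpa using hxy)
    have ht := hs.tendsto_atTop_zero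
    have := ge_of_tendsto' ht hinc
    linarith
  -- some `n` has `0 < D n`
  have step4 : ∃ k : ℕ, 0 < D (p - k) := by
    by_contra hcon
    push_neg at hcon
    have hinc : ∀ k : ℕ, H p ≤ H (p - k) := by
      intro k
      induction k with
      | zero => simp
      | succ k ih =>
        have := hcon k
        simp only [D] at this
        push_cast at this ⊢
        have e : p - ((k : ℤ) + 1) = p - k - 1 := by ring
        rw [e]
        linarith
    have hs : Summable (fun k : ℕ => H (p - k)) :=
      hHs.comp_injective (i := fun k : ℕ => p - (k : ℤ)) (fun x y hxy => by simpa using hxy)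
    have ht := hs.tendsto_atTop_zero
    have := ge_of_tendsto' ht hinc
    linarith
  obtain ⟨k0, hk0⟩ := step3
  obtain ⟨k1, hk1⟩ := step4
  -- the start `s = p - k1` has `0 < D s`
  have hex : ∃ k : ℕ, D (p - k1 + k) ≤ 0 := ⟨k1 + k0, by
    push_cast
    have e : p - (k1 : ℤ) + (k1 + k0) = p + k0 := by ring
    rw [e]; exact hk0⟩
  classical
  obtain ⟨k, hk, hmin⟩ : ∃ k : ℕ, D (p - k1 + k) ≤ 0 ∧ ∀ m < k, ¬ D (p - k1 + m) ≤ 0 :=
    ⟨Nat.find hex, Nat.find_spec hex, fun m hm => Nat.find_min hex hm⟩
  have hpos2 : ∀ n, n < p - k1 + k → 0 < D n := by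
    intro n hn
    by_contra hc
    push_neg at hc
    rcases le_or_gt n (p - k1) with h1 | h1
    · obtain ⟨m, hm⟩ : ∃ m : ℕ, (m : ℤ) = p - k1 - n :=
        ⟨(p - k1 - n).toNat, Int.toNat_of_nonneg (by omega)⟩
      have := hge n hc m
      rw [hm] at this
      have e : n + (p - k1 - n) = p - k1 := by ring
      rw [e] at this
      linarith
    · obtain ⟨m, hm⟩ : ∃ m : ℕ, (m : ℤ) = n - (p - k1) :=
        ⟨(n - (p - k1)).toNat, Int.toNat_of_nonneg (by omega)⟩
      have := hmin m (by omega)
      rw [hm] at this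
      have e : p - k1 + (n - (p - k1)) = n := by ring
      rw [e] at this
      exact this hc
  refine ⟨p - k1 + k - 1, ?_, ?_⟩
  · apply dua_mono
    intro n hn
    have := hpos2 n (by omega)
    simp only [D] at this
    linarith
  · apply dua_anti
    intro n hn
    obtain ⟨m, hm⟩ : ∃ m : ℕ, (m : ℤ) = n - (p - k1 + k) :=
      ⟨(n - (p - k1 + k)).toNat, Int.toNat_of_nonneg (by omega)⟩
    have := hge _ hk m
    rw [hm] at this
    have e : p - k1 + k + (n - (p - k1 + k)) = n := by ring
    rw [e] at this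
    simp only [D] at this
    linarith

end Pool.Agent.Lib.MP_a80c92_pr
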