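import Pool.Agent.Lib.MP_a80c92_pr.Defs2

/-! # JOB F/Den: densities of convolutions with exponential laws

PROOF. Mathlib: `Measure.conv_withDensity_eq_lconvolution` (MeasureTheory/Measure/WithDensity.lean,
`mconv_withDensity_eq_mlconvolution` additive version) and `lconvolution_def`: the convolution of
`withDensity f` and `withDensity g` has density `x ↦ ∫⁻ y, f y * g (-y + x)`. Here
`g z = 1_{z>0} ofReal (lam e^{-lam z})` (`withDensity` of a restricted measure:
`withDensity_indicator`), so the density is `∫⁻_{y<x} ofReal (h y) ofReal (lam e^{-lam(x-y)}) dy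
= ofReal (lam e^{-lam x} ∫_{y ≤ x} e^{lam y} h y dy) = ofReal (cvR lam h x)`
(`e^{lam y} h y ≤ e^{lam x} h y` integrable on `Iic x`; `ofReal_integral_eq_lintegral_ofReal`).
The left version: `(exL lam).map neg` has density `1_{z<0} lam e^{lam z}`, or apply the first part to
`h(-·)` and reflect. Alternatively prove both directly with `Measure.ext` and Tonelli. -/

open MeasureTheory Set Filter Topology ProbabilityTheory
open scoped ENNReal NNReal

namespace Pool.Agent.Lib.MP_a80c92_pr

private theorem Den_exL (lam : ℝ) : exL lam =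
    volume.withDensity ((Ioi (0 : ℝ)).indicator fun x => ENNReal.ofReal (lam * Real.exp (-(lam * x)))) := by
  unfold exL
  rw [withDensity_indicator measurableSet_Ioi]

private theorem Den_exL_neg (lam : ℝ) : (exL lam).map (fun x => -x) =
    volume.withDensity ((Iio (0 : ℝ)).indicator fun x => ENNReal.ofReal (lam * Real.exp (lam * x))) := by
  rw [Den_exL]
  have hm1 : Measurable ((Ioi (0 : ℝ)).indicator fun x => ENNReal.ofReal (lam * Real.exp (-(lam * x)))) :=
    Measurable.indicator (by fun_prop) measurableSet_Ioi
  have hm2 : Measurable ((Iio (0 : ℝ)).indicator fun x => ENNReal.ofReal (lam * Real.exp (lam * x))) :=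
    Measurable.indicator (by fun_prop) measurableSet_Iio
  refine Measure.ext_of_lintegral _ fun φ hφ => ?_
  rw [lintegral_map hφ measurable_neg, lintegral_withDensity_eq_lintegral_mul _ hm1 (show Measurable fun a => φ (-a) from hφ.comp measurable_neg),
    lintegral_withDensity_eq_lintegral_mul _ hm2 hφ, ← lintegral_neg_eq_self]
  refine lintegral_congr fun x => ?_
  simp only [Pi.mul_apply, neg_neg]
  by_cases hx : x < 0
  · rw [indicator_of_mem (show -x ∈ Ioi (0 : ℝ) from neg_pos.2 hx), indicator_of_mem (show x ∈ Iio (0 : ℝ) from hx)]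
    have e1 : -(lam * -x) = lam * x := by ring
    rw [e1]
  · rw [indicator_of_notMem (show -x ∉ Ioi (0 : ℝ) from fun h => hx (neg_pos.1 h)),
      indicator_of_notMem (show x ∉ Iio (0 : ℝ) from hx)]

theorem conv_exL (h : ℝ → ℝ) (hc : Continuous h) (h0 : ∀ x, 0 ≤ h x) (hi : Integrable h)
    (lam : ℝ) (hlam : 0 < lam) :
    (volume.withDensity (fun x => ENNReal.ofReal (h x))) ∗ exL lam =
      volume.withDensity (fun x => ENNReal.ofReal (cvR lam h x)) := by
  have hm1 : Measurable ((Ioi (0 : ℝ)).indicator fun x => ENNReal.ofReal (lam * Real.exp (-(lam * x)))) :=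
    Measurable.indicator (by fun_prop) measurableSet_Ioi
  have hm2 : Measurable fun x => ENNReal.ofReal (h x) := hc.measurable.ennreal_ofReal
  rw [Den_exL, conv_withDensity_eq_lconvolution hm2 hm1]
  congr 1
  funext x
  rw [lconvolution_def]
  have h1 : ∀ y : ℝ, ENNReal.ofReal (h y) *
      (Ioi (0 : ℝ)).indicator (fun x => ENNReal.ofReal (lam * Real.exp (-(lam * x)))) (-y + x) =
      (Iio x).indicator (fun y => ENNReal.ofReal (lam * Real.exp (-(lam * x)) * (Real.exp (lam * y) * h y))) y := by
    intro y
    by_cases hy : y < x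
    · rw [indicator_of_mem (show -y + x ∈ Ioi (0 : ℝ) from by
        rw [mem_Ioi]
        linarith), indicator_of_mem (show y ∈ Iio x from hy), ← ENNReal.ofReal_mul (h0 y)]
      have e1 : -(lam * (-y + x)) = -(lam * x) + lam * y := by ring
      rw [e1, Real.exp_add]
      congr 1
      ring
    · rw [indicator_of_notMem (show -y + x ∉ Ioi (0 : ℝ) from fun h => hy (by
        rw [mem_Ioi] at h
        linarith)), indicator_of_notMem (show y ∉ Iio x from hy), mul_zero]
  have hint : IntegrableOn (fun y => Real.exp (lam * y) * h y) (Iic x) := by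
    refine Integrable.mono' ((hi.integrableOn (s := Iic x)).const_mul (Real.exp (lam * x)))
      (Continuous.aestronglyMeasurable (by fun_prop)) ?_
    refine (ae_restrict_iff' measurableSet_Iic).2 (Eventually.of_forall fun y hy => ?_)
    rw [Real.norm_of_nonneg (mul_nonneg (Real.exp_pos _).le (h0 y))]
    exact mul_le_mul_of_nonneg_right (Real.exp_le_exp.2 (mul_le_mul_of_nonneg_left hy hlam.le)) (h0 y)
  rw [lintegral_congr h1, lintegral_indicator measurableSet_Iio, restrict_Iio_eq_restrict_Iic]
  unfold cvR HH
  rw [← integral_const_mul, ofReal_integral_eq_lintegral_ofReal (hint.const_mul _)]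
  exact Eventually.of_forall fun y =>
    mul_nonneg (mul_nonneg hlam.le (Real.exp_pos _).le) (mul_nonneg (Real.exp_pos _).le (h0 y))

theorem conv_exL_neg (h : ℝ → ℝ) (hc : Continuous h) (h0 : ∀ x, 0 ≤ h x) (hi : Integrable h)
    (lam : ℝ) (hlam : 0 < lam) :
    (volume.withDensity (fun x => ENNReal.ofReal (h x))) ∗ (exL lam).map (fun x => -x) =
      volume.withDensity (fun x => ENNReal.ofReal (cvL lam h x)) := by
  have hm1 : Measurable ((Iio (0 : ℝ)).indicator fun x => ENNReal.ofReal (lam * Real.exp (lam * x))) :=
    Measurable.indicator (by fun_prop) measurableSet_Iio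
  have hm2 : Measurable fun x => ENNReal.ofReal (h x) := hc.measurable.ennreal_ofReal
  rw [Den_exL_neg, conv_withDensity_eq_lconvolution hm2 hm1]
  congr 1
  funext x
  rw [lconvolution_def]
  have h1 : ∀ y : ℝ, ENNReal.ofReal (h y) *
      (Iio (0 : ℝ)).indicator (fun x => ENNReal.ofReal (lam * Real.exp (lam * x))) (-y + x) =
      (Ioi x).indicator (fun y => ENNReal.ofReal (lam * Real.exp (lam * x) * (Real.exp (-(lam * y)) * h y))) y := by
    intro y
    by_cases hy : x < y
    · rw [indicator_of_mem (show -y + x ∈ Iio (0 : ℝ) from by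
        rw [mem_Iio]
        linarith), indicator_of_mem (show y ∈ Ioi x from hy), ← ENNReal.ofReal_mul (h0 y)]
      have e1 : lam * (-y + x) = lam * x + -(lam * y) := by ring
      rw [e1, Real.exp_add]
      congr 1
      ring
    · rw [indicator_of_notMem (show -y + x ∉ Iio (0 : ℝ) from fun h => hy (by
        rw [mem_Iio] at h
        linarith)), indicator_of_notMem (show y ∉ Ioi x from hy), mul_zero]
  have hint : IntegrableOn (fun y => Real.exp (-(lam * y)) * h y) (Ioi x) := by
    refine Integrable.mono' ((hi.integrableOn (s := Ioi x)).const_mul (Real.exp (-(lam * x))))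
      (Continuous.aestronglyMeasurable (by fun_prop)) ?_
    refine (ae_restrict_iff' measurableSet_Ioi).2 (Eventually.of_forall fun y hy => ?_)
    rw [Real.norm_of_nonneg (mul_nonneg (Real.exp_pos _).le (h0 y))]
    exact mul_le_mul_of_nonneg_right
      (Real.exp_le_exp.2 (neg_le_neg (mul_le_mul_of_nonneg_left (le_of_lt hy) hlam.le))) (h0 y)
  rw [lintegral_congr h1, lintegral_indicator measurableSet_Ioi]
  unfold cvL KK
  rw [← integral_const_mul, ofReal_integral_eq_lintegral_ofReal (hint.const_mul _)]
  exact Eventually.of_forall fun y =>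
    mul_nonneg (mul_nonneg hlam.le (Real.exp_pos _).le) (mul_nonneg (Real.exp_pos _).le (h0 y))

end Pool.Agent.Lib.MP_a80c92_pr
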