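import Pool.Agent.Lib.MP_a80c92_pr.Defs2

/-! # JOB F/ExA: the exponential law and its characteristic function

PROOF. `∫_0^∞ lam e^{-lam x} dx = 1` (`integral_exp_mul_Ioi`-type lemmas; or use Mathlib's
`ProbabilityTheory.expMeasure`). `charFun = ∫_0^∞ lam e^{-(lam - t i) x} dx = lam/(lam - t i)`
(`integral_exp_mul_complex_Ioi` or similar). `frullani`: let
`E t = ∫_0^∞ (e^{itx} - 1) e^{-lam x}/x dx` (integrand bounded by `|t| e^{-lam x}`); by
`hasDerivAt_integral_of_dominated_loc_of_deriv_le` its derivative in `t` is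
`i ∫_0^∞ e^{itx - lam x} dx = i/(lam - t i)` (integrand bounded by `e^{-lam x}`). The function
`t ↦ exp (E t) (lam - t i)` has derivative `exp (E t) (i/(lam - ti) (lam - ti) - i) = 0`, value `lam` at
`0`, so it is constant (`is_const_of_deriv_eq_zero`). -/

open MeasureTheory Set Filter Topology ProbabilityTheory
open scoped ENNReal NNReal

namespace Pool.Agent.Lib.MP_a80c92_pr

private theorem ExA_int (lam : ℝ) (hlam : 0 < lam) :
    IntegrableOn (fun x : ℝ => Real.exp (-(lam * x))) (Ioi 0) := by
  have h := integrableOn_exp_mul_Ioi (a := -lam) (by linarith) 0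
  refine h.congr_fun (fun x _ => ?_) measurableSet_Ioi
  show Real.exp (-lam * x) = Real.exp (-(lam * x))
  rw [neg_mul]

private theorem ExA_ne (lam : ℝ) (hlam : 0 < lam) (t : ℝ) : (lam : ℂ) - t * Complex.I ≠ 0 := by
  intro h
  have h1 := congrArg Complex.re h
  simp at h1
  exact hlam.ne' h1

private theorem ExA_cint (lam : ℝ) (hlam : 0 < lam) (t : ℝ) :
    ∫ x in Ioi (0 : ℝ), Complex.exp (t * x * Complex.I) * ((Real.exp (-(lam * x)) : ℝ) : ℂ) =
      1 / (lam - t * Complex.I) := by
  have hre : (-(lam : ℂ) + t * Complex.I).re < 0 := by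
    simp
    exact hlam
  have h := integral_exp_mul_complex_Ioi hre 0
  have e1 : ∀ x : ℝ, Complex.exp (t * x * Complex.I) * ((Real.exp (-(lam * x)) : ℝ) : ℂ) =
      Complex.exp ((-(lam : ℂ) + t * Complex.I) * x) := by
    intro x
    rw [Complex.ofReal_exp, ← Complex.exp_add]
    congr 1
    push_cast
    ring
  simp only [e1]
  rw [h, Complex.ofReal_zero, mul_zero, Complex.exp_zero]
  have h2 := ExA_ne lam hlam t
  have h3 : -(lam : ℂ) + t * Complex.I = -(lam - t * Complex.I) := by ring
  rw [h3, neg_div_neg_eq]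

theorem isProb_exL (lam : ℝ) (hlam : 0 < lam) : IsProbabilityMeasure (exL lam) := by
  constructor
  unfold exL
  rw [withDensity_apply _ MeasurableSet.univ, Measure.restrict_univ,
    ← ofReal_integral_eq_lintegral_ofReal ((ExA_int lam hlam).const_mul lam)
      (ae_of_all _ fun x => by positivity)]
  have h := integral_exp_mul_Ioi (a := -lam) (by linarith) 0
  have e1 : ∫ x in Ioi (0 : ℝ), lam * Real.exp (-(lam * x)) = 1 := by
    rw [integral_const_mul]
    have e2 : ∀ x : ℝ, Real.exp (-(lam * x)) = Real.exp (-lam * x) := fun x => by rw [neg_mul]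
    simp only [e2]
    rw [h, mul_zero, Real.exp_zero, neg_div_neg_eq, mul_one_div, div_self hlam.ne']
  rw [e1, ENNReal.ofReal_one]

theorem charFun_exL (lam : ℝ) (hlam : 0 < lam) (t : ℝ) :
    charFun (exL lam) t = lam / (lam - t * Complex.I) := by
  rw [charFun_apply_real]
  unfold exL
  rw [integral_withDensity_eq_integral_toReal_smul (by fun_prop) (ae_of_all _ fun x => ENNReal.ofReal_lt_top)]
  have e1 : ∀ x : ℝ, (ENNReal.ofReal (lam * Real.exp (-(lam * x)))).toReal • Complex.exp (t * x * Complex.I) =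
      (lam : ℂ) * (Complex.exp (t * x * Complex.I) * ((Real.exp (-(lam * x)) : ℝ) : ℂ)) := by
    intro x
    rw [ENNReal.toReal_ofReal (by positivity), Complex.real_smul]
    push_cast
    ring
  simp only [e1]
  rw [integral_const_mul, ExA_cint lam hlam t, mul_one_div]

private noncomputable def ExA_F (lam t x : ℝ) : ℂ :=
  (Complex.exp (t * x * Complex.I) - 1) * ((Real.exp (-(lam * x)) / x : ℝ) : ℂ)

private noncomputable def ExA_G (lam t x : ℝ) : ℂ :=
  Complex.exp (t * x * Complex.I) * (x * Complex.I) * ((Real.exp (-(lam * x)) / x : ℝ) : ℂ)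

private theorem ExA_der (lam t x : ℝ) : HasDerivAt (fun t => ExA_F lam t x) (ExA_G lam t x) t := by
  unfold ExA_F ExA_G
  have h1 : HasDerivAt (fun t : ℝ => (t : ℂ) * x * Complex.I) (x * Complex.I) t := by
    have h2 : HasDerivAt (fun t : ℝ => (t : ℂ)) 1 t := Complex.ofRealCLM.hasDerivAt
    have h3 := (h2.mul_const (x : ℂ)).mul_const Complex.I
    rwa [one_mul] at h3
  exact (h1.cexp.sub_const 1).mul_const _

private theorem ExA_Fint (lam : ℝ) (hlam : 0 < lam) (t : ℝ) : IntegrableOn (ExA_F lam t) (Ioi 0) := by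
  refine Integrable.mono' ((ExA_int lam hlam).const_mul |t|) ?_ ?_
  · unfold ExA_F
    exact Measurable.aestronglyMeasurable (by fun_prop)
  · rw [ae_restrict_iff' measurableSet_Ioi]
    refine ae_of_all _ fun x hx => ?_
    have hx : 0 < x := hx
    unfold ExA_F
    have h1 : ‖Complex.exp (t * x * Complex.I) - 1‖ ≤ |t| * x := by
      have h2 := Real.norm_exp_I_mul_ofReal_sub_one_le (x := t * x)
      have h3 : (t : ℂ) * x * Complex.I = Complex.I * ((t * x : ℝ) : ℂ) := by
        push_cast
        ring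
      rw [h3]
      refine h2.trans (le_of_eq ?_)
      rw [Real.norm_eq_abs, abs_mul, abs_of_pos hx]
    rw [norm_mul, Complex.norm_real, Real.norm_eq_abs, abs_of_pos (div_pos (Real.exp_pos _) hx)]
    calc ‖Complex.exp (t * x * Complex.I) - 1‖ * (Real.exp (-(lam * x)) / x)
        ≤ (|t| * x) * (Real.exp (-(lam * x)) / x) := by gcongr
      _ = |t| * Real.exp (-(lam * x)) := by
        field_simp

private theorem ExA_E (lam : ℝ) (hlam : 0 < lam) (t : ℝ) :
    HasDerivAt (fun t => ∫ x in Ioi (0 : ℝ), ExA_F lam t x) (Complex.I / (lam - t * Complex.I)) t := by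
  have h := (hasDerivAt_integral_of_dominated_loc_of_deriv_le (μ := volume.restrict (Ioi (0 : ℝ)))
    (F := ExA_F lam) (F' := ExA_G lam) (x₀ := t) (bound := fun x => Real.exp (-(lam * x))) Filter.univ_mem
    (Filter.Eventually.of_forall fun t => (ExA_Fint lam hlam t).aestronglyMeasurable)
    (ExA_Fint lam hlam t)
    (by
      unfold ExA_G
      exact Measurable.aestronglyMeasurable (by fun_prop))
    (by
      rw [ae_restrict_iff' measurableSet_Ioi]
      refine ae_of_all _ fun x hx s _ => ?_
      have hx : 0 < x := hx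
      unfold ExA_G
      have h3 : (s : ℂ) * x * Complex.I = ((s * x : ℝ) : ℂ) * Complex.I := by
        push_cast
        ring
      rw [norm_mul, norm_mul, norm_mul, h3, Complex.norm_exp_ofReal_mul_I, Complex.norm_real, Complex.norm_I,
        Complex.norm_real, Real.norm_eq_abs, Real.norm_eq_abs, abs_of_pos hx,
        abs_of_pos (div_pos (Real.exp_pos _) hx), mul_one, one_mul, mul_div_cancel₀ _ hx.ne'])
    (ExA_int lam hlam)
    (ae_of_all _ fun x s _ => ExA_der lam s x)).2
  have e : ∫ x in Ioi (0 : ℝ), ExA_G lam t x = Complex.I / (lam - t * Complex.I) := by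
    have e1 : ∫ x in Ioi (0 : ℝ), ExA_G lam t x = ∫ x in Ioi (0 : ℝ),
        Complex.I * (Complex.exp (t * x * Complex.I) * ((Real.exp (-(lam * x)) : ℝ) : ℂ)) := by
      refine setIntegral_congr_fun measurableSet_Ioi fun x hx => ?_
      have hx : (x : ℂ) ≠ 0 := Complex.ofReal_ne_zero.2 (ne_of_gt hx)
      show ExA_G lam t x = _
      unfold ExA_G
      rw [Complex.ofReal_div]
      field_simp
    rw [e1, integral_const_mul, ExA_cint lam hlam t, mul_one_div]
  rw [e] at h
  exact h

theorem frullani (lam : ℝ) (hlam : 0 < lam) (t : ℝ) :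
    Complex.exp (∫ x in Ioi (0 : ℝ), (Complex.exp (t * x * Complex.I) - 1) *
      ((Real.exp (-(lam * x)) / x : ℝ) : ℂ)) = lam / (lam - t * Complex.I) := by
  have hder : ∀ s : ℝ, HasDerivAt (fun s : ℝ => Complex.exp (∫ x in Ioi (0 : ℝ), ExA_F lam s x) *
      (lam - s * Complex.I)) 0 s := by
    intro s
    have h1 := (ExA_E lam hlam s).cexp
    have h2 : HasDerivAt (fun s : ℝ => (lam : ℂ) - s * Complex.I) (-Complex.I) s := by
      have h3 : HasDerivAt (fun s : ℝ => (s : ℂ)) 1 s := Complex.ofRealCLM.hasDerivAt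
      have h4 := (h3.mul_const Complex.I).const_sub (lam : ℂ)
      rwa [one_mul] at h4
    have h5 := h1.mul h2
    have h6 := ExA_ne lam hlam s
    have e : Complex.exp (∫ x in Ioi (0 : ℝ), ExA_F lam s x) * (Complex.I / (lam - s * Complex.I)) *
        (lam - s * Complex.I) + Complex.exp (∫ x in Ioi (0 : ℝ), ExA_F lam s x) * (-Complex.I) = 0 := by
      rw [mul_assoc, div_mul_cancel₀ _ h6]
      ring
    rw [e] at h5
    exact h5
  have hc := is_const_of_deriv_eq_zero (fun s => (hder s).differentiableAt) (fun s => (hder s).deriv) t 0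
  have h0 : ∫ x in Ioi (0 : ℝ), ExA_F lam 0 x = 0 := by
    have : ∀ x : ℝ, ExA_F lam 0 x = 0 := by
      intro x
      unfold ExA_F
      rw [Complex.ofReal_zero, zero_mul, zero_mul, Complex.exp_zero, sub_self, zero_mul]
    simp only [this, integral_zero]
  simp only [h0, Complex.exp_zero, Complex.ofReal_zero, zero_mul, sub_zero, one_mul] at hc
  rw [eq_div_iff (ExA_ne lam hlam t)]
  exact hc

end Pool.Agent.Lib.MP_a80c92_pr
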