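import Pool.Agent.Lib.MP_a80c92_pr.F.ExA
import Pool.Agent.Lib.MP_a80c92_pr.LkA
import Pool.Agent.Lib.MP_a80c92_pr.LatC

/-! # JOB F/ExB: the triple of the exponential law

PROOF. `k x = e^{-lam x}`, `ν = levyOf k 0` has density `e^{-lam x}/x` on `(0, ∞)` and `0` elsewhere
(the second summand of `levyOf` has density `ofReal (0/..) = 0`). `isLevy_exp`: `ν {0} = 0`,
`∫ min(1,x²) dν ≤ ∫_0^∞ x² e^{-lam x}/x dx = ∫_0^∞ x e^{-lam x} dx < ∞`. `∫ lk t dν =
∫_0^∞ (e^{itx} - 1 - itx 1_{x<1}) e^{-lam x}/x dx = ∫_0^∞ (e^{itx}-1) e^{-lam x}/x dx -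
i t ∫_0^1 e^{-lam x} dx`; with `c = ∫_0^1 e^{-lam x} dx`: `charFun = exp (c t i + ∫ lk t dν)` by
`charFun_exL` and `frullani`. `levyOf_add`: `levyOf kR kL = levyOf kR 0 + levyOf 0 kL`.
`isLevy_add`, `integral_lk_add`: sums of measures (`integral_add_measure`, `integrable_lk`). -/

open MeasureTheory Set Filter Topology ProbabilityTheory
open scoped ENNReal NNReal

namespace Pool.Agent.Lib.MP_a80c92_pr

private theorem ExB_right (f : ℝ → ℝ) :
    levyOf f 0 = (volume.restrict (Ioi 0)).withDensity (fun x => ENNReal.ofReal (f x / x)) := by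
  unfold levyOf
  have h : (fun x : ℝ => ENNReal.ofReal ((0 : ℝ → ℝ) (-x) / (-x))) = 0 := by
    funext x
    rw [Pi.zero_apply, zero_div, ENNReal.ofReal_zero]
    rfl
  rw [h, withDensity_zero, add_zero]

private theorem ExB_left (f : ℝ → ℝ) :
    levyOf 0 f = (volume.restrict (Iio 0)).withDensity (fun x => ENNReal.ofReal (f (-x) / (-x))) := by
  unfold levyOf
  have h : (fun x : ℝ => ENNReal.ofReal ((0 : ℝ → ℝ) x / x)) = 0 := by
    funext x
    rw [Pi.zero_apply, zero_div, ENNReal.ofReal_zero]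
    rfl
  rw [h, withDensity_zero, zero_add]

private theorem ExB_meas (lam : ℝ) : Measurable fun x : ℝ => ENNReal.ofReal (Real.exp (-(lam * x)) / x) := by
  have h1 : Measurable fun x : ℝ => Real.exp (-(lam * x)) := by fun_prop
  exact (h1.div measurable_id).ennreal_ofReal

private theorem ExB_int (lam : ℝ) (hlam : 0 < lam) : IntegrableOn (fun x : ℝ => Real.exp (-(lam * x))) (Ioi 0) := by
  have h := exp_neg_integrableOn_Ioi 0 hlam
  refine h.congr_fun (fun x _ => ?_) measurableSet_Ioi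
  show Real.exp (-lam * x) = Real.exp (-(lam * x))
  rw [neg_mul]

theorem isLevy_exp (lam : ℝ) (hlam : 0 < lam) :
    IsLevy (levyOf (fun x => Real.exp (-(lam * x))) 0) := by
  rw [ExB_right]
  constructor
  · refine withDensity_absolutelyContinuous _ _ ?_
    rw [Measure.restrict_apply (measurableSet_singleton 0)]
    exact measure_mono_null inter_subset_left Real.volume_singleton
  · have hm : Measurable fun x : ℝ => ENNReal.ofReal (min 1 (x ^ 2)) :=
      (measurable_const.min (measurable_id.pow_const 2)).ennreal_ofReal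
    rw [lintegral_withDensity_eq_lintegral_mul _ (ExB_meas lam) hm]
    have h1 : ∫⁻ x in Ioi (0 : ℝ), ENNReal.ofReal (Real.exp (-(lam * x))) < ∞ := by
      have h2 := (ExB_int lam hlam).2
      rw [hasFiniteIntegral_iff_ofReal (ae_of_all _ fun x => (Real.exp_pos _).le)] at h2
      exact h2
    refine lt_of_le_of_lt (setLIntegral_mono' measurableSet_Ioi fun x hx => ?_) h1
    have hx0 : 0 < x := hx
    show ENNReal.ofReal (Real.exp (-(lam * x)) / x) * ENNReal.ofReal (min 1 (x ^ 2)) ≤ _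
    rw [← ENNReal.ofReal_mul (div_nonneg (Real.exp_pos _).le hx0.le)]
    refine ENNReal.ofReal_le_ofReal ?_
    have h3 : min 1 (x ^ 2) ≤ x := by
      rcases le_total x 1 with h | h
      · refine (min_le_right _ _).trans ?_
        rw [pow_two]
        exact mul_le_of_le_one_left hx0.le h
      · exact (min_le_left _ _).trans h
    calc Real.exp (-(lam * x)) / x * min 1 (x ^ 2) ≤ Real.exp (-(lam * x)) / x * x :=
          mul_le_mul_of_nonneg_left h3 (div_nonneg (Real.exp_pos _).le hx0.le)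
      _ = Real.exp (-(lam * x)) := div_mul_cancel₀ _ hx0.ne'

theorem hasTriple_exL (lam : ℝ) (hlam : 0 < lam) :
    ∃ c : ℝ, HasTriple (exL lam) c 0 (levyOf (fun x => Real.exp (-(lam * x))) 0) := by
  have hL := isLevy_exp lam hlam
  refine ⟨∫ x in Ioi (0 : ℝ), (if |x| < 1 then Real.exp (-(lam * x)) else 0), le_rfl, hL, fun t => ?_⟩
  have hI := integrable_lk _ hL t
  rw [ExB_right] at hI ⊢
  have hfin : ∀ᵐ x ∂(volume.restrict (Ioi (0 : ℝ))), ENNReal.ofReal (Real.exp (-(lam * x)) / x) < ∞ :=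
    ae_of_all _ fun x => ENNReal.ofReal_lt_top
  rw [integrable_withDensity_iff_integrable_smul' (ExB_meas lam) hfin] at hI
  have hJ : IntegrableOn (fun x : ℝ => (if |x| < 1 then Real.exp (-(lam * x)) else 0)) (Ioi 0) := by
    refine (ExB_int lam hlam).mono' ?_ (ae_of_all _ fun x => ?_)
    · refine Measurable.aestronglyMeasurable ?_
      exact Measurable.ite (measurableSet_lt continuous_abs.measurable measurable_const) (by fun_prop) measurable_const
    · show ‖(if |x| < 1 then Real.exp (-(lam * x)) else 0)‖ ≤ _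
      split_ifs
      · rw [Real.norm_eq_abs, abs_of_pos (Real.exp_pos _)]
      · rw [norm_zero]
        exact (Real.exp_pos _).le
  have hJc : IntegrableOn (fun x : ℝ => ((if |x| < 1 then Real.exp (-(lam * x)) else 0 : ℝ) : ℂ) * (t * Complex.I)) (Ioi 0) :=
    (hJ.ofReal (𝕜 := ℂ)).mul_const _
  have e1 : ∫ x, lk t x ∂((volume.restrict (Ioi (0 : ℝ))).withDensity
      (fun x => ENNReal.ofReal (Real.exp (-(lam * x)) / x))) =
      ∫ x in Ioi (0 : ℝ), (ENNReal.ofReal (Real.exp (-(lam * x)) / x)).toReal • lk t x :=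
    integral_withDensity_eq_integral_toReal_smul (ExB_meas lam) hfin _
  have e2 : ∫ x in Ioi (0 : ℝ), ((if |x| < 1 then Real.exp (-(lam * x)) else 0 : ℝ) : ℂ) * (t * Complex.I) =
      ((∫ x in Ioi (0 : ℝ), (if |x| < 1 then Real.exp (-(lam * x)) else 0) : ℝ) : ℂ) * (t * Complex.I) := by
    rw [integral_mul_const]
    exact congrArg (fun z : ℂ => z * (t * Complex.I)) integral_complex_ofReal
  have e3 : ∫ x in Ioi (0 : ℝ), (Complex.exp (t * x * Complex.I) - 1) * ((Real.exp (-(lam * x)) / x : ℝ) : ℂ) =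
      ∫ x in Ioi (0 : ℝ), ((ENNReal.ofReal (Real.exp (-(lam * x)) / x)).toReal • lk t x +
        ((if |x| < 1 then Real.exp (-(lam * x)) else 0 : ℝ) : ℂ) * (t * Complex.I)) := by
    refine setIntegral_congr_fun measurableSet_Ioi fun x hx => ?_
    have hx0 : 0 < x := hx
    have hxc : (x : ℂ) ≠ 0 := Complex.ofReal_ne_zero.2 hx0.ne'
    show (Complex.exp (t * x * Complex.I) - 1) * ((Real.exp (-(lam * x)) / x : ℝ) : ℂ) = _
    rw [ENNReal.toReal_ofReal (div_nonneg (Real.exp_pos _).le hx0.le), Complex.real_smul]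
    unfold lk
    split_ifs with h
    · rw [Complex.ofReal_div]
      field_simp
      ring
    · rw [Complex.ofReal_zero, zero_mul, add_zero, sub_zero]
      ring
  rw [charFun_exL lam hlam t, ← frullani lam hlam t, e3, integral_add hI hJc, e2, e1]
  congr 1
  push_cast
  ring

theorem levyOf_add (kR kL : ℝ → ℝ) : levyOf kR kL = levyOf kR 0 + levyOf 0 kL := by
  rw [ExB_right, ExB_left]
  rfl

theorem isLevy_add (ν₁ ν₂ : Measure ℝ) (h₁ : IsLevy ν₁) (h₂ : IsLevy ν₂) :
    IsLevy (ν₁ + ν₂) := by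
  refine ⟨?_, ?_⟩
  · rw [Measure.add_apply, h₁.zero, h₂.zero, add_zero]
  · rw [lintegral_add_measure]
    exact ENNReal.add_lt_top.2 ⟨h₁.fin, h₂.fin⟩

theorem isLevy_of_add (ν₁ ν₂ : Measure ℝ) (h : IsLevy (ν₁ + ν₂)) : IsLevy ν₁ := by
  refine ⟨?_, ?_⟩
  · have h1 := h.zero
    rw [Measure.add_apply, add_eq_zero] at h1
    exact h1.1
  · have h1 := h.fin
    rw [lintegral_add_measure] at h1
    exact (ENNReal.add_lt_top.1 h1).1

theorem integral_lk_add (ν₁ ν₂ : Measure ℝ) (h₁ : IsLevy ν₁) (h₂ : IsLevy ν₂) (t : ℝ) :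
    ∫ x, lk t x ∂(ν₁ + ν₂) = (∫ x, lk t x ∂ν₁) + ∫ x, lk t x ∂ν₂ := by
  exact integral_add_measure (integrable_lk ν₁ h₁ t) (integrable_lk ν₂ h₂ t)

end Pool.Agent.Lib.MP_a80c92_pr
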