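import Pool.Agent.Lib.MP_a80c92_pr.F.G012
import Pool.Agent.Lib.MP_a80c92_pr.Gd

/-! # JOB F/HdA: `hd v P` is the density of `P ∗ N(0, v)`

PROOF. `gaussianPDFReal 0 v (x - y) = (√(2πv))⁻¹ e^{-(x-y)²/(2v)}
= e^{-x²/(2v)}/√(2πv) · e^{(xy - y²/2)/v}`, so `hd v P x = ∫ gaussianPDFReal 0 v (x - y) dP(y)`. Then
as in Gd.lean (complete, `conv_gauss`, variance 1 there): the convolution is
`withDensity` of this function. `hd_int`: its integral is 1 (probability measure). `hd_bdd`:
`gaussianPDFReal ≤ (√(2πv))⁻¹`. -/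

open MeasureTheory Set Filter Topology ProbabilityTheory
open scoped ENNReal NNReal

namespace Pool.Agent.Lib.MP_a80c92_pr

variable (v : ℝ) (P : Measure ℝ) [IsProbabilityMeasure P]

private theorem HdA_pt (v : ℝ) (hv : 0 < v) (x y : ℝ) :
    gaussianPDFReal 0 (Real.toNNReal v) (x - y) =
      Real.exp (-(x ^ 2) / (2 * v)) / Real.sqrt (2 * Real.pi * v) * gx v x y := by
  rw [gaussianPDFReal_def]
  simp only
  unfold gx
  have e : -(x - y - 0) ^ 2 / (2 * v) = -(x ^ 2) / (2 * v) + (x * y - y ^ 2 / 2) / v := by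
    field_simp
    ring
  rw [Real.coe_toNNReal v hv.le, e, Real.exp_add]
  ring

private theorem HdA_int (hv : 0 < v) (x : ℝ) :
    Integrable (fun y => gaussianPDFReal 0 (Real.toNNReal v) (x - y)) P := by
  have h := (int_g0 v P hv x).const_mul (Real.exp (-(x ^ 2) / (2 * v)) / Real.sqrt (2 * Real.pi * v))
  refine h.congr (ae_of_all _ fun y => ?_)
  exact (HdA_pt v hv x y).symm

private theorem HdA_cont (hv : 0 < v) : Continuous (hd v P) :=
  continuous_iff_continuousAt.2 fun x => (hd_deriv v P hv x).continuousAt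

theorem hd_eq (hv : 0 < v) (x : ℝ) :
    hd v P x = ∫ y, gaussianPDFReal 0 (Real.toNNReal v) (x - y) ∂P := by
  unfold hd g0
  rw [← integral_const_mul]
  exact integral_congr_ae (ae_of_all _ fun y => (HdA_pt v hv x y).symm)

theorem conv_hd (hv : 0 < v) :
    P ∗ gaussianReal 0 (Real.toNNReal v) =
      volume.withDensity (fun x => ENNReal.ofReal (hd v P x)) := by
  have hv' : Real.toNNReal v ≠ 0 := (Real.toNNReal_pos.2 hv).ne'
  have hm : Measurable fun x : ℝ => ENNReal.ofReal (gaussianPDFReal 0 (Real.toNNReal v) x) :=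
    ENNReal.measurable_ofReal.comp (measurable_gaussianPDFReal 0 (Real.toNNReal v))
  have hg : Measurable fun x : ℝ => ENNReal.ofReal (hd v P x) :=
    ENNReal.measurable_ofReal.comp (HdA_cont v P hv).measurable
  refine Measure.ext_of_lintegral _ fun f hf => ?_
  rw [lintegral_withDensity_eq_lintegral_mul _ hg hf, Measure.lintegral_conv hf]
  have h1 : ∀ x : ℝ, ∫⁻ y, f (x + y) ∂(gaussianReal 0 (Real.toNNReal v)) =
      ∫⁻ z, ENNReal.ofReal (gaussianPDFReal 0 (Real.toNNReal v) (z - x)) * f z := by
    intro x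
    have hfx : Measurable fun y : ℝ => f (x + y) := hf.comp (measurable_const.add measurable_id)
    rw [gaussianReal_of_var_ne_zero 0 hv', gaussianPDF_def,
      lintegral_withDensity_eq_lintegral_mul _ hm hfx]
    rw [← lintegral_sub_right_eq_self (fun y => ((fun x : ℝ =>
      ENNReal.ofReal (gaussianPDFReal 0 (Real.toNNReal v) x)) * fun y => f (x + y)) y) x]
    refine lintegral_congr fun z => ?_
    simp only [Pi.mul_apply]
    rw [add_sub_cancel]
  simp only [h1]
  rw [lintegral_lintegral_swap]
  · refine lintegral_congr fun z => ?_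
    rw [lintegral_mul_const]
    · simp only [Pi.mul_apply]
      congr 1
      rw [hd_eq v P hv z, ofReal_integral_eq_lintegral_ofReal (HdA_int v P hv z)
        (Eventually.of_forall fun y => gaussianPDFReal_nonneg 0 _ (z - y))]
    · exact hm.comp (measurable_const.sub measurable_id)
  · refine Measurable.aemeasurable ?_
    exact (hm.comp (measurable_snd.sub measurable_fst)).mul (hf.comp measurable_snd)

theorem hd_int (hv : 0 < v) : Integrable (hd v P) := by
  rw [← lintegral_ofReal_ne_top_iff_integrable (HdA_cont v P hv).aestronglyMeasurable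
    (Eventually.of_forall fun x => (hd_pos v P hv x).le)]
  have h1 : (P ∗ gaussianReal 0 (Real.toNNReal v)) univ = ∫⁻ a, ENNReal.ofReal (hd v P a) := by
    rw [conv_hd v P hv, withDensity_apply _ MeasurableSet.univ, Measure.restrict_univ]
  rw [← h1]
  exact measure_ne_top _ _

end Pool.Agent.Lib.MP_a80c92_pr
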