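import Pool.Agent.Lib.MP_a80c92_pr.F.Bnd1
import Pool.Agent.Lib.MP_a80c92_pr.F.Bnd2

/-! # JOB F/Stp: the density of centred compound Poisson plus a large Gaussian is `Steep`

PROOF. `s = lam v + 1 + u0c ≤ (lam+1) v` since `v ≥ 1 + u0c`. `pos`, `der`, `cont` from G012.lean,
`anti`: `ell_anti` and `bnd_c`. `right`: `bnd_b` gives `g1/g0 ≤ x - lam v`, so
`ell = -(x - g1/g0)/v ≤ -lam`. `left` by reflection: `r' = r.map (fun y => -y)` satisfies `BJ r' b V`,
`ccp r' = (ccp r).map (fun y => -y)` (`cpow` of an image measure under the additive map `neg` is the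
image; or by `Measure.ext_of_charFun` and `charFun_ccp`), `g0 v (P.map neg) x = g0 v P (-x)`,
`g1 v (P.map neg) x = - g1 v P (-x)`, so `ell v (P.map neg) x = - ell v P (-x)`. -/

open MeasureTheory Set Filter Topology ProbabilityTheory
open scoped ENNReal NNReal

namespace Pool.Agent.Lib.MP_a80c92_pr

theorem Stp_gx (v x y : ℝ) : gx v x (-y) = gx v (-x) y := by
  unfold gx
  congr 2
  ring

theorem Stp_map {E : Type*} [NormedAddCommGroup E] [NormedSpace ℝ E] (P : Measure ℝ) (f : ℝ → E) :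
    ∫ y, f y ∂(P.map (fun y => -y)) = ∫ y, f (-y) ∂P :=
  (Homeomorph.neg ℝ).measurableEmbedding.integral_map f

theorem Stp_g0 (v : ℝ) (P : Measure ℝ) (x : ℝ) : g0 v (P.map (fun y => -y)) x = g0 v P (-x) := by
  unfold g0
  rw [Stp_map]
  exact integral_congr_ae (Eventually.of_forall fun y => Stp_gx v x y)

theorem Stp_g1 (v : ℝ) (P : Measure ℝ) (x : ℝ) : g1 v (P.map (fun y => -y)) x = -g1 v P (-x) := by
  unfold g1
  rw [Stp_map, ← integral_neg]
  refine integral_congr_ae (Eventually.of_forall fun y => ?_)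
  change -y * gx v x (-y) = -(y * gx v (-x) y)
  rw [Stp_gx]
  ring

theorem Stp_ell (v : ℝ) (P : Measure ℝ) (x : ℝ) : ell v (P.map (fun y => -y)) x = -ell v P (-x) := by
  unfold ell
  rw [Stp_g0, Stp_g1]
  ring

theorem Stp_BJ (r : Measure ℝ) (b V : ℝ) (hr : BJ r b V) : BJ (r.map (fun y => -y)) b V := by
  have := hr.fin
  refine ⟨inferInstance, ?_, ?_⟩
  · rw [ae_map_iff measurable_neg.aemeasurable (measurableSet_le continuous_abs.measurable measurable_const)]
    filter_upwards [hr.supp] with y hy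
    rwa [abs_neg]
  · rw [Stp_map]
    refine le_trans (le_of_eq ?_) hr.var
    refine integral_congr_ae (Eventually.of_forall fun y => ?_)
    change (-y) ^ 2 = y ^ 2
    rw [neg_sq]

theorem Stp_ccp (r : Measure ℝ) (b V : ℝ) (hr : BJ r b V) :
    ccp (r.map (fun y => -y)) = (ccp r).map (fun y => -y) := by
  have := hr.fin
  have := ccp_prob r
  have := ccp_prob (r.map (fun y => -y))
  have : IsProbabilityMeasure ((ccp r).map (fun y => -y)) := Measure.isProbabilityMeasure_map measurable_neg.aemeasurable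
  refine Measure.ext_of_charFun ?_
  funext t
  have h1 : charFun ((ccp r).map (fun y => -y)) t = charFun (ccp r) (-t) := by
    rw [charFun_apply_real, charFun_apply_real, Stp_map]
    refine integral_congr_ae (Eventually.of_forall fun y => ?_)
    change Complex.exp (t * ((-y : ℝ) : ℂ) * Complex.I) = Complex.exp (((-t : ℝ) : ℂ) * y * Complex.I)
    congr 1
    push_cast
    ring
  rw [h1, charFun_ccp _ b V (Stp_BJ r b V hr), charFun_ccp r b V hr,
    Stp_map]
  congr 1
  refine integral_congr_ae (Eventually.of_forall fun y => ?_)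
  change Complex.exp (t * ((-y : ℝ) : ℂ) * Complex.I) - 1 - t * ((-y : ℝ) : ℂ) * Complex.I =
    Complex.exp (((-t : ℝ) : ℂ) * y * Complex.I) - 1 - ((-t : ℝ) : ℂ) * y * Complex.I
  have h2 : (t : ℂ) * ((-y : ℝ) : ℂ) * Complex.I = ((-t : ℝ) : ℂ) * y * Complex.I := by
    push_cast
    ring
  rw [h2]

theorem Stp_right (r : Measure ℝ) (b V : ℝ) (hr : BJ r b V) (hb : 0 ≤ b) (hV : 0 ≤ V)
    (lam : ℝ) (hlam : 0 ≤ lam) (v : ℝ) (hv : v0c b V lam ≤ v) (hv0 : 0 < v) (x : ℝ)
    (hx : lam * v + 1 + u0c b V lam ≤ x) : ell v (ccp r) x ≤ -lam := by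
  have := hr.fin
  have := ccp_prob r
  have h1 := bnd_b r b V hr hb hV lam hlam v hv x hx
  have h2 := g0_pos v (ccp r) hv0 x
  have h3 : g1 v (ccp r) x / g0 v (ccp r) x ≤ x - lam * v := (div_le_iff₀ h2).2 h1
  unfold ell
  rw [div_le_iff₀ hv0]
  linarith

theorem steep_ccp (r : Measure ℝ) (b V : ℝ) (hr : BJ r b V) (hb : 0 ≤ b) (hV : 0 ≤ V)
    (lam : ℝ) (hlam : 0 ≤ lam) (v : ℝ) (hv : v0c b V lam ≤ v) :
    Steep (hd v (ccp r)) (ell v (ccp r)) (lam * v + 1 + u0c b V lam) lam := by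
  have := hr.fin
  have := ccp_prob r
  have h1 : 1 + b ≤ v := ((le_max_left _ _).trans (le_max_left _ _)).trans hv
  have h2 : 1 + u0c b V lam ≤ v := ((le_max_right _ _).trans (le_max_left _ _)).trans hv
  have hv0 : 0 < v := by linarith
  refine ⟨hd_pos v (ccp r) hv0, hd_deriv v (ccp r) hv0, ell_cont v (ccp r) hv0, ?_, ?_, ?_⟩
  · refine ell_anti v (ccp r) hv0 _ fun x hx => ?_
    refine bnd_c r b V hr hb hV lam hlam v hv x ?_
    rw [abs_le]
    constructor
    · have := hx.1
      linarith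
    · have := hx.2
      linarith
  · exact fun x hx => Stp_right r b V hr hb hV lam hlam v hv hv0 x hx
  · intro x hx
    have h3 := Stp_right (r.map (fun y => -y)) b V (Stp_BJ r b V hr) hb hV lam hlam v hv hv0 (-x) (by linarith)
    rw [Stp_ccp r b V hr, Stp_ell, neg_neg] at h3
    linarith

end Pool.Agent.Lib.MP_a80c92_pr
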