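import Pool.Agent.Lib.MP_a80c92_pr.F.SUof
import Pool.Agent.Lib.MP_a80c92_pr.F.Clos
import Pool.Agent.Lib.MP_a80c92_pr.F.ExB
import Pool.Agent.Lib.MP_a80c92_pr.F.HdA
import Pool.Agent.Lib.MP_a80c92_pr.F.Stp
import Pool.Agent.Lib.MP_a80c92_pr.F.ClB
import Pool.Agent.Lib.MP_a80c92_pr.F.ClC
import Pool.Agent.Lib.MP_a80c92_pr.F.Den
import Pool.Agent.Lib.MP_a80c92_pr.App

/-! # Theorem F, assembly -/

open MeasureTheory Set Filter Topology ProbabilityTheory
open scoped ENNReal NNReal

namespace Pool.Agent.Lib.MP_a80c92_pr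

theorem unimodal_shift (H : Measure ℝ) [IsProbabilityMeasure H] (c : ℝ) (h : Unimodal H) :
    Unimodal (Measure.dirac c ∗ H) := by
  obtain ⟨a, h1, h2⟩ := h
  have e : dfn (Measure.dirac c ∗ H) = fun x => dfn H (x - c) := by
    funext x
    unfold dfn
    rw [Measure.dirac_conv, map_measureReal_apply (by fun_prop) measurableSet_Iic]
    congr 1
    ext y
    simp only [mem_preimage, mem_Iic]
    constructor <;> intro h <;> linarith
  refine ⟨a + c, ?_, ?_⟩
  · rw [e]
    refine ⟨convex_Iio _, fun x hx y hy s t hs ht hst => ?_⟩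
    have hx' : x - c ∈ Iio a := by have : x < a + c := hx; exact show x - c < a by linarith
    have hy' : y - c ∈ Iio a := by have : y < a + c := hy; exact show y - c < a by linarith
    have := h1.2 hx' hy' hs ht hst
    simp only [smul_eq_mul] at this ⊢
    have e2 : s * x + t * y - c = s * (x - c) + t * (y - c) := by
      have : c = (s + t) * c := by rw [hst, one_mul]
      linear_combination (-1 : ℝ) * this
    rw [e2]; exact this
  · rw [e]
    refine ⟨convex_Ioi _, fun x hx y hy s t hs ht hst => ?_⟩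
    have hx' : x - c ∈ Ioi a := by have : a + c < x := hx; exact show a < x - c by linarith
    have hy' : y - c ∈ Ioi a := by have : a + c < y := hy; exact show a < y - c by linarith
    have := h2.2 hx' hy' hs ht hst
    simp only [smul_eq_mul] at this ⊢
    have e2 : s * x + t * y - c = s * (x - c) + t * (y - c) := by
      have : c = (s + t) * c := by rw [hst, one_mul]
      linear_combination (-1 : ℝ) * this
    rw [e2]; exact this

theorem su_shift (μ : Measure ℝ) [IsProbabilityMeasure μ] (c : ℝ) (h : StronglyUnimodal μ) :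
    StronglyUnimodal (Measure.dirac c ∗ μ) := by
  intro G hG hGu
  rw [Measure.conv_assoc]
  exact unimodal_shift _ c (h G hG hGu)

theorem fm_int_of_prob (f : ℝ → ℝ) (hf : Continuous f) (h0 : ∀ x, 0 ≤ f x)
    (hp : IsProbabilityMeasure (volume.withDensity (fun x => ENNReal.ofReal (f x)))) :
    Integrable f := by
  refine ⟨hf.aestronglyMeasurable, ?_⟩
  rw [hasFiniteIntegral_iff_ofReal (Filter.Eventually.of_forall h0)]
  have := hp.measure_univ
  rw [withDensity_apply _ MeasurableSet.univ, Measure.restrict_univ] at this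
  rw [this]; exact ENNReal.one_lt_top

/-- The law `ccp r ∗ N(0, v) ∗ Exp(lamR) ∗ (-Exp(lamL))` is strongly unimodal. -/
theorem fm_su (r : Measure ℝ) (b V : ℝ) (hr : BJ r b V) (hb : 0 ≤ b) (hV : 0 ≤ V)
    (lamR lamL : ℝ) (hR : 0 < lamR) (hL : 0 < lamL) (v : ℝ) (hv0 : 0 < v)
    (hv : v0c b V (max lamR lamL) ≤ v) :
    StronglyUnimodal (((ccp r ∗ gaussianReal 0 (Real.toNNReal v)) ∗ exL lamR) ∗
      (exL lamL).map (fun x => -x)) := by
  have := hr.fin
  have := ccp_prob r
  have iR := isProb_exL lamR hR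
  have iL := isProb_exL lamL hL
  have iL' : IsProbabilityMeasure ((exL lamL).map (fun x => -x)) :=
    Measure.isProbabilityMeasure_map (by fun_prop)
  have hlam : 0 < max lamR lamL := lt_max_of_lt_left hR
  set lam := max lamR lamL with hlamdef
  have hS := steep_ccp r b V hr hb hV lam hlam.le v hv
  set s := lam * v + 1 + u0c b V lam with hs
  have hs0 : 0 < s := by
    have h1 : 0 ≤ c2c b lam := by unfold c2c; positivity
    have h2 : 0 ≤ u0c b V lam := by unfold u0c; positivity
    have h3 : 0 < lam * v := mul_pos hlam hv0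
    rw [hs]; linarith
  set h := hd v (ccp r) with hh
  have hcont : Continuous h :=
    continuous_iff_continuousAt.2 fun x => (hS.der x).continuousAt
  have hint : Integrable h := steep_int h _ s lam hS hs0 hlam
  obtain ⟨x1, l1, l1c, f1pos, f1der, l1left, l1anti⟩ :=
    claim1 h _ s lam lamR lamL hS hs0 hlam hR (le_max_left _ _) hL (le_max_right _ _)
  obtain ⟨C, hC⟩ := cvR_bdd h _ s lam hS hs0 hlam lamR hR
  set f1 := cvR lamR h with hf1
  have f1cont : Continuous f1 :=
    continuous_iff_continuousAt.2 fun x => (f1der x).continuousAt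
  have d1 := conv_exL h hcont (fun x => (hS.pos x).le) hint lamR hR
  have d0 := conv_hd v (ccp r) hv0
  rw [← hh] at d0
  have p1 : IsProbabilityMeasure (volume.withDensity (fun x => ENNReal.ofReal (f1 x))) := by
    rw [← d1, ← d0]; infer_instance
  have f1int := fm_int_of_prob f1 f1cont (fun x => (f1pos x).le) p1
  obtain ⟨l2, l2c, l2anti, f2pos, f2der⟩ :=
    claim2 f1 l1 x1 lamL C hL f1pos f1der l1c hC l1left l1anti
  set f2 := cvL lamL f1 with hf2
  have f2cont : Continuous f2 :=
    continuous_iff_continuousAt.2 fun x => (f2der x).continuousAt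
  have d2 := conv_exL_neg f1 f1cont (fun x => (f1pos x).le) f1int lamL hL
  have e : ((ccp r ∗ gaussianReal 0 (Real.toNNReal v)) ∗ exL lamR) ∗
      (exL lamL).map (fun x => -x) = volume.withDensity (fun x => ENNReal.ofReal (f2 x)) := by
    rw [d0, d1, d2]
  have p2 : IsProbabilityMeasure (volume.withDensity (fun x => ENNReal.ofReal (f2 x))) := by
    rw [← e]; infer_instance
  have f2int := fm_int_of_prob f2 f2cont (fun x => (f2pos x).le) p2
  rw [e]
  exact su_of_posLC f2 (posLC_of_antitone f2 l2 f2pos f2der l2anti f2int) _ rfl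

theorem fm_sq_int (ρ : Measure ℝ) (hρ : IsLevy ρ) (b : ℝ) (hb : 1 ≤ b)
    (hB : ∀ᵐ x ∂ρ, |x| ≤ b) : Integrable (fun x : ℝ => x ^ 2) ρ := by
  refine ((integrable_min ρ hρ).const_mul (b ^ 2)).mono' (by fun_prop) ?_
  filter_upwards [hB] with x hx
  rw [Real.norm_eq_abs, abs_of_nonneg (sq_nonneg x)]
  rcases le_total (x ^ 2) 1 with h | h
  · rw [min_eq_right h]
    have : 1 ≤ b ^ 2 := one_le_pow₀ hb
    nlinarith [sq_nonneg x]
  · rw [min_eq_left h, mul_one, ← sq_abs x]
    exact pow_le_pow_left₀ (abs_nonneg x) hx 2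

theorem fm_big_int (ρ : Measure ℝ) (hρ : IsLevy ρ) (b : ℝ) (hb : 1 ≤ b)
    (hB : ∀ᵐ x ∂ρ, |x| ≤ b) : Integrable (fun x : ℝ => if |x| < 1 then 0 else x) ρ := by
  have hm : Measurable (fun x : ℝ => if |x| < 1 then 0 else x) :=
    Measurable.ite (measurableSet_lt measurable_id.abs measurable_const) measurable_const
      measurable_id
  refine ((integrable_min ρ hρ).const_mul b).mono' hm.aestronglyMeasurable ?_
  filter_upwards [hB] with x hx
  split_ifs with h
  · simp only [norm_zero]; positivity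
  · have h1 : 1 ≤ |x| := not_lt.1 h
    have h2 : 1 ≤ x ^ 2 := by rw [← sq_abs]; exact one_le_pow₀ h1
    rw [min_eq_left h2, mul_one, Real.norm_eq_abs]; exact hx

theorem fm_charFun_ccp (ρ : Measure ℝ) (hρ : IsLevy ρ) (b V : ℝ) (hb : 1 ≤ b)
    (hB : ∀ᵐ x ∂ρ, |x| ≤ b) (n : ℕ) (hr : BJ (ρ.restrict (An (n + 1))) b V) (t : ℝ) :
    charFun (ccp (ρ.restrict (An (n + 1)))) t =
      Complex.exp ((∫ x in An (n + 1), lk t x ∂ρ) -
        ((∫ x, (if |x| < 1 then 0 else x) ∂ρ : ℝ) : ℂ) * t * Complex.I) := by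
  rw [charFun_ccp _ b V hr t]
  congr 1
  have hbig := fm_big_int ρ hρ b hb hB
  have e1 : ∀ x : ℝ, Complex.exp (t * x * Complex.I) - 1 - t * x * Complex.I =
      lk t x - (((if |x| < 1 then 0 else x : ℝ) : ℂ) * (t * Complex.I)) := by
    intro x
    unfold lk
    split_ifs with h
    · simp
    · push_cast; ring
  simp only [e1]
  have hb2 : Integrable (fun x : ℝ => (((if |x| < 1 then 0 else x : ℝ) : ℂ) *
      (t * Complex.I))) (ρ.restrict (An (n + 1))) :=
    ((hbig.ofReal (𝕜 := ℂ)).mul_const (t * Complex.I)).integrableOn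
  have hb3 : Integrable (lk t) (ρ.restrict (An (n + 1))) :=
    (integrable_lk ρ hρ t).integrableOn
  rw [integral_sub hb3 hb2, integral_mul_const, integral_complex_ofReal]
  have e2 : ∫ x in An (n + 1), (if |x| < 1 then 0 else x) ∂ρ =
      ∫ x, (if |x| < 1 then 0 else x) ∂ρ := by
    refine setIntegral_eq_integral_of_forall_compl_eq_zero fun x hx => ?_
    have h1 : ¬ (dl (n + 1) < |x|) := hx
    have h2 : dl (n + 1) < 1 := by
      unfold dl
      rw [div_lt_one (by positivity)]
      push_cast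
      have : (0 : ℝ) ≤ n := Nat.cast_nonneg n
      linarith
    rw [if_pos (by linarith [not_lt.1 h1])]
  rw [e2]
  ring

theorem thmF (ρ : Measure ℝ) (hρ : IsLevy ρ) (B : ℝ) (hB : ρ {x : ℝ | B < |x|} = 0)
    (lamR lamL : ℝ) (hR : 0 < lamR) (hL : 0 < lamL) :
    ∃ S0 : ℝ, ∀ s2 : ℝ, S0 ≤ s2 → ∀ (g : ℝ) (μ : Measure ℝ) [IsProbabilityMeasure μ],
      HasTriple μ g s2 (ρ + levyOf (fun x => Real.exp (-(lamR * x)))
        (fun x => Real.exp (-(lamL * x)))) → StronglyUnimodal μ := by
  set b := max B 1 with hb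
  have hb1 : 1 ≤ b := le_max_right _ _
  have hBae : ∀ᵐ x ∂ρ, |x| ≤ b := by
    rw [ae_iff]
    refine measure_mono_null (fun x hx => ?_) hB
    have : ¬ (|x| ≤ b) := hx
    exact lt_of_le_of_lt (le_max_left B 1) (not_le.1 this)
  have hsq := fm_sq_int ρ hρ b hb1 hBae
  set V := ∫ x, x ^ 2 ∂ρ with hV
  have hV0 : 0 ≤ V := integral_nonneg fun x => sq_nonneg x
  refine ⟨max 1 (v0c b V (max lamR lamL)), ?_⟩
  intro s2 hs2 g μ hμ htr
  have hs21 : 1 ≤ s2 := (le_max_left _ _).trans hs2
  have hs2v := (le_max_right _ _).trans hs2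
  have hs20 : 0 < s2 := by linarith
  obtain ⟨cR, tR⟩ := hasTriple_exL lamR hR
  obtain ⟨cL, tL⟩ := hasTriple_exL lamL hL
  have iR := isProb_exL lamR hR
  have iL := isProb_exL lamL hL
  have iL' : IsProbabilityMeasure ((exL lamL).map (fun x => -x)) :=
    Measure.isProbabilityMeasure_map (by fun_prop)
  let r : ℕ → Measure ℝ := fun n => ρ.restrict (An (n + 1))
  have hr : ∀ n, BJ (r n) b V := fun n => by
    refine ⟨⟨?_⟩, ae_restrict_of_ae hBae, ?_⟩
    · rw [Measure.restrict_apply_univ]; exact measure_An_lt_top ρ hρ (n + 1)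
    · exact setIntegral_le_integral hsq (Filter.Eventually.of_forall fun x => sq_nonneg x)
  have ifin : ∀ n, IsFiniteMeasure (r n) := fun n => (hr n).fin
  have iccp : ∀ n, IsProbabilityMeasure (ccp (r n)) := fun n => ccp_prob (r n)
  set m1 : ℝ := ∫ x, (if |x| < 1 then 0 else x) ∂ρ with hm1
  set c : ℝ := g - cR + cL + m1 with hc
  let σ : ℕ → Measure ℝ := fun n =>
    ((ccp (r n) ∗ gaussianReal 0 (Real.toNNReal s2)) ∗ exL lamR) ∗ (exL lamL).map (fun x => -x)
  have iσ : ∀ n, IsProbabilityMeasure (σ n) := fun n => by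
    simp only [σ]; infer_instance
  have hsu : ∀ n, StronglyUnimodal (σ n) := fun n =>
    fm_su (r n) b V (hr n) (by linarith) hV0 lamR lamL hR hL s2 hs20 hs2v
  refine su_of_limit (fun n => Measure.dirac c ∗ σ n) μ (fun n => su_shift (σ n) c (hsu n)) ?_
  intro t
  have hcf : ∀ n, charFun (Measure.dirac c ∗ σ n) t =
      Complex.exp (g * t * Complex.I - s2 * t ^ 2 / 2 + (∫ x in An (n + 1), lk t x ∂ρ) +
        (∫ x, lk t x ∂(levyOf (fun x => Real.exp (-(lamR * x))) 0)) +
        ∫ x, lk (-t) x ∂(levyOf (fun x => Real.exp (-(lamL * x))) 0)) := by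
    intro n
    have hneg : charFun ((exL lamL).map (fun x => -x)) t = charFun (exL lamL) (-t) := by
      have h1 := charFun_map_mul (μ := exL lamL) (-1) t
      simp only [neg_mul, one_mul] at h1
      exact h1
    simp only [σ]
    rw [charFun_conv, charFun_conv, charFun_conv, charFun_conv, hneg, tR.cf, tL.cf,
      fm_charFun_ccp ρ hρ b V hb1 hBae n (hr n) t, charFun_gaussianReal, charFun_apply_real,
      integral_dirac, ← hm1]
    simp only [← Complex.exp_add]
    congr 1
    rw [Real.coe_toNNReal s2 hs20.le, hc]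
    push_cast
    ring
  simp only [hcf]
  have hlim : Tendsto (fun n => ∫ x in An (n + 1), lk t x ∂ρ) atTop (𝓝 (∫ x, lk t x ∂ρ)) := by
    have h2 := tendsto_setIntegral_of_monotone (μ := ρ) (f := lk t) measurableSet_An An_mono
      (integrable_lk ρ hρ t).integrableOn
    rw [iUnion_An] at h2
    have h3 : ∫ x in {(0 : ℝ)}ᶜ, lk t x ∂ρ = ∫ x, lk t x ∂ρ := by
      refine setIntegral_eq_integral_of_forall_compl_eq_zero fun x hx => ?_
      have : x = 0 := by simpa using hx
      rw [this]; simp [lk]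
    rw [h3] at h2
    exact h2.comp (tendsto_add_atTop_nat 1)
  have etarget : charFun μ t = Complex.exp (g * t * Complex.I - s2 * t ^ 2 / 2 +
        (∫ x, lk t x ∂ρ) +
        (∫ x, lk t x ∂(levyOf (fun x => Real.exp (-(lamR * x))) 0)) +
        ∫ x, lk (-t) x ∂(levyOf (fun x => Real.exp (-(lamL * x))) 0)) := by
    have hLR := isLevy_exp lamR hR
    have hLL := isLevy_exp lamL hL
    have hLL' : IsLevy (levyOf 0 (fun x => Real.exp (-(lamL * x)))) := by
      rw [← levyOf_neg]; exact isLevy_neg _ hLL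
    rw [htr.cf, levyOf_add, integral_lk_add ρ _ hρ (isLevy_add _ _ hLR hLL'),
      integral_lk_add _ _ hLR hLL']
    have e3 : ∫ x, lk t x ∂(levyOf 0 (fun x => Real.exp (-(lamL * x)))) =
        ∫ x, lk (-t) x ∂(levyOf (fun x => Real.exp (-(lamL * x))) 0) := by
      rw [← levyOf_neg, integral_map (by fun_prop) (measurable_lk t).aestronglyMeasurable]
      simp only [lk_neg]
    rw [e3]
    congr 1
    ring
  rw [etarget]
  refine (Complex.continuous_exp.tendsto _).comp ?_
  exact ((tendsto_const_nhds.add hlim).add tendsto_const_nhds).add tendsto_const_nhds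

end Pool.Agent.Lib.MP_a80c92_pr
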