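import Pool.Agent.Lib.MP_a80c92_pr.Defs2

/-! # JOB F/G012: Gaussian weights

PROOF. `gx v x y = e^{(xy - y²/2)/v} ≤ e^{x²/(2v)}` (`xy - y²/2 ≤ x²/2`); for `|x| ≤ R` the functions
`|y|^k gx v x y`, `k = 0, 1, 2`, are bounded by a constant depending on `R, v` only
(`|y|^k e^{(R|y| - y²/2)/v}` is bounded: it is continuous and tends to `0`; or use
`|y|^k ≤ C e^{|y|}` and complete the square: `|y| + (R|y| - y²/2)/v ≤ (R+v)²/(2v)`). So all
integrals exist (probability measure), and `hasDerivAt_integral_of_dominated_loc_of_deriv_le` with a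
constant bound gives the derivatives: `∂_x gx = (y/v) gx`. `hd_deriv`: product rule:
`hd' = (-x/v) hd + hd g1/(v g0) = ell hd`. `ell_cont`: quotients of continuous (differentiable)
functions. `ell_anti`: on `[-s, s]` the derivative of `ell` is
`-(1 - (g2 g0/v - g1²/v)/g0²)/v = -1/v + (g2 g0 - g1²)/(v² g0²) ≤ -1/v + g2/(v² g0) ≤ 0`
(`antitoneOn_of_deriv_nonpos`). -/

open MeasureTheory Set Filter Topology ProbabilityTheory
open scoped ENNReal NNReal

namespace Pool.Agent.Lib.MP_a80c92_pr

variable (v : ℝ) (P : Measure ℝ) [IsProbabilityMeasure P]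

theorem gx_pos (x y : ℝ) : 0 < gx v x y := by
  exact Real.exp_pos _

theorem gx_le (hv : 0 < v) (x y : ℝ) : gx v x y ≤ Real.exp (x ^ 2 / (2 * v)) := by
  unfold gx
  refine Real.exp_le_exp.2 ?_
  rw [div_le_div_iff₀ hv (by positivity)]
  nlinarith [mul_nonneg hv.le (sq_nonneg (x - y))]

private theorem G012_bd (hv : 0 < v) (k : ℕ) {R x : ℝ} (hx : |x| ≤ R) (y : ℝ) :
    |y| ^ k * gx v x y ≤ k.factorial * Real.exp ((R + v) ^ 2 / (2 * v)) := by
  have h1 : |y| ^ k ≤ k.factorial * Real.exp |y| := by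
    have h := Real.pow_div_factorial_le_exp |y| (abs_nonneg y) k
    rw [div_le_iff₀ (by exact_mod_cast Nat.factorial_pos k)] at h
    linarith
  have h2 : x * y ≤ R * |y| := by
    calc x * y ≤ |x * y| := le_abs_self _
      _ = |x| * |y| := abs_mul x y
      _ ≤ R * |y| := mul_le_mul_of_nonneg_right hx (abs_nonneg y)
  have h3 : |y| + (x * y - y ^ 2 / 2) / v ≤ (R + v) ^ 2 / (2 * v) := by
    have h4 : |y| + (x * y - y ^ 2 / 2) / v = (v * |y| + (x * y - y ^ 2 / 2)) / v := by
      field_simp
    rw [h4, div_le_div_iff₀ hv (by positivity)]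
    have h5 : 0 ≤ (R + v - |y|) ^ 2 := sq_nonneg _
    have h6 : y ^ 2 = |y| ^ 2 := (sq_abs y).symm
    rw [h6]
    nlinarith [mul_nonneg hv.le h5, mul_le_mul_of_nonneg_left h2 hv.le]
  calc |y| ^ k * gx v x y ≤ (k.factorial * Real.exp |y|) * gx v x y :=
        mul_le_mul_of_nonneg_right h1 (gx_pos v x y).le
    _ = k.factorial * Real.exp (|y| + (x * y - y ^ 2 / 2) / v) := by
        rw [Real.exp_add]
        unfold gx
        ring
    _ ≤ k.factorial * Real.exp ((R + v) ^ 2 / (2 * v)) :=
        mul_le_mul_of_nonneg_left (Real.exp_le_exp.2 h3) (Nat.cast_nonneg _)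

private theorem G012_cont (k : ℕ) (x : ℝ) : Continuous fun y => y ^ k * gx v x y := by
  unfold gx
  fun_prop

include P in
private theorem G012_int (hv : 0 < v) (k : ℕ) (x : ℝ) : Integrable (fun y => y ^ k * gx v x y) P := by
  refine Integrable.of_bound (G012_cont v k x).aestronglyMeasurable
    (k.factorial * Real.exp ((|x| + v) ^ 2 / (2 * v))) (Eventually.of_forall fun y => ?_)
  rw [Real.norm_eq_abs, abs_mul, abs_pow, abs_of_pos (gx_pos v x y)]
  exact G012_bd v hv k le_rfl y

private theorem G012_deriv (hv : 0 < v) (k : ℕ) (x : ℝ) :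
    HasDerivAt (fun x => ∫ y, y ^ k * gx v x y ∂P) ((∫ y, y ^ (k + 1) * gx v x y ∂P) / v) x := by
  have h := hasDerivAt_integral_of_dominated_loc_of_deriv_le (μ := P) (x₀ := x) (s := Metric.ball x 1)
    (F := fun x y => y ^ k * gx v x y) (F' := fun x y => y ^ k * (gx v x y * (y / v)))
    (bound := fun _ => (k + 1).factorial * Real.exp ((|x| + 1 + v) ^ 2 / (2 * v)) / v)
    (Metric.ball_mem_nhds x one_pos)
    (Eventually.of_forall fun x => (G012_cont v k x).aestronglyMeasurable) (G012_int v P hv k x) ?_ ?_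
    (integrable_const _) ?_
  · have h1 := h.2
    have h2 : ∫ y, y ^ k * (gx v x y * (y / v)) ∂P = (∫ y, y ^ (k + 1) * gx v x y ∂P) / v := by
      rw [← integral_div]
      refine integral_congr_ae (Eventually.of_forall fun y => ?_)
      show y ^ k * (gx v x y * (y / v)) = y ^ (k + 1) * gx v x y / v
      rw [pow_succ]
      ring
    rw [h2] at h1
    exact h1
  · refine Continuous.aestronglyMeasurable ?_
    unfold gx
    fun_prop
  · refine Eventually.of_forall fun y z hz => ?_
    have hz' : |z| ≤ |x| + 1 := by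
      rw [Metric.mem_ball, Real.dist_eq] at hz
      have h1 : |z| ≤ |z - x| + |x| := by
        have h2 := abs_add_le (z - x) x
        rwa [sub_add_cancel] at h2
      linarith
    have h1 := G012_bd v hv (k + 1) hz' y
    have h2 : ‖y ^ k * (gx v z y * (y / v))‖ = |y| ^ (k + 1) * gx v z y / v := by
      rw [Real.norm_eq_abs, abs_mul, abs_mul, abs_pow, abs_of_pos (gx_pos v z y), abs_div, abs_of_pos hv, pow_succ]
      ring
    rw [h2]
    exact div_le_div_of_nonneg_right h1 hv.le
  · refine Eventually.of_forall fun y z _ => ?_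
    have h1 : HasDerivAt (fun z : ℝ => (z * y - y ^ 2 / 2) / v) (y / v) z := by
      have h2 : HasDerivAt (fun z : ℝ => z * y - y ^ 2 / 2) (1 * y) z :=
        ((hasDerivAt_id z).mul_const y).sub_const _
      rw [one_mul] at h2
      exact h2.div_const v
    exact (h1.exp).const_mul (y ^ k)

theorem int_g0 (hv : 0 < v) (x : ℝ) : Integrable (fun y => gx v x y) P := by
  have h := G012_int v P hv 0 x
  simp only [pow_zero, one_mul] at h
  exact h

theorem int_g1 (hv : 0 < v) (x : ℝ) : Integrable (fun y => y * gx v x y) P := by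
  have h := G012_int v P hv 1 x
  simp only [pow_one] at h
  exact h

theorem int_g2 (hv : 0 < v) (x : ℝ) : Integrable (fun y => y ^ 2 * gx v x y) P := by
  exact G012_int v P hv 2 x

theorem g0_pos (hv : 0 < v) (x : ℝ) : 0 < g0 v P x := by
  unfold g0
  rw [integral_pos_iff_support_of_nonneg (fun y => (gx_pos v x y).le) (int_g0 v P hv x)]
  have h : Function.support (fun y => gx v x y) = univ := by
    ext y
    simp only [Function.mem_support, mem_univ, iff_true]
    exact (gx_pos v x y).ne'
  rw [h, measure_univ]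
  exact one_pos

theorem g0_deriv (hv : 0 < v) (x : ℝ) : HasDerivAt (g0 v P) (g1 v P x / v) x := by
  have h := G012_deriv v P hv 0 x
  simp only [pow_zero, one_mul, zero_add, pow_one] at h
  exact h

theorem g1_deriv (hv : 0 < v) (x : ℝ) : HasDerivAt (g1 v P) (g2 v P x / v) x := by
  have h := G012_deriv v P hv 1 x
  simp only [pow_one] at h
  exact h

theorem hd_pos (hv : 0 < v) (x : ℝ) : 0 < hd v P x := by
  unfold hd
  have h1 : 0 < Real.sqrt (2 * Real.pi * v) := Real.sqrt_pos.2 (by positivity)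
  exact mul_pos (div_pos (Real.exp_pos _) h1) (g0_pos v P hv x)

theorem hd_deriv (hv : 0 < v) (x : ℝ) : HasDerivAt (hd v P) (ell v P x * hd v P x) x := by
  have h0 := g0_pos v P hv x
  have h1 : HasDerivAt (fun x : ℝ => -(x ^ 2) / (2 * v)) (-(2 * x) / (2 * v)) x := by
    have h2 : HasDerivAt (fun x : ℝ => x ^ 2) (2 * x) x := by
      have h3 := hasDerivAt_pow 2 x
      simpa using h3
    exact (h2.neg).div_const (2 * v)
  have h2 : HasDerivAt (hd v P) (Real.exp (-(x ^ 2) / (2 * v)) * (-(2 * x) / (2 * v)) / Real.sqrt (2 * Real.pi * v) *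
      g0 v P x + Real.exp (-(x ^ 2) / (2 * v)) / Real.sqrt (2 * Real.pi * v) * (g1 v P x / v)) x :=
    ((h1.exp).div_const _).mul (g0_deriv v P hv x)
  refine h2.congr_deriv ?_
  unfold ell hd
  field_simp
  ring

theorem ell_cont (hv : 0 < v) : Continuous (ell v P) := by
  have c0 : Continuous (g0 v P) := continuous_iff_continuousAt.2 fun x => (g0_deriv v P hv x).continuousAt
  have c1 : Continuous (g1 v P) := continuous_iff_continuousAt.2 fun x => (g1_deriv v P hv x).continuousAt
  unfold ell
  exact ((continuous_id.sub (c1.div c0 fun x => (g0_pos v P hv x).ne')).neg).div_const v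

theorem ell_anti (hv : 0 < v) (s : ℝ)
    (h : ∀ x ∈ Icc (-s) s, g2 v P x ≤ v * g0 v P x) :
    AntitoneOn (ell v P) (Icc (-s) s) := by
  have hder : ∀ x, HasDerivAt (ell v P)
      (-(1 - (g2 v P x / v * g0 v P x - g1 v P x * (g1 v P x / v)) / g0 v P x ^ 2) / v) x := fun x =>
    (((hasDerivAt_id x).sub ((g1_deriv v P hv x).div (g0_deriv v P hv x) (g0_pos v P hv x).ne')).neg).div_const v
  refine antitoneOn_of_deriv_nonpos (convex_Icc _ _) (ell_cont v P hv).continuousOn
    (fun x _ => (hder x).differentiableAt.differentiableWithinAt) fun x hx => ?_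
  rw [interior_Icc] at hx
  rw [(hder x).deriv]
  have h0 := g0_pos v P hv x
  have h1 := h x ⟨hx.1.le, hx.2.le⟩
  have h2 : (g2 v P x / v * g0 v P x - g1 v P x * (g1 v P x / v)) / g0 v P x ^ 2 ≤ 1 := by
    rw [div_le_one (by positivity)]
    have h3 : g2 v P x / v * g0 v P x ≤ g0 v P x * g0 v P x := by
      refine mul_le_mul_of_nonneg_right ?_ h0.le
      rw [div_le_iff₀ hv]
      linarith
    have h4 : 0 ≤ g1 v P x * (g1 v P x / v) := by
      rw [← mul_div_assoc]
      exact div_nonneg (mul_self_nonneg _) hv.le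
    rw [pow_two]
    linarith
  rw [neg_div]
  exact neg_nonpos.2 (div_nonneg (by linarith) hv.le)

end Pool.Agent.Lib.MP_a80c92_pr
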