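import Pool.Agent.Lib.MP_a80c92_pr.F.DUz
import Pool.Agent.Lib.MP_a80c92_pr.CPb
import Pool.Agent.Lib.MP_a80c92_pr.Ceil
import Pool.Agent.Lib.MP_a80c92_pr.LimE

/-! # JOB F/SUof: a law with a positive log-concave density is strongly unimodal

PROOF. `lcz_disc`: `q n = (disc δ μ).real {n} = ∫_{(n-1)δ}^{nδ} f > 0` (`disc_real` in Ceil.lean, or
`ceil_Ioc`; `μ.real (Ioc a b) = ∫ x in Ioc a b, f x`). With `I = Ioc ((n-1)δ) (nδ)`:
`q (n-1) = ∫_I f (x - δ) dx`, `q (n+1) = ∫_I f (y + δ) dy`, and for `x, y ∈ I`: `x - δ < y`, so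
`h.lc (x - δ) y δ` gives `f (x - δ) f (y + δ) ≤ f x f y`; integrate over `I × I`
(iterated integrals: `(∫_I A)(∫_I B) = ∫_I ∫_I A x B y`).
`su_of_posLC`: for unimodal `G`, `Y N = disc (dl N) μ ∗ disc (dl N) G` is `DU` (`SDU_of_LCZ`,
`DU_disc`), and `unimodal_of_lattice_limit` with `b = 0`, `δ = dl`, `H = μ ∗ G`:
`charFun_lattice`, `zcf_conv`, `tendsto_zcf_disc` (twice), `charFun_conv`. -/

open MeasureTheory Set Filter Topology ProbabilityTheory
open scoped ENNReal NNReal

namespace Pool.Agent.Lib.MP_a80c92_pr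

private theorem SUof_Ioc (f : ℝ → ℝ) (h : PosLC f) (μ : Measure ℝ)
    (hμ : μ = volume.withDensity (fun x => ENNReal.ofReal (f x))) {a b : ℝ} (hab : a ≤ b) :
    μ.real (Ioc a b) = ∫ x in a..b, f x := by
  unfold Measure.real
  rw [hμ, withDensity_apply _ measurableSet_Ioc, intervalIntegral.integral_of_le hab,
    ← ofReal_integral_eq_lintegral_ofReal h.int.integrableOn (ae_of_all _ fun x => (h.pos x).le),
    ENNReal.toReal_ofReal (integral_nonneg fun x => (h.pos x).le)]

private theorem SUof_q (f : ℝ → ℝ) (h : PosLC f) (μ : Measure ℝ) [IsProbabilityMeasure μ]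
    (hμ : μ = volume.withDensity (fun x => ENNReal.ofReal (f x))) (δ : ℝ) (hδ : 0 < δ) (n : ℤ) :
    (disc δ μ).real {n} = ∫ x in (((n : ℝ) - 1) * δ)..((n : ℝ) * δ), f x := by
  have h1 : ((n : ℝ) - 1) * δ ≤ (n : ℝ) * δ := by nlinarith
  rw [disc_real μ δ hδ n, ← ceil_Ioc μ _ _ h1, SUof_Ioc f h μ hμ h1]

private theorem SUof_int (f : ℝ → ℝ) (h : PosLC f) (a δ : ℝ) (hδ : 0 < δ) :
    (∫ x in (a + δ)..(a + 2 * δ), f x) * (∫ x in (a - δ)..a, f x) ≤ (∫ x in a..(a + δ), f x) ^ 2 := by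
  have hab : a ≤ a + δ := by linarith
  have e1 : ∫ x in (a + δ)..(a + 2 * δ), f x = ∫ x in a..(a + δ), f (x + δ) := by
    rw [intervalIntegral.integral_comp_add_right]
    congr 1
    ring
  have e2 : ∫ x in (a - δ)..a, f x = ∫ x in a..(a + δ), f (x - δ) := by
    rw [intervalIntegral.integral_comp_sub_right]
    congr 1
    ring
  have c1 : Continuous fun x => f (x + δ) := h.cont.comp (continuous_id.add continuous_const)
  have c2 : Continuous fun x => f (x - δ) := h.cont.comp (continuous_id.sub continuous_const)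
  have key : ∀ x ∈ Icc a (a + δ), ∀ y ∈ Icc a (a + δ), f (y - δ) * f (x + δ) ≤ f y * f x := by
    intro x hx y hy
    rcases (show y - δ ≤ x by linarith [hx.1, hy.2]).eq_or_lt with h1 | h1
    · have h2 : x + δ = y := by linarith
      rw [h1, h2, mul_comm]
    · have h2 := h.lc (y - δ) x δ h1 hδ
      rwa [sub_add_cancel] at h2
  have step : ∀ x ∈ Icc a (a + δ), f (x + δ) * (∫ y in a..(a + δ), f (y - δ)) ≤
      f x * ∫ y in a..(a + δ), f y := by
    intro x hx
    rw [← intervalIntegral.integral_const_mul, ← intervalIntegral.integral_const_mul]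
    refine intervalIntegral.integral_mono_on hab ((continuous_const.mul c2).intervalIntegrable _ _)
      ((continuous_const.mul h.cont).intervalIntegrable _ _) fun y hy => ?_
    have := key x hx y hy
    linarith
  rw [e1, e2, pow_two, ← intervalIntegral.integral_mul_const, ← intervalIntegral.integral_mul_const]
  exact intervalIntegral.integral_mono_on hab ((c1.mul continuous_const).intervalIntegrable _ _)
    ((h.cont.mul continuous_const).intervalIntegrable _ _) step

theorem lcz_disc (f : ℝ → ℝ) (h : PosLC f) (μ : Measure ℝ) [IsProbabilityMeasure μ]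
    (hμ : μ = volume.withDensity (fun x => ENNReal.ofReal (f x))) (δ : ℝ) (hδ : 0 < δ) :
    LCZ (disc δ μ) := by
  refine ⟨fun n => ?_, fun n => ?_⟩
  · rw [SUof_q f h μ hμ δ hδ n]
    exact intervalIntegral.intervalIntegral_pos_of_pos (h.cont.intervalIntegrable _ _) h.pos (by nlinarith)
  · rw [SUof_q f h μ hμ δ hδ, SUof_q f h μ hμ δ hδ, SUof_q f h μ hμ δ hδ]
    have h1 := SUof_int f h (((n : ℝ) - 1) * δ) δ hδ
    have e1 : ((n : ℝ) - 1) * δ + δ = (n : ℝ) * δ := by ring
    have e2 : ((n : ℝ) - 1) * δ + 2 * δ = (((n + 1 : ℤ) : ℝ)) * δ := by push_cast; ring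
    have e3 : ((n : ℝ) - 1) * δ - δ = (((n - 1 : ℤ) : ℝ) - 1) * δ := by push_cast; ring
    have e4 : (((n + 1 : ℤ) : ℝ) - 1) * δ = (n : ℝ) * δ := by push_cast; ring
    have e5 : ((n - 1 : ℤ) : ℝ) * δ = ((n : ℝ) - 1) * δ := by push_cast; ring
    rw [e1, e2, e3] at h1
    rw [e4, e5]
    exact h1

theorem su_of_posLC (f : ℝ → ℝ) (h : PosLC f) (μ : Measure ℝ) [IsProbabilityMeasure μ]
    (hμ : μ = volume.withDensity (fun x => ENNReal.ofReal (f x))) : StronglyUnimodal μ := by
  intro G hG hGu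
  have hpos : ∀ N, 0 < dl N := fun N => by unfold dl; positivity
  have hdl : Tendsto dl atTop (𝓝 0) := by
    unfold dl
    exact tendsto_one_div_add_atTop_nhds_zero_nat
  have iY : ∀ N, IsProbabilityMeasure (disc (dl N) μ ∗ disc (dl N) G) := fun N => inferInstance
  have hDU : ∀ N, DU (disc (dl N) μ ∗ disc (dl N) G) := fun N =>
    SDU_of_LCZ (disc (dl N) μ) (lcz_disc f h μ hμ (dl N) (hpos N)) _ inferInstance
      (DU_disc G hGu (dl N) (hpos N))
  refine unimodal_of_lattice_limit (fun N => disc (dl N) μ ∗ disc (dl N) G) hDU (fun _ => 0) dl hpos hdl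
    (μ ∗ G) ?_
  intro t
  have hz : ∀ N, charFun ((disc (dl N) μ ∗ disc (dl N) G).map (fun z : ℤ => (0 : ℝ) + dl N * (z : ℝ))) t =
      zcf (disc (dl N) μ) (dl N * t) * zcf (disc (dl N) G) (dl N * t) := by
    intro N
    rw [charFun_lattice, zcf_conv]
    simp
  rw [charFun_conv]
  refine Tendsto.congr (fun N => (hz N).symm) ?_
  exact (tendsto_zcf_disc μ t).mul (tendsto_zcf_disc G t)

end Pool.Agent.Lib.MP_a80c92_pr
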